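import Pool.Agent.P.MP_9594ac_pr.Defs

/-! Elementary facts on `Ex`, `mu`, cells and scales. -/

namespace Pool.Agent.P.MP_9594ac_pr

open Finset Filter

/-! ### The product measure -/

section ExBasic
variable {β : Type}

theorem Ex_empty (θ : ℝ) (f : Finset β → ℝ) : Ex ∅ θ f = f ∅ := by simp [Ex]

theorem Ex_insert [DecidableEq β] {E : Finset β} {a : β} (ha : a ∉ E) (θ : ℝ)
    (f : Finset β → ℝ) :
    Ex (insert a E) θ f = θ * Ex E θ (fun W => f (insert a W)) + (1 - θ) * Ex E θ f := by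
  unfold Ex
  rw [sum_powerset_insert ha, card_insert_of_notMem ha, mul_sum, mul_sum, add_comm]
  congr 1
  · refine sum_congr rfl (fun W hW => ?_)
    have hWE := mem_powerset.1 hW
    have haW : a ∉ W := fun h => ha (hWE h)
    rw [card_insert_of_notMem haW, Nat.add_sub_add_right, pow_succ]; ring
  · refine sum_congr rfl (fun W hW => ?_)
    have hWE := card_le_card (mem_powerset.1 hW)
    rw [Nat.succ_sub hWE, pow_succ]; ring

theorem Ex_congr {E : Finset β} {θ : ℝ} {f g : Finset β → ℝ} (h : ∀ W, W ⊆ E → f W = g W) :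
    Ex E θ f = Ex E θ g :=
  sum_congr rfl (fun W hW => by rw [h W (mem_powerset.1 hW)])

theorem Ex_mono {E : Finset β} {θ : ℝ} (h0 : 0 ≤ θ) (h1 : θ ≤ 1) {f g : Finset β → ℝ}
    (h : ∀ W, W ⊆ E → f W ≤ g W) : Ex E θ f ≤ Ex E θ g :=
  sum_le_sum (fun W hW => mul_le_mul_of_nonneg_left (h W (mem_powerset.1 hW))
    (mul_nonneg (pow_nonneg h0 _) (pow_nonneg (by linarith) _)))

theorem Ex_add (E : Finset β) (θ : ℝ) (f g : Finset β → ℝ) :
    Ex E θ (fun W => f W + g W) = Ex E θ f + Ex E θ g := by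
  unfold Ex; rw [← sum_add_distrib]; exact sum_congr rfl (fun _ _ => by ring)

theorem Ex_sub (E : Finset β) (θ : ℝ) (f g : Finset β → ℝ) :
    Ex E θ (fun W => f W - g W) = Ex E θ f - Ex E θ g := by
  unfold Ex; rw [← sum_sub_distrib]; exact sum_congr rfl (fun _ _ => by ring)

theorem Ex_mul_left (E : Finset β) (θ c : ℝ) (f : Finset β → ℝ) :
    Ex E θ (fun W => c * f W) = c * Ex E θ f := by
  unfold Ex; rw [mul_sum]; exact sum_congr rfl (fun _ _ => by ring)

theorem Ex_const (E : Finset β) (θ c : ℝ) : Ex E θ (fun _ => c) = c := by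
  classical
  induction E using Finset.induction_on with
  | empty => exact Ex_empty θ _
  | insert a E ha ih => rw [Ex_insert ha, ih]; ring

theorem Ex_nonneg {E : Finset β} {θ : ℝ} (h0 : 0 ≤ θ) (h1 : θ ≤ 1) {f : Finset β → ℝ}
    (h : ∀ W, W ⊆ E → 0 ≤ f W) : 0 ≤ Ex E θ f := by
  have := Ex_mono (E := E) h0 h1 (f := fun _ => 0) (g := f) h
  rwa [Ex_const] at this

theorem Ex_le_const {E : Finset β} {θ c : ℝ} (h0 : 0 ≤ θ) (h1 : θ ≤ 1) {f : Finset β → ℝ}
    (h : ∀ W, W ⊆ E → f W ≤ c) : Ex E θ f ≤ c := by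
  have := Ex_mono (E := E) h0 h1 (f := f) (g := fun _ => c) h
  rwa [Ex_const] at this

/-- independence of disjoint parts. -/
theorem Ex_union [DecidableEq β] {E₁ E₂ : Finset β} (h : Disjoint E₁ E₂) (θ : ℝ)
    (f : Finset β → ℝ) :
    Ex (E₁ ∪ E₂) θ f = Ex E₁ θ (fun W₁ => Ex E₂ θ (fun W₂ => f (W₁ ∪ W₂))) := by
  induction E₁ using Finset.induction_on generalizing f with
  | empty => simp [Ex_empty]
  | insert a E ha ih =>
    have h1 : a ∉ E₂ := fun hh => (disjoint_left.1 h) (mem_insert_self a E) hh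
    have h2 : Disjoint E E₂ := h.mono_left (subset_insert a E)
    have h3 : a ∉ E ∪ E₂ := by simp [ha, h1]
    rw [insert_union, Ex_insert h3, Ex_insert ha, ih h2, ih h2]
    simp only [insert_union]

/-- probability of missing a set. -/
theorem Ex_disjoint [DecidableEq β] {E F : Finset β} (h : F ⊆ E) (θ : ℝ) :
    Ex E θ (fun W => ind (Disjoint F W)) = (1 - θ) ^ F.card := by
  induction F using Finset.induction_on generalizing E with
  | empty => simp [ind_of, Ex_const]
  | insert a F ha ih =>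
    have haE : a ∈ E := h (mem_insert_self a F)
    have hF : F ⊆ E.erase a := fun x hx =>
      mem_erase.2 ⟨fun e => ha (e ▸ hx), h (mem_insert_of_mem hx)⟩
    rw [← insert_erase haE, Ex_insert (notMem_erase a E), card_insert_of_notMem ha, pow_succ,
      ← ih hF]
    have e1 : Ex (E.erase a) θ (fun W => ind (Disjoint (insert a F) (insert a W))) = 0 := by
      rw [← Ex_const (E.erase a) θ 0]
      exact Ex_congr (fun W _ => ind_of_not (by simp))
    have e2 : Ex (E.erase a) θ (fun W => ind (Disjoint (insert a F) W)) =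
        Ex (E.erase a) θ (fun W => ind (Disjoint F W)) := by
      refine Ex_congr (fun W hW => ind_congr ?_)
      have : a ∉ W := fun hh => notMem_erase a E (hW hh)
      simp [this]
    rw [e1, e2]; ring

/-- probability of containing a set. -/
theorem Ex_subset [DecidableEq β] {E F : Finset β} (h : F ⊆ E) (θ : ℝ) :
    Ex E θ (fun W => ind (F ⊆ W)) = θ ^ F.card := by
  induction F using Finset.induction_on generalizing E with
  | empty => simp [ind_of, Ex_const]
  | insert a F ha ih =>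
    have haE : a ∈ E := h (mem_insert_self a F)
    have hF : F ⊆ E.erase a := fun x hx =>
      mem_erase.2 ⟨fun e => ha (e ▸ hx), h (mem_insert_of_mem hx)⟩
    rw [← insert_erase haE, Ex_insert (notMem_erase a E), card_insert_of_notMem ha, pow_succ,
      ← ih hF]
    have e1 : Ex (E.erase a) θ (fun W => ind (insert a F ⊆ W)) = 0 := by
      rw [← Ex_const (E.erase a) θ 0]
      refine Ex_congr (fun W hW => ind_of_not (fun hh => ?_))
      exact notMem_erase a E (hW (hh (mem_insert_self a F)))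
    have e2 : Ex (E.erase a) θ (fun W => ind (insert a F ⊆ insert a W)) =
        Ex (E.erase a) θ (fun W => ind (F ⊆ W)) := by
      refine Ex_congr (fun W _ => ind_congr ?_)
      constructor
      · intro hh x hx
        rcases mem_insert.1 (hh (mem_insert_of_mem hx)) with e | e
        · exact absurd (e ▸ hx) ha
        · exact e
      · exact fun hh => insert_subset_insert a hh
    rw [e1, e2]; ring

end ExBasic

/-! ### The uniform measure on subsets of a given size -/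

section MuBasic
variable {α : Type} [Fintype α]

theorem mu_nonneg (t : ℕ) (P : Finset α → Prop) : 0 ≤ mu α t P :=
  div_nonneg (sum_nonneg (fun _ _ => ind_nonneg _)) (Nat.cast_nonneg _)

theorem mu_mono {t : ℕ} {P Q : Finset α → Prop} (h : ∀ A, A.card = t → P A → Q A) :
    mu α t P ≤ mu α t Q :=
  div_le_div_of_nonneg_right
    (sum_le_sum (fun A hA => ind_mono (h A (mem_powersetCard.1 hA).2))) (Nat.cast_nonneg _)

theorem mu_le_sum {ι : Type} {t : ℕ} {P : Finset α → Prop} (I : Finset ι)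
    (Q : ι → Finset α → Prop) (c : ℝ) (hc : 0 < c)
    (h : ∀ A, A.card = t → P A → ∃ J ⊆ I, c ≤ (J.card : ℝ) ∧ ∀ i ∈ J, Q i A) :
    mu α t P ≤ (∑ i ∈ I, mu α t (Q i)) / c := by
  unfold mu
  rw [← sum_div, sum_comm, div_right_comm]
  refine div_le_div_of_nonneg_right ?_ (Nat.cast_nonneg _)
  rw [sum_div]
  refine sum_le_sum (fun A hA => ?_)
  by_cases hP : P A
  · obtain ⟨J, hJ, hc', hQ⟩ := h A (mem_powersetCard.1 hA).2 hP
    rw [ind_of hP, le_div_iff₀ hc, one_mul]
    calc c ≤ (J.card : ℝ) := hc'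
      _ = ∑ i ∈ J, ind (Q i A) := by
          rw [sum_congr rfl (fun i hi => ind_of (hQ i hi))]; simp
      _ ≤ ∑ i ∈ I, ind (Q i A) :=
          sum_le_sum_of_subset_of_nonneg hJ (fun _ _ _ => ind_nonneg _)
  · rw [ind_of_not hP]
    exact div_nonneg (sum_nonneg (fun _ _ => ind_nonneg _)) hc.le

/-- union bound. -/
theorem mu_union {ι : Type} {t : ℕ} {P : Finset α → Prop} (I : Finset ι)
    (Q : ι → Finset α → Prop) (h : ∀ A, A.card = t → P A → ∃ i ∈ I, Q i A) :
    mu α t P ≤ ∑ i ∈ I, mu α t (Q i) := by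
  have := mu_le_sum (P := P) I Q 1 one_pos (fun A hA hP => by
    obtain ⟨i, hi, hQ⟩ := h A hA hP
    exact ⟨{i}, by simpa using hi, by simp, by simpa using hQ⟩)
  simpa using this

/-- union bound with a uniform estimate. -/
theorem mu_union_le {ι : Type} {t : ℕ} {P : Finset α → Prop} (I : Finset ι)
    (Q : ι → Finset α → Prop) (c : ℝ) (h : ∀ A, A.card = t → P A → ∃ i ∈ I, Q i A)
    (hc : ∀ i ∈ I, mu α t (Q i) ≤ c) : mu α t P ≤ I.card * c := by
  refine (mu_union I Q h).trans ((sum_le_sum hc).trans ?_)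
  simp

theorem mu_or {t : ℕ} {P Q R : Finset α → Prop} (h : ∀ A, A.card = t → P A → Q A ∨ R A) :
    mu α t P ≤ mu α t Q + mu α t R := by
  have := mu_union (P := P) (univ : Finset Bool) (fun b => if b then Q else R)
    (fun A hA hP => by
      rcases h A hA hP with h1 | h1
      · exact ⟨true, mem_univ _, by simpa using h1⟩
      · exact ⟨false, mem_univ _, by simpa using h1⟩)
  simpa using this

theorem mu_eq_zero {t : ℕ} {P : Finset α → Prop} (h : ∀ A, A.card = t → ¬ P A) :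
    mu α t P = 0 := by
  have := mu_union (P := P) (∅ : Finset Unit) (fun _ => P)
    (fun A hA hP => absurd hP (h A hA))
  exact le_antisymm (by simpa using this) (mu_nonneg t P)

end MuBasic

/-! ### Cells -/

theorem card_torus (n : ℕ) [NeZero n] : Fintype.card (Torus n) = n ^ 2 := by
  simp [Torus, ZMod.card, sq]

theorem toTorus_lift {n : ℕ} [NeZero n] (x : Torus n) : toTorus n (lift x) = x := by
  simp [toTorus, lift]

theorem lift_injective {n : ℕ} [NeZero n] : Function.Injective (lift : Torus n → Pt) :=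
  fun x y h => by rw [← toTorus_lift x, h, toTorus_lift]

theorem lift_bounds {n : ℕ} [NeZero n] (x : Torus n) :
    0 ≤ (lift x).1 ∧ (lift x).1 < n ∧ 0 ≤ (lift x).2 ∧ (lift x).2 < n := by
  have h1 := ZMod.val_lt x.1
  have h2 := ZMod.val_lt x.2
  simp only [lift]; omega

theorem lift_toTorus {n : ℕ} [NeZero n] {y : Pt} (h1 : 0 ≤ y.1) (h2 : y.1 < n) (h3 : 0 ≤ y.2)
    (h4 : y.2 < n) : lift (toTorus n y) = y := by
  apply Prod.ext
  · simp only [lift, toTorus]
    rw [ZMod.val_intCast, Int.emod_eq_of_lt h1 h2]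
  · simp only [lift, toTorus]
    rw [ZMod.val_intCast, Int.emod_eq_of_lt h3 h4]

/-- adding a short vector does not wrap around. -/
theorem lift_add {n : ℕ} [NeZero n] (x : Torus n) (z : Pt) (h1 : 0 ≤ (lift x).1 + z.1)
    (h2 : (lift x).1 + z.1 < n) (h3 : 0 ≤ (lift x).2 + z.2) (h4 : (lift x).2 + z.2 < n) :
    lift (x + toTorus n z) = lift x + z := by
  conv_lhs => rw [← toTorus_lift x, ← toTorus_add]
  exact lift_toTorus h1 h2 h3 h4

theorem mem_cell_iff {n : ℕ} [NeZero n] {g f ρ : ℕ} {b : ℕ × ℕ} {x : Torus n} :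
    x ∈ cell n g f ρ b ↔ Near (ctr g f ρ b) ρ (lift x) := by
  simp only [cell, mem_filter, mem_univ, true_and, Near, ctr, lift]
  omega

theorem mem_cellIdx {n g : ℕ} {b : ℕ × ℕ} : b ∈ cellIdx n g ↔ b.1 < n / g ∧ b.2 < n / g := by
  simp [cellIdx]

theorem card_cellIdx (n g : ℕ) : (cellIdx n g).card = (n / g) ^ 2 := by
  simp [cellIdx, sq]

theorem cellIdx_le {n g : ℕ} {b : ℕ × ℕ} (hb : b ∈ cellIdx n g) :
    g * b.1 + g ≤ n ∧ g * b.2 + g ≤ n := by
  obtain ⟨h1, h2⟩ := mem_cellIdx.1 hb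
  have h3 := Nat.mul_div_le n g
  have h4 : g * (b.1 + 1) ≤ g * (n / g) := Nat.mul_le_mul_left g h1
  have h5 : g * (b.2 + 1) ≤ g * (n / g) := Nat.mul_le_mul_left g h2
  rw [Nat.mul_succ] at h4 h5
  omega

theorem mem_block_iff {n : ℕ} [NeZero n] {g : ℕ} (hg : 0 < g) {b : ℕ × ℕ} {x : Torus n} :
    x ∈ block n g b ↔ InBox (((g * b.1 : ℕ) : ℤ), ((g * b.2 : ℕ) : ℤ)) g (lift x) := by
  simp only [block, mem_filter, mem_univ, true_and, InBox, lift]
  rw [Nat.div_eq_iff hg, Nat.div_eq_iff hg, mul_comm b.1, mul_comm b.2]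
  omega

/-- points near the centre of a cell are their own representatives. -/
theorem lift_near_ctr {n : ℕ} [NeZero n] {g f ρ : ℕ} (hg : 2 * f + 2 * ρ + 1 ≤ g) {b : ℕ × ℕ}
    (hb : b ∈ cellIdx n g) {y : Pt} (hy : Near (ctr g f ρ b) (f + ρ) y) :
    lift (toTorus n y) = y := by
  obtain ⟨h1, h2⟩ := cellIdx_le hb
  simp only [Near, ctr] at hy
  apply lift_toTorus <;> omega

theorem toTorus_mem_cell {n : ℕ} [NeZero n] {g f ρ : ℕ} (hg : 2 * f + 2 * ρ + 1 ≤ g) {b : ℕ × ℕ}
    (hb : b ∈ cellIdx n g) {y : Pt} (hy : Near (ctr g f ρ b) ρ y) :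
    toTorus n y ∈ cell n g f ρ b := by
  rw [mem_cell_iff, lift_near_ctr hg hb]
  · exact hy
  · simp only [Near] at hy ⊢; omega

theorem toTorus_mem_block {n : ℕ} [NeZero n] {g f ρ : ℕ} (hg : 2 * f + 2 * ρ + 1 ≤ g)
    {b : ℕ × ℕ} (hb : b ∈ cellIdx n g) {y : Pt} (hy : Near (ctr g f ρ b) (f + ρ) y) :
    toTorus n y ∈ block n g b := by
  rw [mem_block_iff (by omega), lift_near_ctr hg hb hy]
  simp only [Near, ctr, InBox] at hy ⊢; omega

theorem cell_subset_block {n : ℕ} [NeZero n] {g f ρ : ℕ} (hg : 2 * f + 2 * ρ + 1 ≤ g)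
    (b : ℕ × ℕ) : cell n g f ρ b ⊆ block n g b := by
  intro x hx
  rw [mem_block_iff (by omega)]
  rw [mem_cell_iff] at hx
  simp only [Near, ctr, InBox] at hx ⊢; omega

theorem block_unique {n : ℕ} [NeZero n] {g : ℕ} {b b' : ℕ × ℕ} {x : Torus n}
    (h : x ∈ block n g b) (h' : x ∈ block n g b') : b = b' := by
  simp only [block, mem_filter, mem_univ, true_and] at h h'
  exact Prod.ext (h.1.symm.trans h'.1) (h.2.symm.trans h'.2)

theorem cell_disj {n : ℕ} [NeZero n] {g f ρ : ℕ} (hg : 2 * f + 2 * ρ + 1 ≤ g) {b b' : ℕ × ℕ}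
    (h : b ≠ b') : Disjoint (cell n g f ρ b) (cell n g f ρ b') :=
  disjoint_left.2 (fun _ hx hx' =>
    h (block_unique (cell_subset_block hg b hx) (cell_subset_block hg b' hx')))

/-- the square of radius `R` around `x` as a finite set. -/
noncomputable def nearF (x : Pt) (R : ℕ) : Finset Pt := Icc (x.1 - R) (x.1 + R) ×ˢ Icc (x.2 - R) (x.2 + R)

theorem mem_nearF {x y : Pt} {R : ℕ} : y ∈ nearF x R ↔ Near x R y := by
  simp only [nearF, mem_product, mem_Icc, Near]; tauto

theorem card_nearF (x : Pt) (R : ℕ) : (nearF x R).card = (2 * R + 1) ^ 2 := by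
  simp only [nearF, card_product, Int.card_Icc]
  have e1 : (x.1 + R + 1 - (x.1 - R)).toNat = 2 * R + 1 := by omega
  have e2 : (x.2 + R + 1 - (x.2 - R)).toNat = 2 * R + 1 := by omega
  rw [e1, e2, sq]

/-- the square of side `C` at `p` as a finite set. -/
noncomputable def boxF (p : Pt) (C : ℕ) : Finset Pt := Ico p.1 (p.1 + C) ×ˢ Ico p.2 (p.2 + C)

theorem mem_boxF {p y : Pt} {C : ℕ} : y ∈ boxF p C ↔ InBox p C y := by
  simp only [boxF, mem_product, mem_Ico, InBox]; tauto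

theorem card_boxF (p : Pt) (C : ℕ) : (boxF p C).card = C ^ 2 := by
  simp [boxF, sq]

theorem cell_card {n : ℕ} [NeZero n] {g f ρ : ℕ} (hg : 2 * f + 2 * ρ + 1 ≤ g) {b : ℕ × ℕ}
    (hb : b ∈ cellIdx n g) : (cell n g f ρ b).card = (2 * ρ + 1) ^ 2 := by
  rw [← card_nearF (ctr g f ρ b) ρ]
  refine card_bij (fun x _ => lift x) (fun x hx => mem_nearF.2 (mem_cell_iff.1 hx))
    (fun x _ y _ h => lift_injective h) (fun y hy => ?_)
  have hy' := mem_nearF.1 hy
  refine ⟨toTorus n y, toTorus_mem_cell hg hb hy', lift_near_ctr hg hb ?_⟩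
  simp only [Near] at hy' ⊢; omega

theorem block_card_le {n : ℕ} [NeZero n] {g : ℕ} (hg : 0 < g) (b : ℕ × ℕ) :
    (block n g b).card ≤ g ^ 2 := by
  rw [← card_boxF (((g * b.1 : ℕ) : ℤ), ((g * b.2 : ℕ) : ℤ)) g]
  exact card_le_card_of_injOn lift (fun x hx => mem_coe.2 (mem_boxF.2 ((mem_block_iff hg).1 hx)))
    (fun x _ y _ h => lift_injective h)

theorem outside_mono {n : ℕ} [NeZero n] (g f ρ : ℕ) {A B : Finset (Torus n)} (h : A ⊆ B) :
    outside g f ρ A ⊆ outside g f ρ B := sdiff_subset_sdiff h subset_rfl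

theorem outside_subset {n : ℕ} [NeZero n] (g f ρ : ℕ) (A : Finset (Torus n)) :
    outside g f ρ A ⊆ A := sdiff_subset

theorem LinesT.mono {n U l : ℕ} {A B : Finset (Torus n)} (h : A ⊆ B) (hA : LinesT U l A) :
    LinesT U l B := fun x t ht => by
  obtain ⟨s, hs, hm⟩ := hA x t ht
  exact ⟨s, hs, h hm⟩

theorem LinesT.linesZ {n U l : ℕ} {A : Finset (Torus n)} (hA : LinesT U l A) :
    LinesZ U l (toTorus n ⁻¹' (A : Set (Torus n))) := fun x t ht => by
  obtain ⟨s, hs, hm⟩ := hA (toTorus n x) t ht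
  exact ⟨s, hs, by simpa [toTorus_add] using hm⟩

theorem DenseT.mono {n k j : ℕ} {A B : Finset (Torus n)} (h : A ⊆ B) {x : Torus n}
    (hA : DenseT A k j x) : DenseT B k j x := by
  obtain ⟨F, hF, hz⟩ := hA
  exact ⟨F, hF, fun z hzF => ⟨(hz z hzF).1, h (hz z hzF).2⟩⟩

theorem DenseZ.denseT {n k j : ℕ} {A : Finset (Torus n)} {y : Pt}
    (h : DenseZ (toTorus n ⁻¹' (A : Set (Torus n))) k j y) : DenseT A k j (toTorus n y) := by
  obtain ⟨F, hF, hz⟩ := h
  refine ⟨F.image (fun z => z - y), ?_, ?_⟩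
  · rwa [card_image_of_injective _ sub_left_injective]
  · intro z hzF
    obtain ⟨w, hw, rfl⟩ := mem_image.1 hzF
    obtain ⟨h1, h2⟩ := hz w hw
    refine ⟨?_, ?_⟩
    · simp only [InBox, Prod.fst_sub, Prod.snd_sub, Prod.fst_zero, Prod.snd_zero] at h1 ⊢; omega
    · rw [← toTorus_add, add_sub_cancel]; exact h2

/-- percolation in the plane gives percolation on the torus. -/
theorem clT_eq_univ {n : ℕ} {K : Finset Pt} {r : ℕ} {A : Set (Torus n)} {B : Set Pt}
    (hB : B ⊆ toTorus n ⁻¹' A) (h : clZ K r B = Set.univ) : clT n K r A = Set.univ := by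
  apply Set.eq_univ_of_forall
  intro x
  obtain ⟨y, rfl⟩ := toTorus_surj n x
  have : y ∈ toTorus n ⁻¹' clT n K r A := by
    rw [preimage_clT]; exact clZ_mono hB (h ▸ Set.mem_univ y)
  exact this

/-! ### Scales -/

theorem poly_le_two_pow (C d : ℕ) : ∀ᶠ y : ℕ in atTop, C * y ^ d ≤ 2 ^ y := by
  have h := (isLittleO_pow_const_const_pow_of_one_lt (R := ℝ) d (r := 2) (by norm_num)).bound
    (c := 1 / (C + 1)) (by positivity)
  filter_upwards [h] with y hy
  rw [Real.norm_of_nonneg (by positivity), Real.norm_of_nonneg (by positivity)] at hy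
  have : (C : ℝ) * y ^ d ≤ 2 ^ y := by
    have h1 : (C : ℝ) * (1 / (C + 1)) ≤ 1 := by
      rw [mul_one_div, div_le_one (by positivity)]; linarith
    calc (C : ℝ) * y ^ d ≤ C * (1 / (C + 1) * 2 ^ y) := by gcongr
      _ = (C * (1 / (C + 1))) * 2 ^ y := by ring
      _ ≤ 1 * 2 ^ y := by gcongr
      _ = 2 ^ y := one_mul _
  exact_mod_cast this

theorem poly_le_scale (C d : ℕ) : ∀ᶠ y : ℕ in atTop, ∀ n, Scale y n → C * y ^ d ≤ n := by
  filter_upwards [poly_le_two_pow C d] with y hy n hn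
  refine hy.trans (le_trans (Nat.pow_le_pow_right (by norm_num) ?_) hn.1)
  exact Nat.le_self_pow (by norm_num) y

theorem poly_le_exp (C : ℝ) (d : ℕ) (c : ℝ) (hc : 0 < c) :
    ∀ᶠ y : ℕ in atTop, C * (y : ℝ) ^ d * Real.exp (-(c * y)) ≤ 1 := by
  have h := (isLittleO_pow_const_const_pow_of_one_lt (R := ℝ) d (r := Real.exp c)
    (Real.one_lt_exp_iff.2 hc)).bound (c := 1 / (|C| + 1)) (by positivity)
  filter_upwards [h] with y hy
  rw [Real.norm_of_nonneg (by positivity), Real.norm_of_nonneg (by positivity),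
    ← Real.exp_nat_mul, mul_comm (y : ℝ) c] at hy
  have h1 : |C| * (1 / (|C| + 1)) ≤ 1 := by
    rw [mul_one_div, div_le_one (by positivity)]; linarith
  have h2 : Real.exp (c * y) * Real.exp (-(c * y)) = 1 := by rw [← Real.exp_add]; simp
  calc C * (y : ℝ) ^ d * Real.exp (-(c * y)) ≤ |C| * (y : ℝ) ^ d * Real.exp (-(c * y)) := by
        gcongr; exact le_abs_self C
    _ ≤ |C| * (1 / (|C| + 1) * Real.exp (c * y)) * Real.exp (-(c * y)) := by gcongr
    _ = (|C| * (1 / (|C| + 1))) * (Real.exp (c * y) * Real.exp (-(c * y))) := by ring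
    _ ≤ 1 := by rw [h2, mul_one]; exact h1

/-- every large `n` has a large scale. -/
theorem exists_scale (y₀ : ℕ) : ∀ᶠ n : ℕ in atTop, ∃ y, y₀ ≤ y ∧ Scale y n := by
  filter_upwards [eventually_ge_atTop (2 ^ ((max y₀ 64) ^ 6))] with n hn
  have hle : ∀ y : ℕ, 2 ^ (y ^ 6) ≤ n → y ≤ n := fun y hy =>
    ((Nat.le_self_pow (by norm_num) y).trans (Nat.lt_two_pow_self).le).trans hy
  set y := Nat.findGreatest (fun y => 2 ^ (y ^ 6) ≤ n) n with hy
  have h1 : max y₀ 64 ≤ y := Nat.le_findGreatest (hle _ hn) hn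
  have h2 : 2 ^ (y ^ 6) ≤ n := Nat.findGreatest_spec (P := fun y => 2 ^ (y ^ 6) ≤ n) (hle _ hn) hn
  refine ⟨y, le_trans (le_max_left _ _) h1, h2, ?_⟩
  have h64 : 64 ≤ y := le_trans (le_max_right _ _) h1
  by_contra hc
  have h3 : (y + 1) ^ 6 ≤ y ^ 7 := by
    calc (y + 1) ^ 6 ≤ (2 * y) ^ 6 := Nat.pow_le_pow_left (by omega) 6
      _ = 64 * y ^ 6 := by ring
      _ ≤ y * y ^ 6 := Nat.mul_le_mul_right _ h64
      _ = y ^ 7 := by ring
  have h4 : 2 ^ ((y + 1) ^ 6) ≤ n :=
    (Nat.pow_le_pow_right (by norm_num) h3).trans (not_le.1 hc).le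
  have h5 : y + 1 ≤ y := Nat.le_findGreatest (P := fun y => 2 ^ (y ^ 6) ≤ n) (hle _ h4) h4
  omega

end Pool.Agent.P.MP_9594ac_pr
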