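import Pool.Agent.P.MP_9594ac_pr.Basic

/-! From the definitions of the statement to finite sets and uniform subsets. -/

namespace Pool.Agent.P.MP_9594ac_pr

open Finset Filter

theorem bridge_lattice_finite (K : Set (EuclideanSpace ℝ (Fin 2)))
    (hmax : IsGreatest ((fun k => ‖k‖) '' K) 1) (s : ℝ) (hs : 1 ≤ s) : (lattice K s).Finite := by
  refine Set.Finite.subset (Finset.finite_toSet (Icc (-⌈s⌉) ⌈s⌉ ×ˢ Icc (-⌈s⌉) ⌈s⌉)) ?_
  rintro z ⟨k, hk, h0, h1⟩
  have hn : ‖k‖ ≤ 1 := hmax.2 ⟨k, hk, rfl⟩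
  have key : ∀ (i : Fin 2) (a : ℤ), (a : ℝ) = s * k i → a ∈ Icc (-⌈s⌉) ⌈s⌉ := by
    intro i a ha
    have h2 : |k i| ≤ 1 := le_trans (PiLp.norm_apply_le k i) hn
    have h3 : |(a : ℝ)| ≤ ⌈s⌉ := by
      rw [ha, abs_mul, abs_of_pos (by linarith : 0 < s)]
      exact (mul_le_of_le_one_right (by linarith) h2).trans (Int.le_ceil s)
    have h4 : |a| ≤ ⌈s⌉ := by exact_mod_cast h3
    exact mem_Icc.2 (abs_le.1 h4)
  exact mem_coe.2 (mem_product.2 ⟨key 0 _ h0, key 1 _ h1⟩)

theorem exists_latConv (K : Set (EuclideanSpace ℝ (Fin 2))) (hconv : Convex ℝ K)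
    (hrot : ∀ k ∈ K, ∃ k' ∈ K, k' 0 = -k 1 ∧ k' 1 = k 0)
    (hmax : IsGreatest ((fun k => ‖k‖) '' K) 1) (s : ℝ) (hs : 1 ≤ s)
    (hcrit : (threshold (lattice K s) : ℝ) ≤ ((lattice K s).ncard : ℝ) / 2) :
    ∃ Kf : Finset Pt, (Kf : Set Pt) = lattice K s ∧ LatConv Kf := by
  have hfin := bridge_lattice_finite K hmax s hs
  refine ⟨hfin.toFinset, hfin.coe_toFinset, ?_, ?_, ?_⟩
  · intro z hz
    rw [Set.Finite.mem_toFinset] at hz ⊢
    obtain ⟨k, hk, h0, h1⟩ := hz
    obtain ⟨k', hk', e0, e1⟩ := hrot k hk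
    refine ⟨k', hk', ?_, ?_⟩
    · simp only [rot, Int.cast_neg, e0, h1]; ring
    · simp only [rot, e1, h0]
  · intro p hp q hq u hu α β γ w hD hw
    rw [Set.Finite.mem_toFinset] at hp hq hu ⊢
    obtain ⟨a, ha, a0, a1⟩ := hp
    obtain ⟨b, hb, b0, b1⟩ := hq
    obtain ⟨c, hc, c0, c1⟩ := hu
    have hD' : (0 : ℝ) < (α : ℝ) + β + γ := by exact_mod_cast hD
    have hmem := hconv.sum_mem (t := (univ : Finset (Fin 3)))
      (w := ![α / ((α : ℝ) + β + γ), β / ((α : ℝ) + β + γ), γ / ((α : ℝ) + β + γ)])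
      (z := ![a, b, c])
      (fun i _ => by fin_cases i <;> simp <;> positivity)
      (by simp only [Fin.sum_univ_three]; simp; field_simp)
      (fun i _ => by fin_cases i <;> simpa)
    have w0 : ((α : ℝ) + β + γ) * w.1 = α * p.1 + β * q.1 + γ * u.1 := by
      have := congrArg Prod.fst hw
      simp only [Prod.smul_fst, Prod.fst_add, smul_eq_mul] at this
      exact_mod_cast this
    have w1 : ((α : ℝ) + β + γ) * w.2 = α * p.2 + β * q.2 + γ * u.2 := by
      have := congrArg Prod.snd hw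
      simp only [Prod.smul_snd, Prod.snd_add, smul_eq_mul] at this
      exact_mod_cast this
    refine ⟨_, hmem, ?_, ?_⟩
    · rw [a0, b0, c0] at w0
      simp only [Fin.sum_univ_three]
      simp
      field_simp
      linarith
    · rw [a1, b1, c1] at w1
      simp only [Fin.sum_univ_three]
      simp
      field_simp
      linarith
  · by_contra hcon
    push Not at hcon
    have h1 : (lattice K s).ncard ≤ 1 := by
      rw [← Set.ncard_singleton (0 : Pt)]
      exact Set.ncard_le_ncard (fun z hz => hcon z ((Set.Finite.mem_toFinset _).2 hz))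
    have h2 : 1 ≤ threshold (lattice K s) := Nat.le_add_right _ _
    have h3 : ((lattice K s).ncard : ℝ) ≤ 1 := by exact_mod_cast h1
    have h4 : (1 : ℝ) ≤ threshold (lattice K s) := by exact_mod_cast h2
    linarith

theorem bridge_injOn {K : Finset Pt} {r h : ℕ} (hN : Nice K r h) {n : ℕ} (hn : 2 * h < n)
    (x : Torus n) : Set.InjOn (fun z => x + toTorus n z) (K : Set Pt) := by
  intro z hz w hw e
  have e' : toTorus n z = toTorus n w := add_left_cancel e
  obtain ⟨z1, z2, z3, z4⟩ := hN.bdd z hz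
  obtain ⟨w1, w2, w3, w4⟩ := hN.bdd w hw
  simp only [Prod.fst_zero, Prod.snd_zero] at z1 z2 z3 z4 w1 w2 w3 w4
  have key : ∀ a b : ℤ, (a : ZMod n) = b → |b - a| < n → a = b := by
    intro a b hab hlt
    have := Int.eq_zero_of_abs_lt_dvd ((ZMod.intCast_eq_intCast_iff_dvd_sub a b n).1 hab) hlt
    omega
  have hn' : 2 * (h : ℤ) < n := by exact_mod_cast hn
  exact Prod.ext (key _ _ (congrArg Prod.fst e') (abs_lt.2 ⟨by omega, by omega⟩))
    (key _ _ (congrArg Prod.snd e') (abs_lt.2 ⟨by omega, by omega⟩))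

theorem bridge_mem_step {K : Finset Pt} {r h : ℕ} (hN : Nice K r h) {n : ℕ} (hn : 2 * h < n)
    (A : Set (Torus n)) (x : Torus n) : x ∈ step n (K : Set Pt) r A ↔
      x ∈ A ∨ ∃ F : Finset Pt, F ⊆ K ∧ r ≤ F.card ∧ ∀ z ∈ F, x + toTorus n z ∈ A := by
  classical
  have h1 : ((fun z => x + toTorus n z) '' (K : Set Pt)) ∩ A =
      (fun z => x + toTorus n z) '' (K.filter fun z => x + toTorus n z ∈ A : Finset Pt) := by
    ext y
    simp only [Set.mem_inter_iff, Set.mem_image, mem_coe, mem_filter]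
    constructor
    · rintro ⟨⟨z, hz, rfl⟩, hA⟩
      exact ⟨z, ⟨hz, hA⟩, rfl⟩
    · rintro ⟨z, ⟨hz, hA⟩, rfl⟩
      exact ⟨⟨z, hz, rfl⟩, hA⟩
  have h2 : (((fun z => x + toTorus n z) '' (K : Set Pt)) ∩ A).ncard =
      (K.filter fun z => x + toTorus n z ∈ A).card := by
    rw [h1, Set.InjOn.ncard_image ((bridge_injOn hN hn x).mono (coe_subset.2 (filter_subset _ _))),
      Set.ncard_coe_finset]
  simp only [step, Set.mem_union, Set.mem_ofPred_eq, h2]
  refine or_congr_right ⟨fun h => ⟨_, filter_subset _ _, h, fun z hz => (mem_filter.1 hz).2⟩, ?_⟩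
  rintro ⟨F, hF, hr, hz⟩
  exact hr.trans (card_le_card fun z hzF => mem_filter.2 ⟨hF hzF, hz z hzF⟩)

theorem bootClosure_eq {K : Finset Pt} {r h : ℕ} (hN : Nice K r h) (n : ℕ) [NeZero n]
    (hn : 2 * h < n) (A : Set (Torus n)) :
    bootClosure n (K : Set Pt) r A = clT n K r A := by
  apply Set.Subset.antisymm
  · refine Set.iUnion_subset fun t => ?_
    induction t with
    | zero => exact subset_clT n K r A
    | succ t ih =>
      intro x hx
      rw [Function.iterate_succ_apply', bridge_mem_step hN hn] at hx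
      rcases hx with hx | ⟨F, hF, hr, hz⟩
      · exact ih hx
      · exact clT_closed n K r A x F hF hr fun z hzF => ih (hz z hzF)
  · refine clT_min ?_ (Set.subset_iUnion (fun t => (step n (K : Set Pt) r)^[t] A) 0)
    have hmono : Monotone fun t => (step n (K : Set Pt) r)^[t] A :=
      monotone_nat_of_le_succ fun t => by
        rw [Function.iterate_succ_apply']
        exact Set.subset_union_left
    intro x F hF hr hz
    choose! τ hτ using fun z hzF => Set.mem_iUnion.1 (hz z hzF)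
    refine Set.mem_iUnion.2 ⟨F.sup τ + 1, ?_⟩
    rw [Function.iterate_succ_apply', bridge_mem_step hN hn]
    exact Or.inr ⟨F, hF, hr, fun z hzF => hmono (le_sup hzF) (hτ z hzF)⟩

theorem bridge_mem_infF {n : ℕ} [NeZero n] {σ : Order n} {t : ℕ} {x : Torus n} :
    x ∈ infF σ t ↔ (σ x : ℕ) ≤ t := by simp [infF]

theorem bridge_card_infF {n : ℕ} [NeZero n] (σ : Order n) {t : ℕ} (ht : t ≤ n ^ 2) :
    (infF σ t).card = t := by
  have h : (infF σ t).card = (Icc 1 t).card := by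
    refine card_nbij (fun x => (σ x : ℕ)) (fun x hx => ?_) (fun x _ y _ e => ?_) (fun y hy => ?_)
    · exact mem_coe.2 (mem_Icc.2 ⟨(σ x).2.1, bridge_mem_infF.1 hx⟩)
    · exact σ.injective (Subtype.ext e)
    · obtain ⟨h1, h2⟩ := mem_Icc.1 hy
      exact ⟨σ.symm ⟨y, h1, h2.trans ht⟩, mem_coe.2 (bridge_mem_infF.2 (by simpa using h2)),
        by simp⟩
  simpa using h

theorem bridge_fibre_le {n : ℕ} [NeZero n] (t : ℕ) {A B : Finset (Torus n)}
    (h : A.card = B.card) : (univ.filter fun σ : Order n => infF σ t = B).card ≤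
      (univ.filter fun σ : Order n => infF σ t = A).card := by
  let e : {x // x ∈ A} ≃ {x // x ∈ B} := Finset.equivOfCardEq h
  refine card_le_card_of_injOn (fun σ => e.extendSubtype.trans σ) (fun σ hσ => ?_)
    (fun σ _ τ _ hh => ?_)
  · have h1 : infF σ t = B := (mem_filter.1 hσ).2
    refine mem_coe.2 (mem_filter.2 ⟨mem_univ _, ?_⟩)
    ext x
    rw [bridge_mem_infF, Equiv.trans_apply, ← bridge_mem_infF, h1]
    exact ⟨fun hx => by_contra fun hA => e.extendSubtype_not_mem x hA hx,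
      e.extendSubtype_mem x⟩
  · ext y
    have := congrArg (fun f : Order n => f (e.extendSubtype.symm y)) hh
    simp only [Equiv.trans_apply, Equiv.apply_symm_apply] at this
    rw [this]

theorem bridge_card_eq_sum {α : Type} [Fintype α] (P : α → Prop) :
    (Nat.card {a // P a} : ℝ) = ∑ a, ind (P a) := by
  classical
  rw [Nat.card_eq_fintype_card, Fintype.card_subtype, card_filter]
  push_cast
  refine sum_congr rfl fun a _ => ?_
  by_cases h : P a
  · rw [if_pos h, ind_of h]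
  · rw [if_neg h, ind_of_not h]

theorem bridge_nonempty (n : ℕ) [NeZero n] : Nonempty (Order n) :=
  ⟨Fintype.equivOfCardEq (by rw [card_torus]; simp)⟩

theorem bridge_sum_eq (n : ℕ) [NeZero n] (t : ℕ) (ht : t ≤ n ^ 2) : ∃ c : ℝ,
    ∀ f : Finset (Torus n) → ℝ, ∑ σ : Order n, f (infF σ t) =
      c * ∑ A ∈ (univ : Finset (Torus n)).powersetCard t, f A := by
  obtain ⟨σ₀⟩ := bridge_nonempty n
  refine ⟨(univ.filter fun σ : Order n => infF σ t = infF σ₀ t).card, fun f => ?_⟩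
  rw [← sum_fiberwise_of_maps_to (s := univ) (t := (univ : Finset (Torus n)).powersetCard t)
    (g := fun σ : Order n => infF σ t)
    (fun σ _ => mem_powersetCard.2 ⟨subset_univ _, bridge_card_infF σ ht⟩), mul_sum]
  refine sum_congr rfl fun A hA => ?_
  have h1 : A.card = (infF σ₀ t).card := by
    rw [(mem_powersetCard.1 hA).2, bridge_card_infF σ₀ ht]
  rw [sum_congr rfl (g := fun _ => f A) (fun σ hσ => by rw [(mem_filter.1 hσ).2]), sum_const,
    nsmul_eq_mul, le_antisymm (bridge_fibre_le t h1.symm) (bridge_fibre_le t h1)]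

theorem bridge_avg (n : ℕ) [NeZero n] (t : ℕ) (ht : t ≤ n ^ 2) (P : Finset (Torus n) → Prop) :
    (∑ σ : Order n, ind (P (infF σ t))) / (Nat.card (Order n) : ℝ) = mu (Torus n) t P := by
  obtain ⟨c, hc⟩ := bridge_sum_eq n t ht
  have h1 := hc fun _ => 1
  simp only [sum_const, card_univ, nsmul_eq_mul, mul_one, card_powersetCard] at h1
  have := bridge_nonempty n
  have h2 : (Fintype.card (Order n) : ℝ) ≠ 0 := by exact_mod_cast Fintype.card_ne_zero
  have h3 : c ≠ 0 := by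
    rintro rfl
    exact h2 (by simp at h1)
  rw [hc fun A => ind (P A), Nat.card_eq_fintype_card, h1, mu, mul_div_mul_left _ _ h3]

theorem order_prob (n : ℕ) [NeZero n] (t : ℕ) (ht : t ≤ n ^ 2) (P : Finset (Torus n) → Prop) :
    (Nat.card {σ : Order n // P (infF σ t)} : ℝ) / (Nat.card (Order n) : ℝ) =
      mu (Torus n) t P := by
  rw [bridge_card_eq_sum, bridge_avg n t ht]

theorem bridge_infF_mono {n : ℕ} [NeZero n] (σ : Order n) {s t : ℕ} (h : s ≤ t) :
    infF σ s ⊆ infF σ t := fun _ hx => bridge_mem_infF.2 ((bridge_mem_infF.1 hx).trans h)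

theorem bridge_coe_infF {n : ℕ} [NeZero n] (σ : Order n) (t : ℕ) :
    infected σ t = (infF σ t : Set (Torus n)) := by
  ext x; simp [infected, infF]

theorem badProb_le {K : Finset Pt} {r h : ℕ} (hN : Nice K r h) (n : ℕ) [NeZero n]
    (hn : 2 * h < n) (ε : ℝ) (t₀ t₁ : ℕ) (h01 : t₀ ≤ t₁) (h1 : t₁ ≤ n ^ 2)
    (Inc Dec : Finset (Torus n) → Prop)
    (hInc : ∀ A B, A ⊆ B → Inc A → Inc B) (hDec : ∀ A B, A ⊆ B → Dec B → Dec A) :
    badProb (K : Set Pt) r ε n ≤
      mu (Torus n) t₀ (fun A => ε * (n : ℝ) ^ 2 < ((clT n K r (A : Set (Torus n))).ncard : ℝ)) +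
      mu (Torus n) t₀ (fun A => ¬ Inc A) + mu (Torus n) t₁ (fun A => ¬ Dec A) +
      mu (Torus n) t₁ (fun A => Inc A ∧ clT n K r (A : Set (Torus n)) ≠ Set.univ) +
      ∑ t ∈ Icc t₀ t₁, mu (Torus n) t (fun A => Inc A ∧ Dec A ∧
        clT n K r (A : Set (Torus n)) ≠ Set.univ ∧
        ε * (n : ℝ) ^ 2 < ((clT n K r (A : Set (Torus n))).ncard : ℝ)) := by
  have h0 : t₀ ≤ n ^ 2 := h01.trans h1
  rw [← bridge_avg n t₀ h0, ← bridge_avg n t₀ h0, ← bridge_avg n t₁ h1, ← bridge_avg n t₁ h1,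
    ← sum_congr rfl fun t ht => bridge_avg n t ((mem_Icc.1 ht).2.trans h1) _, ← sum_div,
    ← add_div, ← add_div, ← add_div, ← add_div, badProb, bridge_card_eq_sum, sum_comm,
    ← sum_add_distrib, ← sum_add_distrib, ← sum_add_distrib, ← sum_add_distrib]
  refine div_le_div_of_nonneg_right (sum_le_sum fun σ _ => ?_) (Nat.cast_nonneg _)
  set t := percTime (K : Set Pt) r σ - 1 with ht
  have hcl : ∀ u, bootClosure n (K : Set Pt) r (infected σ u) =
      clT n K r (infF σ u : Set (Torus n)) := fun u => by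
    rw [bootClosure_eq hN n hn, bridge_coe_infF]
  rw [hcl]
  have n1 := ind_nonneg (ε * (n : ℝ) ^ 2 < ((clT n K r (infF σ t₀ : Set (Torus n))).ncard : ℝ))
  have n2 := ind_nonneg (¬ Inc (infF σ t₀))
  have n3 := ind_nonneg (¬ Dec (infF σ t₁))
  have n4 := ind_nonneg (Inc (infF σ t₁) ∧ clT n K r (infF σ t₁ : Set (Torus n)) ≠ Set.univ)
  have n5 : 0 ≤ ∑ u ∈ Icc t₀ t₁, ind (Inc (infF σ u) ∧ Dec (infF σ u) ∧
      clT n K r (infF σ u : Set (Torus n)) ≠ Set.univ ∧
      ε * (n : ℝ) ^ 2 < ((clT n K r (infF σ u : Set (Torus n))).ncard : ℝ)) :=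
    sum_nonneg fun u _ => ind_nonneg _
  by_cases hbad : ε * (n : ℝ) ^ 2 < ((clT n K r (infF σ t : Set (Torus n))).ncard : ℝ)
  swap
  · rw [ind_of_not hbad]; linarith
  rw [ind_of hbad]
  rcases le_or_gt t t₀ with htt | htt
  · have h2 : (clT n K r (infF σ t : Set (Torus n))).ncard ≤
        (clT n K r (infF σ t₀ : Set (Torus n))).ncard :=
      Set.ncard_le_ncard (clT_mono (coe_subset.2 (bridge_infF_mono σ htt))) (Set.toFinite _)
    rw [ind_of (hbad.trans_le (by exact_mod_cast h2))]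
    linarith
  by_cases hI : Inc (infF σ t₀)
  swap
  · rw [ind_of hI]; linarith
  by_cases hD : Dec (infF σ t₁)
  swap
  · rw [ind_of hD]; linarith
  by_cases hP : clT n K r (infF σ t₁ : Set (Torus n)) = Set.univ
  swap
  · rw [ind_of (P := _ ∧ _) ⟨hInc _ _ (bridge_infF_mono σ h01) hI, hP⟩]; linarith
  have h2 : percTime (K : Set Pt) r σ ≤ t₁ := Nat.sInf_le (by rw [Set.mem_ofPred_eq, hcl, hP])
  have h3 : clT n K r (infF σ t : Set (Torus n)) ≠ Set.univ := by
    have := Nat.notMem_of_lt_sInf (show t < percTime (K : Set Pt) r σ by omega)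
    rwa [Set.mem_ofPred_eq, hcl] at this
  have h4 : t ≤ t₁ := by omega
  have h5 := single_le_sum (f := fun u => ind (Inc (infF σ u) ∧ Dec (infF σ u) ∧
      clT n K r (infF σ u : Set (Torus n)) ≠ Set.univ ∧
      ε * (n : ℝ) ^ 2 < ((clT n K r (infF σ u : Set (Torus n))).ncard : ℝ)))
    (fun u _ => ind_nonneg _) (mem_Icc.2 ⟨htt.le, h4⟩)
  rw [ind_of ⟨hInc _ _ (bridge_infF_mono σ htt.le) hI, hDec _ _ (bridge_infF_mono σ h4) hD,
    h3, hbad⟩] at h5
  linarith

end Pool.Agent.P.MP_9594ac_pr
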