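import Pool.Agent.P.MP_9594ac_pr.Basic

namespace Pool.Agent.P.MP_9594ac_pr

open Finset Filter

namespace ClassAux

variable {K : Finset Pt}

theorem rot_mem' (hK : LatConv K) {x y : ℤ} (h : (x, y) ∈ K) : (-y, x) ∈ K := hK.rot_mem _ h

theorem neg_mem (hK : LatConv K) {z : Pt} (h : z ∈ K) : -z ∈ K := hK.rot_mem _ (hK.rot_mem _ h)

theorem conv3 (hK : LatConv K) {p q s w : Pt} (hp : p ∈ K) (hq : q ∈ K) (hs : s ∈ K) {α β γ : ℤ}
    (h1 : 0 ≤ α) (h2 : 0 ≤ β) (h3 : 0 ≤ γ) (h4 : 0 < α + β + γ)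
    (e1 : (α + β + γ) * w.1 = α * p.1 + β * q.1 + γ * s.1)
    (e2 : (α + β + γ) * w.2 = α * p.2 + β * q.2 + γ * s.2) : w ∈ K := by
  lift α to ℕ using h1
  lift β to ℕ using h2
  lift γ to ℕ using h3
  refine hK.conv p hp q hq s hs α β γ w (by exact_mod_cast h4) ?_
  ext
  · simpa using e1
  · simpa using e2

theorem zero_mem (hK : LatConv K) : (0 : Pt) ∈ K := by
  obtain ⟨z, hz, -⟩ := hK.nontriv
  refine conv3 hK hz (neg_mem hK hz) hz (α := 1) (β := 1) (γ := 0) (by norm_num) (by norm_num)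
    le_rfl (by norm_num) ?_ ?_ <;> simp

theorem conv2 (hK : LatConv K) {p q w : Pt} (hp : p ∈ K) (hq : q ∈ K) {α β D : ℤ} (hD : 0 < D)
    (h : |α| + |β| ≤ D) (e1 : D * w.1 = α * p.1 + β * q.1) (e2 : D * w.2 = α * p.2 + β * q.2) :
    w ∈ K := by
  have key : ∀ (c : ℤ) (x : Pt), x ∈ K → ∃ y ∈ K, |c| * y.1 = c * x.1 ∧ |c| * y.2 = c * x.2 := by
    intro c x hx
    rcases abs_choice c with hc | hc
    · exact ⟨x, hx, by rw [hc], by rw [hc]⟩
    · exact ⟨-x, neg_mem hK hx, by rw [hc]; simp, by rw [hc]; simp⟩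
  obtain ⟨p', hp', a1, a2⟩ := key α p hp
  obtain ⟨q', hq', b1, b2⟩ := key β q hq
  refine conv3 hK hp' hq' (zero_mem hK) (abs_nonneg α) (abs_nonneg β) (γ := D - |α| - |β|)
    (by linarith) (by linarith) ?_ ?_
  · simp only [Prod.fst_zero]; linear_combination e1 - a1 - b1
  · simp only [Prod.snd_zero]; linear_combination e2 - a2 - b2

theorem sq_pos' {z : Pt} (h : z ≠ 0) : 0 < z.1 ^ 2 + z.2 ^ 2 := by
  by_contra hc
  refine h (Prod.ext ?_ ?_)
  · exact pow_eq_zero_iff (two_ne_zero) |>.1 (by nlinarith [sq_nonneg z.1, sq_nonneg z.2])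
  · exact pow_eq_zero_iff (two_ne_zero) |>.1 (by nlinarith [sq_nonneg z.1, sq_nonneg z.2])

/-- The square spanned by a point of `K` lies in `K`. -/
theorem sq_mem (hK : LatConv K) {z w : Pt} (hz : z ∈ K) (h0 : z ≠ 0)
    (h : |dot w z| + |cross z w| ≤ z.1 ^ 2 + z.2 ^ 2) : w ∈ K := by
  refine conv2 hK hz (hK.rot_mem z hz) (sq_pos' h0) h ?_ ?_
  · simp only [dot, cross, rot]; ring
  · simp only [dot, cross, rot]; ring

theorem abs_le_sq' (x : ℤ) : |x| ≤ x ^ 2 := by
  rcases eq_or_ne x 0 with rfl | h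
  · simp
  · have := Int.one_le_abs h
    nlinarith [sq_abs x]

theorem axis_of_smul (hK : LatConv K) {t : Pt} {j : ℤ} (h0 : t ≠ 0) (h : j • t ∈ K) :
    ((0 : ℤ), j) ∈ K := by
  rcases eq_or_ne j 0 with rfl | hj
  · exact zero_mem hK
  refine sq_mem hK h (smul_ne_zero hj h0) ?_
  have h1 := abs_le_sq' t.1
  have h2 := abs_le_sq' t.2
  have e1 : dot (0, j) (j • t) = j ^ 2 * t.2 := by simp [dot]; ring
  have e2 : cross (j • t) (0, j) = j ^ 2 * t.1 := by simp [cross]; ring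
  rw [e1, e2, abs_mul, abs_mul, abs_of_nonneg (sq_nonneg j)]
  simp only [Prod.smul_fst, Prod.smul_snd, smul_eq_mul]
  nlinarith [sq_nonneg j]

theorem eq_smul {t v z : Pt} (htv : dot t v = 1) (hz : cross z t = 0) : z = dot z v • t := by
  simp only [dot, cross] at *
  ext
  · simp only [Prod.smul_fst, smul_eq_mul]; linear_combination (-z.1) * htv + v.2 * hz
  · simp only [Prod.smul_snd, smul_eq_mul]; linear_combination (-z.2) * htv - v.1 * hz

theorem ne_zero_of_dot {t v : Pt} (htv : dot t v = 1) : t ≠ 0 := by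
  rintro rfl; simp [dot] at htv

theorem line_maps (hK : LatConv K) {t v : Pt} (htv : dot t v = 1) :
    Set.MapsTo (fun z : Pt => (((0 : ℤ), dot z v) : Pt)) (K.filter fun z => cross z t = 0 : Finset Pt)
      (K.filter fun z => z.1 = 0 : Finset Pt) := by
  intro z hz
  obtain ⟨h1, h2⟩ := mem_filter.1 (mem_coe.1 hz)
  refine mem_coe.2 (mem_filter.2 ⟨axis_of_smul hK (ne_zero_of_dot htv) ?_, rfl⟩)
  rwa [← eq_smul htv h2]

theorem line_inj {t v : Pt} (htv : dot t v = 1) :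
    Set.InjOn (fun z : Pt => (((0 : ℤ), dot z v) : Pt))
      (K.filter fun z => cross z t = 0 : Finset Pt) := by
  intro z hz z' hz' h
  have h1 : dot z v = dot z' v := congrArg Prod.snd h
  rw [eq_smul htv (mem_filter.1 (mem_coe.1 hz)).2, eq_smul htv (mem_filter.1 (mem_coe.1 hz')).2, h1]

theorem line_le (hK : LatConv K) {t v : Pt} (htv : dot t v = 1) :
    (K.filter fun z => cross z t = 0).card ≤ (K.filter fun z => z.1 = 0).card :=
  card_le_card_of_injOn _ (line_maps hK htv) (line_inj htv)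

theorem line_full (hK : LatConv K) {t v : Pt} (htv : dot t v = 1)
    (h : (K.filter fun z => z.1 = 0).card ≤ (K.filter fun z => cross z t = 0).card) {j : ℤ}
    (hj : ((0 : ℤ), j) ∈ K) : j • t ∈ K := by
  obtain ⟨z, hz, e⟩ := surjOn_of_injOn_of_card_le _ (line_maps hK htv) (line_inj htv) h
    (mem_coe.2 (mem_filter.2 ⟨hj, rfl⟩))
  obtain ⟨h1, h2⟩ := mem_filter.1 (mem_coe.1 hz)
  have h3 : dot z v = j := congrArg Prod.snd e
  rw [← h3, ← eq_smul htv h2]
  exact h1

open Classical in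
theorem two_mul_below (hK : LatConv K) (f : Pt → ℝ) (hf : ∀ z, f (-z) = -f z) :
    2 * (K.filter fun z => f z < 0).card + (K.filter fun z => f z = 0).card = K.card := by
  have h1 : (K.filter fun z => 0 < f z).card = (K.filter fun z => f z < 0).card := by
    refine card_bij' (fun z _ => -z) (fun z _ => -z) ?_ ?_ ?_ ?_
    · intro z hz
      obtain ⟨a, b⟩ := mem_filter.1 hz
      exact mem_filter.2 ⟨neg_mem hK a, by rw [hf]; linarith⟩
    · intro z hz
      obtain ⟨a, b⟩ := mem_filter.1 hz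
      exact mem_filter.2 ⟨neg_mem hK a, by rw [hf]; linarith⟩
    · simp
    · simp
  have h2 := card_filter_add_card_filter_not (s := K) (fun z => f z < 0)
  have h3 := card_filter_add_card_filter_not (s := K.filter fun z => ¬ f z < 0) (fun z => f z = 0)
  rw [filter_filter, filter_filter] at h3
  have h4 : (K.filter fun z => ¬ f z < 0 ∧ f z = 0) = K.filter fun z => f z = 0 :=
    filter_congr fun z _ => ⟨fun h => h.2, fun h => ⟨by rw [h]; exact lt_irrefl _, h⟩⟩
  have h5 : (K.filter fun z => ¬ f z < 0 ∧ ¬ f z = 0) = K.filter fun z => 0 < f z :=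
    filter_congr fun z _ => ⟨fun h => lt_of_le_of_ne (not_lt.1 h.1) (Ne.symm h.2),
      fun h => ⟨not_lt.2 h.le, h.ne'⟩⟩
  rw [h4, h5] at h3
  omega

theorem two_mul_below_int (hK : LatConv K) (u : Pt) :
    2 * (below K u).card + (K.filter fun z => cross z (rot u) = 0).card = K.card := by
  have h := two_mul_below hK (fun z => (dot z u : ℝ)) (fun z => by simp [dot]; ring)
  have e : ∀ z, cross z (rot u) = dot z u := fun z => by simp [cross, rot, dot]
  simp only [e]
  convert h using 3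
  · unfold below
    congr 1
    ext z
    simp
  · ext z
    simp

theorem two_mul_axis (hK : LatConv K) :
    2 * (below K (1, 0)).card + (K.filter fun z => z.1 = 0).card = K.card := by
  simpa [cross, rot] using two_mul_below_int hK (1, 0)

open Classical in
theorem real_line_le (hK : LatConv K) (u : ℝ × ℝ) (hu : u ≠ 0) :
    (K.filter fun z : Pt => (z.1 : ℝ) * u.1 + (z.2 : ℝ) * u.2 = 0).card ≤
      (K.filter fun z => z.1 = 0).card := by
  by_cases h : ∃ z : Pt, z ≠ 0 ∧ (z.1 : ℝ) * u.1 + (z.2 : ℝ) * u.2 = 0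
  · obtain ⟨z, hz, hz0⟩ := h
    have hg : 0 < Int.gcd z.1 z.2 := by
      refine Int.gcd_pos_iff.2 ?_
      by_contra hc
      push Not at hc
      exact hz (Prod.ext hc.1 hc.2)
    obtain ⟨g, m, n, hg0, hmn, e1, e2⟩ := Int.exists_gcd_one' hg
    obtain ⟨x, y, hxy⟩ := Int.isCoprime_iff_gcd_eq_one.2 hmn
    refine le_trans (card_le_card fun w hw => ?_)
      (line_le hK (t := (m, n)) (v := (x, y)) (by simp only [dot]; linear_combination hxy))
    obtain ⟨h1, h2⟩ := mem_filter.1 hw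
    refine mem_filter.2 ⟨h1, ?_⟩
    have h3 : (m : ℝ) * u.1 + n * u.2 = 0 := by
      have hg1 : (g : ℝ) ≠ 0 := by exact_mod_cast hg0.ne'
      rw [e1, e2] at hz0
      push_cast at hz0
      exact mul_left_cancel₀ hg1 (by linear_combination hz0)
    have h4 : ((cross w (m, n) : ℤ) : ℝ) = 0 := by
      by_contra hc
      simp only [cross] at hc
      push_cast at hc
      refine hu (Prod.ext (mul_left_cancel₀ hc ?_) (mul_left_cancel₀ hc ?_))
      · simp only [Prod.fst_zero]; linear_combination (n : ℝ) * h2 - w.2 * h3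
      · simp only [Prod.snd_zero]; linear_combination (w.1 : ℝ) * h3 - m * h2
    exact_mod_cast h4
  · push Not at h
    refine card_le_card fun w hw => ?_
    obtain ⟨h1, h2⟩ := mem_filter.1 hw
    have h3 : w = 0 := by
      by_contra hc
      exact h w hc h2
    exact mem_filter.2 ⟨h1, by rw [h3]; rfl⟩

end ClassAux

open ClassAux

theorem axis_min {K : Finset Pt} (hK : LatConv K) (u : ℝ × ℝ) (hu : u ≠ 0) :
    (below K (1, 0)).card ≤
      {z : ℤ × ℤ | z ∈ (K : Set Pt) ∧ (z.1 : ℝ) * u.1 + (z.2 : ℝ) * u.2 < 0}.ncard := by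
  classical
  have e : {z : ℤ × ℤ | z ∈ (K : Set Pt) ∧ (z.1 : ℝ) * u.1 + (z.2 : ℝ) * u.2 < 0} =
      (K.filter fun z : Pt => (z.1 : ℝ) * u.1 + (z.2 : ℝ) * u.2 < 0 : Finset Pt) := by
    ext z; simp
  rw [e, Set.ncard_coe_finset]
  have h1 := two_mul_below hK (fun z => (z.1 : ℝ) * u.1 + (z.2 : ℝ) * u.2)
    (fun z => by simp; ring)
  have h2 := two_mul_axis hK
  have h3 := real_line_le hK u hu
  beta_reduce at h1
  omega

theorem threshold_eq {K : Finset Pt} (hK : LatConv K) :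
    threshold (K : Set Pt) = (below K (1, 0)).card + 1 := by
  have h1 : (below K (1, 0)).card ∈ {m : ℕ | ∃ u : ℝ × ℝ, u ≠ 0 ∧
      m = {z : ℤ × ℤ | z ∈ (K : Set Pt) ∧ (z.1 : ℝ) * u.1 + (z.2 : ℝ) * u.2 < 0}.ncard} := by
    refine ⟨(1, 0), by simp, ?_⟩
    rw [← Set.ncard_coe_finset]
    congr 1
    ext z
    simp [below, dot]
  rw [threshold, add_comm]
  congr 1
  refine le_antisymm (Nat.sInf_le h1) ?_
  obtain ⟨u, hu, e⟩ := Nat.sInf_mem ⟨_, h1⟩
  rw [e]
  exact axis_min hK u hu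

namespace ClassAux

variable {K : Finset Pt}

theorem low (hK : LatConv K) {u : Pt} (hu : u ≠ 0) :
    (below K (1, 0)).card ≤ (below K u).card := by
  have h := axis_min hK ((u.1 : ℝ), (u.2 : ℝ)) (by
    intro h
    refine hu (Prod.ext ?_ ?_)
    · simpa using congrArg Prod.fst h
    · simpa using congrArg Prod.snd h)
  refine h.trans (le_of_eq ?_)
  rw [← Set.ncard_coe_finset]
  congr 1
  ext z
  simp only [below, dot, Set.mem_ofPred_eq, mem_coe, mem_filter]
  norm_cast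

theorem below_rot (hK : LatConv K) (u : Pt) : (below K (rot u)).card ≤ (below K u).card := by
  refine card_le_card_of_injOn (fun z => -rot z) (fun z hz => ?_) (fun z _ w _ h => ?_)
  · obtain ⟨h1, h2⟩ := mem_filter.1 (mem_coe.1 hz)
    refine mem_coe.2 (mem_filter.2 ⟨neg_mem hK (hK.rot_mem z h1), ?_⟩)
    simp only [dot, rot, Prod.fst_neg, Prod.snd_neg] at h2 ⊢
    linarith
  · simp only [rot, neg_inj, Prod.mk.injEq] at h
    exact Prod.ext h.2 h.1

theorem stable_line (hK : LatConv K) {u v : Pt} (huv : cross u v = 1)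
    (h : (below K u).card < (below K (1, 0)).card + 1) {j : ℤ} (hj : ((0 : ℤ), j) ∈ K) :
    j • rot u ∈ K := by
  refine line_full hK (v := v) (by simp only [dot, rot, cross] at *; linarith) ?_ hj
  have h1 := two_mul_below_int hK u
  have h2 := two_mul_axis hK
  omega

theorem star_ineq (hK : LatConv K) {a : ℤ} (ha : 0 ≤ a) (h : ((0 : ℤ), a + 1) ∉ K) {z : Pt}
    (hz : z ∈ K) (h0 : z ≠ 0) : z.1 ^ 2 + z.2 ^ 2 < (a + 1) * (|z.1| + |z.2|) := by
  by_contra hc
  refine h (sq_mem hK hz h0 ?_)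
  have e1 : dot (0, a + 1) z = (a + 1) * z.2 := by simp [dot]
  have e2 : cross z (0, a + 1) = (a + 1) * z.1 := by simp [cross]; ring
  rw [e1, e2, abs_mul, abs_mul, abs_of_nonneg (by linarith : 0 ≤ a + 1)]
  linarith

theorem axis_ht (hK : LatConv K) {x y j : ℤ} (hz : (x, y) ∈ K) (h0 : 0 ≤ j) (h1 : j ≤ y) :
    ∃ w : ℤ, (w, j) ∈ K := by
  rcases h1.eq_or_lt with rfl | h1
  · exact ⟨x, hz⟩
  have hy : 0 < y := by omega
  refine ⟨x * j / y, sq_mem hK hz (fun h => hy.ne' (congrArg Prod.snd h)) ?_⟩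
  have e1 := Int.mul_ediv_add_emod (x * j) y
  have e2 := Int.emod_nonneg (x * j) hy.ne'
  have e3 := Int.emod_lt_of_pos (x * j) hy
  generalize x * j / y = w at *
  generalize x * j % y = s at *
  have h2 : 0 ≤ w * x ∧ w * x ≤ x ^ 2 := by
    rcases le_total 0 x with hx | hx
    · have h3 : 0 ≤ w := by
        by_contra hc
        nlinarith [mul_nonneg hx h0]
      have h4 : w ≤ x := by
        by_contra hc
        nlinarith [mul_nonneg hx (sub_nonneg.2 h1.le)]
      constructor <;> nlinarith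
    · have h3 : w ≤ 0 := by
        by_contra hc
        nlinarith [mul_nonneg (neg_nonneg.2 hx) h0]
      have h4 : x ≤ w := by
        by_contra hc
        nlinarith [mul_nonneg (neg_nonneg.2 hx) (sub_nonneg.2 h1.le)]
      constructor <;> nlinarith
  have e4 : cross (x, y) (w, j) = s := by simp only [cross]; linarith
  rw [e4, abs_of_nonneg e2, dot, abs_of_nonneg (by nlinarith [mul_nonneg h0 hy.le])]
  nlinarith

theorem box_mem (hK : LatConv K) {a x y : ℤ} (ha : 0 < a) (h : (a, a) ∈ K) (hx : |x| ≤ a)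
    (hy : |y| ≤ a) : (x, y) ∈ K := by
  refine sq_mem hK h (fun h => ha.ne' (congrArg Prod.snd h)) ?_
  have e1 : dot (x, y) (a, a) = a * (x + y) := by simp only [dot]; ring
  have e2 : cross (a, a) (x, y) = a * (y - x) := by simp only [cross]; ring
  rw [e1, e2, abs_mul, abs_mul, abs_of_pos ha]
  have h1 : |x + y| + |y - x| ≤ 2 * a := by
    rw [abs_le] at hx hy
    rcases abs_choice (x + y) with h | h <;> rcases abs_choice (y - x) with h' | h' <;> omega
  nlinarith

theorem diag_bound (hK : LatConv K) {a x y : ℤ} (ha : 0 < a) (h : (a, a) ∈ K)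
    (h' : ((0 : ℤ), a + 1) ∉ K) (hz : (x, y) ∈ K) : x ≤ a + 1 := by
  by_contra hc
  have hx : a + 2 ≤ x := by omega
  by_cases hy : a + 1 ≤ |y|
  · have h1 := star_ineq hK ha.le h' hz (fun h => by
      have : x = 0 := congrArg Prod.fst h
      omega)
    simp only at h1
    rw [abs_of_pos (by omega : 0 < x), ← sq_abs y] at h1
    nlinarith
  · have h1 : |y| ≤ a := by omega
    rw [abs_le] at h1
    have h2 : a ≤ a * (x - a - 1) := by nlinarith
    have h3 : (a, -a) ∈ K := box_mem hK ha h (by rw [abs_of_pos ha]) (by rw [abs_neg, abs_of_pos ha])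
    have h4 : (a + 1, (0 : ℤ)) ∈ K := by
      refine conv3 hK hz h h3 (α := 2 * a) (β := a * (x - a - 1) - y) (γ := a * (x - a - 1) + y)
        (by omega) (by omega) (by omega) (by omega) ?_ ?_ <;> ring
    exact h' (by simpa using rot_mem' hK h4)

instance decHt (K : Finset Pt) (u : Pt) (j : ℤ) : Decidable (Ht K u j) :=
  inferInstanceAs (Decidable (∃ z ∈ K, dot z u = j))

/-- The first exceptional neighbourhood. -/
def KA : Finset Pt := {(0, 0), (1, 0), (0, 1), (-1, 0), (0, -1), (1, 1), (-1, 1), (-1, -1), (1, -1),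
  (2, 1), (-1, 2), (-2, -1), (1, -2)}

/-- The second exceptional neighbourhood. -/
def KB : Finset Pt := {(0, 0), (1, 0), (0, 1), (-1, 0), (0, -1), (1, 1), (-1, 1), (-1, -1), (1, -1),
  (1, 2), (-2, 1), (-1, -2), (2, -1)}

theorem small (hK : LatConv K) (h2 : ((0 : ℤ), (2 : ℤ)) ∉ K) {z : Pt} (hz : z ∈ K) :
    z ∈ KA ∨ z ∈ KB := by
  rcases eq_or_ne z 0 with rfl | h0
  · left; decide
  have h1 := star_ineq hK (a := 1) (by norm_num) h2 hz h0
  obtain ⟨x, y⟩ := z
  simp only at h1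
  have hx : |x| ≤ 2 := by nlinarith [sq_abs x, sq_abs y, sq_nonneg (|y| - 1), abs_nonneg x]
  have hy : |y| ≤ 2 := by nlinarith [sq_abs x, sq_abs y, sq_nonneg (|x| - 1), abs_nonneg y]
  obtain ⟨a1, a2⟩ := abs_le.1 hx
  obtain ⟨b1, b2⟩ := abs_le.1 hy
  interval_cases x <;> interval_cases y <;> revert h1 <;> decide

theorem not_both (hK : LatConv K) (h2 : ((0 : ℤ), (2 : ℤ)) ∉ K) (hA : ((2 : ℤ), (1 : ℤ)) ∈ K)
    (hB : ((1 : ℤ), (2 : ℤ)) ∈ K) : False :=
  h2 (conv3 hK (rot_mem' hK hA) hB hB (α := 1) (β := 1) (γ := 0) (by norm_num) (by norm_num)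
    le_rfl (by norm_num) (by norm_num) (by norm_num))

theorem orbit (hK : LatConv K) {z w : Pt} (hz : z ∈ K)
    (h : w = z ∨ w = rot z ∨ w = rot (rot z) ∨ w = rot (rot (rot z))) : w ∈ K := by
  have h1 := hK.rot_mem _ hz
  have h2 := hK.rot_mem _ h1
  have h3 := hK.rot_mem _ h2
  rcases h with rfl | rfl | rfl | rfl <;> assumption

theorem eq_KA (hK : LatConv K) (h2 : ((0 : ℤ), (2 : ℤ)) ∉ K) (hA : ((2 : ℤ), (1 : ℤ)) ∈ K) :
    K = KA := by
  refine Subset.antisymm (fun z hz => ?_) (fun z hz => ?_)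
  · by_contra hc
    have h1 := (small hK h2 hz).resolve_left hc
    refine not_both hK h2 hA (orbit hK hz ?_)
    revert hc
    revert z
    suffices ∀ z ∈ KB, z ∉ KA → ((1 : ℤ), (2 : ℤ)) = z ∨ ((1 : ℤ), (2 : ℤ)) = rot z ∨
      ((1 : ℤ), (2 : ℤ)) = rot (rot z) ∨ ((1 : ℤ), (2 : ℤ)) = rot (rot (rot z)) from
      fun z _ h1 hc => this z h1 hc
    decide
  · refine sq_mem hK hA (by decide) ?_
    revert z
    decide

theorem eq_KB (hK : LatConv K) (h2 : ((0 : ℤ), (2 : ℤ)) ∉ K) (hB : ((1 : ℤ), (2 : ℤ)) ∈ K) :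
    K = KB := by
  refine Subset.antisymm (fun z hz => ?_) (fun z hz => ?_)
  · by_contra hc
    have h1 := (small hK h2 hz).resolve_right hc
    refine not_both hK h2 (orbit hK hz ?_) hB
    revert hc
    revert z
    suffices ∀ z ∈ KA, z ∉ KB → ((2 : ℤ), (1 : ℤ)) = z ∨ ((2 : ℤ), (1 : ℤ)) = rot z ∨
      ((2 : ℤ), (1 : ℤ)) = rot (rot z) ∨ ((2 : ℤ), (1 : ℤ)) = rot (rot (rot z)) from
      fun z _ h1 hc => this z h1 hc
    decide
  · refine sq_mem hK hB (by decide) ?_
    revert z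
    decide

/-- The two height conditions in direction `u`. -/
def Hts (K : Finset Pt) (r : ℕ) (h : ℤ) (u : Pt) : Prop :=
  (∀ j : ℤ, 0 ≤ j → j ≤ (h - 1) * (|u.1| + |u.2|) → Ht K u j) ∧
  ∀ η : ℤ, 1 ≤ η → (∃ z ∈ K, η ≤ dot z u) → Ht K u (η - 1) ∨
      ∀ t : Pt, (t = rot u ∨ t = -rot u) → ∀ F : Finset Pt, F ⊆ K →
        (∀ z ∈ F, z ≠ 0 ∧ z ≠ t ∧ (η + dot z u ≤ 0 ∨ ¬ Ht K u (η + dot z u - 1))) → F.card < r

theorem hts_of_full {r : ℕ} {h M : ℤ} {u : Pt} (h1 : ∀ j, 0 ≤ j → j ≤ M → Ht K u j)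
    (h2 : ∀ z ∈ K, dot z u ≤ M + 1) (h3 : (h - 1) * (|u.1| + |u.2|) ≤ M) : Hts K r h u :=
  ⟨fun j a b => h1 j a (b.trans h3), fun η a ⟨z, hz, b⟩ =>
    Or.inl (h1 _ (by omega) (by have := h2 z hz; omega))⟩

theorem hts_knight {h : ℤ} {u : Pt} (hh : h ≤ 2) (hu : |u.1| + |u.2| = 3)
    (h1 : Ht K u 0 ∧ Ht K u 1 ∧ Ht K u 2 ∧ Ht K u 3) (h2 : ∀ z ∈ K, dot z u ≤ 5)
    (h3 : ∀ t ∈ ({rot u, -rot u} : Finset Pt), (K.filter fun z => z ≠ 0 ∧ z ≠ t ∧
      (5 + dot z u ≤ 0 ∨ ¬ Ht K u (5 + dot z u - 1))).card < (below K (1, 0)).card + 1) :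
    Hts K ((below K (1, 0)).card + 1) h u := by
  obtain ⟨a0, a1, a2, a3⟩ := h1
  refine ⟨fun j b1 b2 => ?_, fun η b1 ⟨z, hz, b2⟩ => ?_⟩
  · rw [hu] at b2
    have : j ≤ 3 := by omega
    interval_cases j <;> assumption
  · have : η ≤ 5 := b2.trans (h2 z hz)
    interval_cases η
    · exact Or.inl a0
    · exact Or.inl a1
    · exact Or.inl a2
    · exact Or.inl a3
    · refine Or.inr fun t ht F hF hF' => lt_of_le_of_lt (card_le_card fun w hw => ?_)
        (h3 t (by simpa using ht))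
      exact mem_filter.2 ⟨hF hw, hF' w hw⟩

theorem hts (hK : LatConv K) {a h : ℤ} (ha : 1 ≤ a) (ha1 : ((0 : ℤ), a + 1) ∉ K)
    (hb : ∀ z ∈ K, z.1 ≤ h) (hh : ∃ y, (h, y) ∈ K) {u : Pt} (hu0 : u ≠ 0) (hu : a • rot u ∈ K) :
    Hts K ((below K (1, 0)).card + 1) h u := by
  have hb' : ∀ z ∈ K, |z.1| ≤ h ∧ |z.2| ≤ h := fun z hz => by
    have h1 := hb _ hz
    have h2 := hb _ (neg_mem hK hz)
    have h3 := hb _ (hK.rot_mem _ hz)
    have h4 := hb _ (neg_mem hK (hK.rot_mem _ hz))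
    simp only [rot, Prod.fst_neg] at h2 h3 h4
    rw [abs_le, abs_le]
    omega
  obtain ⟨y₀, hy₀⟩ := hh
  obtain ⟨p, q⟩ := u
  have hs : a * (p ^ 2 + q ^ 2) < (a + 1) * (|p| + |q|) := by
    have h0 : a • rot (p, q) ≠ 0 := by
      refine smul_ne_zero (by omega) fun h => hu0 ?_
      simp only [rot, Prod.mk_eq_zero, neg_eq_zero] at h ⊢
      exact h.symm
    have h1 := star_ineq hK (by omega) ha1 hu h0
    simp only [rot, Prod.smul_mk, smul_eq_mul, abs_mul, abs_neg, abs_of_pos (by omega : 0 < a)] at h1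
    refine lt_of_mul_lt_mul_left (a := a) ?_ (by omega)
    linarith
  have hs2 : p ^ 2 + q ^ 2 < 2 * (|p| + |q|) := by
    refine lt_of_mul_lt_mul_left (a := a) ?_ (by omega)
    nlinarith [abs_nonneg p, abs_nonneg q]
  have hp : |p| ≤ 2 := by nlinarith [sq_abs p, sq_abs q, sq_nonneg (|q| - 1), abs_nonneg p]
  have hq : |q| ≤ 2 := by nlinarith [sq_abs p, sq_abs q, sq_nonneg (|p| - 1), abs_nonneg q]
  have hcase : |p| + |q| = 1 ∨ (|p| = 1 ∧ |q| = 1) ∨ (|p| + |q| = 3 ∧ p ^ 2 + q ^ 2 = 5) := by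
    obtain ⟨a1, a2⟩ := abs_le.1 hp
    obtain ⟨b1, b2⟩ := abs_le.1 hq
    interval_cases p <;> interval_cases q <;> revert hs2 <;> decide
  rcases hcase with hc | hc | hc
  · refine hts_of_full (M := h) (fun j b1 b2 => ?_) (fun z hz => ?_) (by simp only; rw [hc]; omega)
    · obtain ⟨w, hw⟩ := axis_ht hK (rot_mem' hK hy₀) b1 b2
      have h1 := rot_mem' hK hw
      have h2 := rot_mem' hK h1
      have h3 := rot_mem' hK h2
      have : (p = 1 ∧ q = 0) ∨ (p = -1 ∧ q = 0) ∨ (p = 0 ∧ q = 1) ∨ (p = 0 ∧ q = -1) := by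
        rcases abs_cases p with e | e <;> rcases abs_cases q with e' | e' <;> omega
      rcases this with ⟨rfl, rfl⟩ | ⟨rfl, rfl⟩ | ⟨rfl, rfl⟩ | ⟨rfl, rfl⟩
      · exact ⟨_, h3, by simp [dot]⟩
      · exact ⟨_, h1, by simp [dot]⟩
      · exact ⟨_, hw, by simp [dot]⟩
      · exact ⟨_, h2, by simp [dot]⟩
    · obtain ⟨h1, h2⟩ := hb' z hz
      have h3 := le_abs_self (z.1 * p)
      have h4 := le_abs_self (z.2 * q)
      rw [abs_mul] at h3 h4
      have h5 := mul_le_mul_of_nonneg_right h1 (abs_nonneg p)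
      have h6 := mul_le_mul_of_nonneg_right h2 (abs_nonneg q)
      have h7 : h * |p| + h * |q| = h := by rw [← mul_add, hc, mul_one]
      simp only [dot]
      omega
  · obtain ⟨c1, c2⟩ := hc
    have haa : (a, a) ∈ K := by
      refine orbit hK hu ?_
      rcases (abs_eq (by norm_num)).1 c1 with rfl | rfl <;>
        rcases (abs_eq (by norm_num)).1 c2 with rfl | rfl <;> simp [rot]
    have hha : h ≤ a + 1 := diag_bound hK (by omega) haa ha1 hy₀
    refine hts_of_full (M := 2 * a) (fun j b1 b2 => ?_) (fun z hz => ?_)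
      (by simp only; rw [c1, c2]; omega)
    · refine ⟨(p * (j / 2), q * (j - j / 2)), box_mem hK (by omega) haa ?_ ?_, ?_⟩
      · rw [abs_mul, c1, one_mul, abs_le]; omega
      · rw [abs_mul, c2, one_mul, abs_le]; omega
      · have e1 : p ^ 2 = 1 := by rw [← sq_abs, c1]; norm_num
        have e2 : q ^ 2 = 1 := by rw [← sq_abs, c2]; norm_num
        simp only [dot]
        linear_combination (j / 2) * e1 + (j - j / 2) * e2
    · obtain ⟨h1, h2⟩ := hb' z hz
      have h3 := le_abs_self (z.1 * p)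
      have h4 := le_abs_self (z.2 * q)
      rw [abs_mul, c1] at h3
      rw [abs_mul, c2] at h4
      simp only [dot]
      by_contra hc
      have e1 : |z.1| = a + 1 := by omega
      have e2 : |z.2| = a + 1 := by omega
      have h5 := star_ineq hK (by omega) ha1 hz (fun h => by
        rw [h] at e1
        simp only [Prod.fst_zero, abs_zero] at e1
        omega)
      rw [← sq_abs z.1, ← sq_abs z.2, e1, e2] at h5
      nlinarith
  · obtain ⟨c1, c2⟩ := hc
    rw [c1, c2] at hs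
    obtain rfl : a = 1 := by omega
    rw [one_smul] at hu
    have hh2 : h ≤ 2 := by
      have hA : ∀ z ∈ KA, z.1 ≤ 2 := by decide
      have hB : ∀ z ∈ KB, z.1 ≤ 2 := by decide
      exact (small hK ha1 hy₀).elim (hA _) (hB _)
    obtain ⟨a1, a2⟩ := abs_le.1 hp
    obtain ⟨b1, b2⟩ := abs_le.1 hq
    interval_cases p <;> interval_cases q <;> first
      | exact absurd c1 (by decide)
      | (obtain rfl := eq_KA hK ha1 (orbit hK hu (by decide))
         exact hts_knight hh2 c1 (by decide) (by decide) (by decide))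
      | (obtain rfl := eq_KB hK ha1 (orbit hK hu (by decide))
         exact hts_knight hh2 c1 (by decide) (by decide) (by decide))

end ClassAux

theorem nice_of_latConv {K : Finset Pt} (hK : LatConv K) :
    ∃ h, Nice K ((below K (1, 0)).card + 1) h := by
  have h01 : ((0 : ℤ), (1 : ℤ)) ∈ K := by
    obtain ⟨z, hz, h0⟩ := hK.nontriv
    exact axis_of_smul hK h0 (by rwa [one_smul])
  have h10 : ((1 : ℤ), (0 : ℤ)) ∈ K := by simpa using neg_mem hK (rot_mem' hK h01)
  obtain ⟨z, hz, hmax⟩ := exists_max_image K Prod.fst ⟨_, h10⟩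
  obtain ⟨w, hw, hw'⟩ := exists_max_image (K.filter fun z => z.1 = 0) Prod.snd
    ⟨_, mem_filter.2 ⟨h01, rfl⟩⟩
  obtain ⟨hw1, hw2⟩ := mem_filter.1 hw
  have ha : 1 ≤ w.2 := hw' _ (mem_filter.2 ⟨h01, rfl⟩)
  have ha0 : ((0 : ℤ), w.2) ∈ K := by rw [← hw2]; exact hw1
  have ha1 : ((0 : ℤ), w.2 + 1) ∉ K := fun h => by
    have := hw' _ (mem_filter.2 ⟨h, rfl⟩)
    simp only at this
    omega
  have h1 : 1 ≤ z.1 := hmax _ h10
  obtain ⟨h, hh⟩ : ∃ h : ℕ, z.1 = h := ⟨z.1.toNat, by omega⟩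
  have key : ∀ u v : Pt, cross u v = 1 → (below K u).card < (below K (1, 0)).card + 1 →
      Hts K ((below K (1, 0)).card + 1) h u := fun u v huv hs => by
    refine hts hK ha ha1 (hh ▸ hmax) ⟨z.2, hh ▸ hz⟩ ?_ (stable_line hK huv hs ha0)
    rintro rfl
    simp [cross] at huv
  refine ⟨h, by omega, zero_mem hK, fun y hy => ?_, fun F hF hc => ?_,
    fun u hu => Nat.succ_le_succ (low hK hu), fun u v huv hs => ⟨?_, ?_⟩,
    fun u v huv hs => (key u v huv hs).1, fun u v huv hs => (key u v huv hs).2⟩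
  · have a1 := hmax _ hy
    have a2 := hmax _ (neg_mem hK hy)
    have a3 := hmax _ (hK.rot_mem _ hy)
    have a4 := hmax _ (neg_mem hK (hK.rot_mem _ hy))
    simp only [rot, Prod.fst_neg] at a2 a3 a4
    simp only [Near, Prod.fst_zero, Prod.snd_zero]
    omega
  · have a1 := below_rot hK (1, 0)
    have a2 := below_rot hK (rot (1, 0))
    have a3 := below_rot hK (rot (rot (1, 0)))
    have sub : ∀ u : Pt, (∀ y ∈ F, dot y u < 0) → F.card ≤ (below K u).card := fun u hu =>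
      card_le_card fun y hy => mem_filter.2 ⟨hF hy, hu y hy⟩
    rcases hc with hc | hc | hc | hc
    · have := sub (1, 0) (by simpa [dot] using hc)
      omega
    · have := sub (rot (rot (1, 0))) (by simpa [dot, rot] using hc)
      omega
    · have := sub (rot (1, 0)) (by simpa [dot, rot] using hc)
      omega
    · have := sub (rot (rot (rot (1, 0)))) (by simpa [dot, rot] using hc)
      omega
  · simpa using stable_line hK huv hs h01
  · exact neg_mem hK (by simpa using stable_line hK huv hs h01)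

end Pool.Agent.P.MP_9594ac_pr
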