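import Pool.Agent.P.MP_9594ac_pr.Basic

/-! Sprinkling, a chi-square bound and an exploration argument. -/

namespace Pool.Agent.P.MP_9594ac_pr

open Finset Filter

namespace CoreAux

variable {β : Type} [DecidableEq β]

/-- expectation for the pair (first round, both rounds). -/
noncomputable def E2 (E : Finset β) (θ δ : ℝ) (g : Finset β → Finset β → ℝ) : ℝ :=
  Ex E θ (fun X => Ex E δ (fun Y => g X (X ∪ Y)))

theorem E2_insert {E : Finset β} {b : β} (hb : b ∉ E) (θ δ : ℝ) (g : Finset β → Finset β → ℝ) :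
    E2 (insert b E) θ δ g = θ * E2 E θ δ (fun X' X => g (insert b X') (insert b X)) +
      (1 - θ) * δ * E2 E θ δ (fun X' X => g X' (insert b X)) +
      (1 - θ) * (1 - δ) * E2 E θ δ g := by
  unfold E2
  simp only [Ex_insert hb, insert_union, union_insert, insert_idem, Ex_add, Ex_mul_left]
  ring

theorem E2_snd (E : Finset β) (θ δ : ℝ) (f : Finset β → ℝ) :
    E2 E θ δ (fun _ X => f X) = Ex E (θ + (1 - θ) * δ) f := by
  induction E using Finset.induction_on generalizing f with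
  | empty => simp [E2, Ex_empty]
  | insert b E hb ih =>
    rw [E2_insert hb, Ex_insert hb, ih f, ih fun X => f (insert b X)]
    ring

theorem E2_fst (E : Finset β) (θ δ : ℝ) (f : Finset β → ℝ) :
    E2 E θ δ (fun X _ => f X) = Ex E θ f := by
  simp only [E2, Ex_const]

theorem E2_mono {E : Finset β} {θ δ : ℝ} (h0 : 0 ≤ θ) (h1 : θ ≤ 1) (h2 : 0 ≤ δ) (h3 : δ ≤ 1)
    {g g' : Finset β → Finset β → ℝ} (h : ∀ X' X, X' ⊆ X → X ⊆ E → g X' X ≤ g' X' X) :
    E2 E θ δ g ≤ E2 E θ δ g' :=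
  Ex_mono h0 h1 fun _ hX => Ex_mono h2 h3 fun _ hY =>
    h _ _ subset_union_left (union_subset hX hY)

theorem E2_add (E : Finset β) (θ δ : ℝ) (g g' : Finset β → Finset β → ℝ) :
    E2 E θ δ (fun X' X => g X' X + g' X' X) = E2 E θ δ g + E2 E θ δ g' := by
  simp only [E2, Ex_add]

theorem E2_sub (E : Finset β) (θ δ : ℝ) (g g' : Finset β → Finset β → ℝ) :
    E2 E θ δ (fun X' X => g X' X - g' X' X) = E2 E θ δ g - E2 E θ δ g' := by
  simp only [E2, Ex_sub]

theorem E2_mul (E : Finset β) (θ δ c : ℝ) (g : Finset β → Finset β → ℝ) :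
    E2 E θ δ (fun X' X => c * g X' X) = c * E2 E θ δ g := by
  simp only [E2, Ex_mul_left]

theorem E2_const (E : Finset β) (θ δ c : ℝ) : E2 E θ δ (fun _ _ => c) = c := by
  simp only [E2, Ex_const]

omit [DecidableEq β] in
theorem tv {E : Finset β} {θ θ' q : ℝ} (hθ : 0 < θ) (hθ1 : θ < 1) (hq0 : 0 ≤ q)
    (hq : (1 + (θ - θ') ^ 2 / (θ * (1 - θ))) ^ E.card - 1 ≤ q ^ 2) {f : Finset β → ℝ}
    (h0 : ∀ W, 0 ≤ f W) (h1 : ∀ W, f W ≤ 1) : Ex E θ f - Ex E θ' f ≤ q := by
  have hθ2 : 0 < 1 - θ := sub_pos.2 hθ1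
  set w : Finset β → ℝ := fun W => θ ^ W.card * (1 - θ) ^ (E.card - W.card) with hw
  set w' : Finset β → ℝ := fun W => θ' ^ W.card * (1 - θ') ^ (E.card - W.card) with hw'
  have hpos : ∀ W, 0 < w W := fun W => by positivity
  have e1 : ∑ W ∈ E.powerset, w W = 1 := by
    rw [hw, sum_pow_mul_eq_add_pow]; simp
  have e2 : ∑ W ∈ E.powerset, w' W = 1 := by
    rw [hw', sum_pow_mul_eq_add_pow]; simp
  have e3 : ∑ W ∈ E.powerset, w' W ^ 2 / w W =
      (1 + (θ - θ') ^ 2 / (θ * (1 - θ))) ^ E.card := by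
    have : 1 + (θ - θ') ^ 2 / (θ * (1 - θ)) = θ' ^ 2 / θ + (1 - θ') ^ 2 / (1 - θ) := by
      field_simp; ring
    rw [this, ← sum_pow_mul_eq_add_pow]
    refine sum_congr rfl fun W _ => ?_
    simp only [hw, hw', div_pow, mul_pow, ← pow_mul, mul_comm 2]
    rw [div_mul_div_comm]
  have e4 : ∑ W ∈ E.powerset, (w W - w' W) ^ 2 / w W =
      (1 + (θ - θ') ^ 2 / (θ * (1 - θ))) ^ E.card - 1 := by
    have : ∀ W, (w W - w' W) ^ 2 / w W = w W - 2 * w' W + w' W ^ 2 / w W := fun W => by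
      have := (hpos W).ne'
      field_simp; ring
    simp only [this, sum_add_distrib, sum_sub_distrib, ← mul_sum, e1, e2, e3]
    ring
  have h := sum_sq_le_sum_mul_sum_of_sq_le_mul E.powerset (r := fun W => (w W - w' W) * f W)
    (f := w) (g := fun W => (w W - w' W) ^ 2 / w W) (fun W _ => (hpos W).le)
    (fun W _ => div_nonneg (sq_nonneg _) (hpos W).le) fun W _ => by
      rw [mul_div_cancel₀ _ (hpos W).ne', mul_pow]
      exact mul_le_of_le_one_right (sq_nonneg _) (pow_le_one₀ (h0 W) (h1 W))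
  rw [e1, e4, one_mul] at h
  have e5 : Ex E θ f - Ex E θ' f = ∑ W ∈ E.powerset, (w W - w' W) * f W := by
    unfold Ex
    rw [← sum_sub_distrib]
    exact sum_congr rfl fun W _ => by simp only [hw, hw']; ring
  rw [e5]
  exact (abs_le_of_sq_le_sq' (h.trans hq) hq0).2

theorem local_eq {E : Finset β} {T : Finset β → Finset β}
    (hl : ∀ W, ∀ b ∈ E, b ∉ T W → T (insert b W) = T W) {V Z : Finset β} (h : T V ⊆ Z)
    {X : Finset β} (hX : X ⊆ E \ Z) : T (V ∪ X) = T V := by
  induction X using Finset.induction_on with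
  | empty => rw [union_empty]
  | insert b X _ ih =>
    have h1 := ih ((subset_insert _ _).trans hX)
    obtain ⟨h2, h3⟩ := mem_sdiff.1 (hX (mem_insert_self _ _))
    rw [union_insert, hl _ b h2 fun hb => h3 (h (h1 ▸ hb)), h1]

theorem explore {E : Finset β} {θ δ c : ℝ} (h0 : 0 ≤ θ) (h1 : θ ≤ 1) (h2 : 0 ≤ δ) (h3 : δ ≤ 1)
    {T : Finset β → Finset β} (hE : ∀ W, T W ⊆ E) (hm : ∀ W W', W ⊆ W' → T W ⊆ T W')
    (hl : ∀ W, ∀ b ∈ E, b ∉ T W → T (insert b W) = T W) (Bad : Finset β → Prop) (N : ℕ)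
    (ih : ∀ V Z, V ⊆ Z → Z ⊆ E → Z.card = N →
      Ex (E \ Z) (θ + (1 - θ) * δ) (fun X => ind (Bad (V ∪ X))) ≤ c) (k : ℕ) :
    ∀ V' V Z, V' ⊆ V → V ⊆ Z → Z ⊆ E → Z.card + k = N → Z ⊆ T V → (Z ⊆ T V' ∨ T V' ⊆ Z) →
      E2 (E \ Z) θ δ (fun X' X =>
        ind (Bad (V ∪ X) ∧ (T (V' ∪ X')).card < N ∧ N ≤ (T (V ∪ X)).card)) ≤
      c * E2 (E \ Z) θ δ (fun X' X => ind ((T (V' ∪ X')).card < N ∧ N ≤ (T (V ∪ X)).card)) := by
  have hzero : ∀ V' V Z, (∀ X' X, X' ⊆ X → X ⊆ E \ Z →
      ¬ ((T (V' ∪ X')).card < N ∧ N ≤ (T (V ∪ X)).card)) →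
      E2 (E \ Z) θ δ (fun X' X =>
        ind (Bad (V ∪ X) ∧ (T (V' ∪ X')).card < N ∧ N ≤ (T (V ∪ X)).card)) ≤
      c * E2 (E \ Z) θ δ (fun X' X => ind ((T (V' ∪ X')).card < N ∧ N ≤ (T (V ∪ X)).card)) := by
    intro V' V Z h
    rw [← E2_mul]
    refine E2_mono h0 h1 h2 h3 fun X' X hX' hX => ?_
    rw [ind_of_not (h X' X hX' hX), ind_of_not fun hh => h X' X hX' hX hh.2, mul_zero]
  induction k with
  | zero =>
    intro V' V Z hV' hV hZ hc hZV hor
    by_cases hlt : T V' ⊆ Z ∧ (T V').card < N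
    · calc _ ≤ E2 (E \ Z) θ δ (fun _ X => ind (Bad (V ∪ X))) :=
            E2_mono h0 h1 h2 h3 fun _ _ _ _ => ind_mono And.left
        _ ≤ c := by rw [E2_snd]; exact ih V Z hV hZ hc
        _ = E2 (E \ Z) θ δ (fun _ _ => c) := (E2_const _ _ _ _).symm
        _ ≤ _ := by
            rw [← E2_mul]
            refine E2_mono h0 h1 h2 h3 fun X' X hX' hX => ?_
            rw [ind_of, mul_one]
            rw [local_eq hl hlt.1 (hX'.trans hX)]
            exact ⟨hlt.2, hc ▸ card_le_card (hZV.trans (hm _ _ subset_union_left))⟩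
    · refine hzero V' V Z fun X' X _ _ hh => ?_
      have h4 := card_le_card (hm V' (V' ∪ X') subset_union_left)
      rcases hor with h | h
      · have := card_le_card h
        omega
      · exact hlt ⟨h, by omega⟩
  | succ k ihk =>
    intro V' V Z hV' hV hZ hc hZV hor
    have step : ∀ b, b ∉ Z → b ∈ T V → (insert b Z ⊆ T V' ∨ T V' ⊆ Z) →
        E2 (E \ Z) θ δ (fun X' X =>
          ind (Bad (V ∪ X) ∧ (T (V' ∪ X')).card < N ∧ N ≤ (T (V ∪ X)).card)) ≤
        c * E2 (E \ Z) θ δ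
          (fun X' X => ind ((T (V' ∪ X')).card < N ∧ N ≤ (T (V ∪ X)).card)) := by
      intro b hb hbV hor'
      have hbE : b ∈ E := hE V hbV
      have e : E \ Z = insert b (E \ insert b Z) := by
        rw [sdiff_insert, insert_erase (mem_sdiff.2 ⟨hbE, hb⟩)]
      have hb' : b ∉ E \ insert b Z := by simp
      have hZ' : insert b Z ⊆ E := insert_subset hbE hZ
      have hc' : (insert b Z).card + k = N := by rw [card_insert_of_notMem hb]; omega
      have hT : insert b Z ⊆ T V := insert_subset hbV hZV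
      have hT' : insert b Z ⊆ T (insert b V) := hT.trans (hm _ _ (subset_insert _ _))
      have hor1 : insert b Z ⊆ T V' ∨ T V' ⊆ insert b Z :=
        hor'.imp_right fun h => h.trans (subset_insert _ _)
      have hor2 : insert b Z ⊆ T (insert b V') ∨ T (insert b V') ⊆ insert b Z :=
        hor'.imp (fun h => h.trans (hm _ _ (subset_insert _ _))) fun h => by
          rw [hl V' b hbE fun hh => hb (h hh)]
          exact h.trans (subset_insert _ _)
      have i1 := ihk (insert b V') (insert b V) _ (insert_subset_insert _ hV')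
        (insert_subset_insert _ hV) hZ' hc' hT' hor2
      have i2 := ihk V' (insert b V) _ (hV'.trans (subset_insert _ _))
        (insert_subset_insert _ hV) hZ' hc' hT' hor1
      have i3 := ihk V' V _ hV' (hV.trans (subset_insert _ _)) hZ' hc' hT hor1
      rw [e, E2_insert hb', E2_insert hb']
      simp only [union_insert, ← insert_union]
      have j1 := mul_le_mul_of_nonneg_left i1 h0
      have j2 := mul_le_mul_of_nonneg_left i2 (mul_nonneg (sub_nonneg.2 h1) h2)
      have j3 := mul_le_mul_of_nonneg_left i3 (mul_nonneg (sub_nonneg.2 h1) (sub_nonneg.2 h3))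
      linarith
    by_cases hA : T V' ⊆ Z
    · by_cases hB : T V ⊆ Z
      · refine hzero V' V Z fun X' X _ hX hh => ?_
        rw [local_eq hl hB hX] at hh
        have := card_le_card hB
        omega
      · obtain ⟨b, h4, h5⟩ := not_subset.1 hB
        exact step b h5 h4 (Or.inr hA)
    · obtain ⟨b, h4, h5⟩ := not_subset.1 hA
      exact step b h5 (hm _ _ hV' h4) (Or.inl (insert_subset h4 (hor.resolve_right hA)))

end CoreAux

open CoreAux in
theorem core {β : Type} [DecidableEq β] (θ δ q : ℝ) (hθ : 0 < θ) (hθ1 : θ < 1) (hδ : 0 ≤ δ)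
    (hδθ : δ ≤ θ) (γ G M : ℕ) (hγ : 1 ≤ γ) (hq0 : 0 ≤ q) (hq1 : q ≤ 1)
    (hq : (1 + δ ^ 2 / (θ * (1 - θ))) ^ M - 1 ≤ q ^ 2) (J : ℕ) :
    ∀ (E : Finset β) (η N : ℕ) (T : Finset β → Finset β) (P : Finset β → Prop), E.card ≤ M →
      (∀ W, T W ⊆ E) → (∀ W W', W ⊆ W' → T W ⊆ T W') →
      (∀ W, ∀ b ∈ E, b ∉ T W → T (insert b W) = T W) →
      (∀ W W', W ⊆ W' → P W' → P W) →
      (∀ W, W ⊆ E → P W → ∃ Gd : Finset β, Gd ⊆ E \ W ∧ (∀ b ∈ Gd, ¬ P (insert b W)) ∧
        (T W).card ≤ γ * Gd.card + η) →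
      (2 + γ) ^ J * (η + γ * G) ≤ N →
      Ex E θ (fun W => ind (P W ∧ N ≤ (T W).card)) ≤ J * (1 - δ) ^ G + q ^ J := by
  have hδ1 : 0 < 1 - δ := by linarith
  obtain ⟨θ', h0, h1, h2, hθ'⟩ : ∃ θ' : ℝ, 0 ≤ θ' ∧ θ' ≤ θ ∧ θ - θ' ≤ δ ∧
      θ' + (1 - θ') * δ = θ := by
    refine ⟨(θ - δ) / (1 - δ), div_nonneg (by linarith) hδ1.le, ?_, ?_, ?_⟩
    · rw [div_le_iff₀ hδ1]; nlinarith
    · rw [sub_le_comm, le_div_iff₀ hδ1]; nlinarith
    · field_simp; ring
  have h1' : θ' ≤ 1 := by linarith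
  have h3 : δ ≤ 1 := by linarith
  induction J with
  | zero =>
    intro E η N T P _ _ _ _ _ _ _
    simpa using Ex_le_const hθ.le hθ1.le fun W _ => ind_le_one _
  | succ J ih =>
    intro E η N T P hM hE hm hl hP hG hN
    set N₁ := η + γ * G with hN₁
    have hN' : (2 + γ) ^ J * ((η + γ * N₁) + γ * G) + N₁ ≤ N := by
      refine le_trans ?_ hN
      have : N₁ ≤ (2 + γ) ^ J * N₁ := Nat.le_mul_of_pos_left _ (by positivity)
      rw [pow_succ, add_right_comm η, ← hN₁]
      nlinarith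
    have hrec : ∀ V Z, V ⊆ Z → Z ⊆ E → Z.card = N₁ →
        Ex (E \ Z) (θ' + (1 - θ') * δ) (fun X => ind (P (V ∪ X) ∧ N ≤ (T (V ∪ X)).card)) ≤
          J * (1 - δ) ^ G + q ^ J := by
      intro V Z hV hZ hc
      rw [hθ']
      refine le_trans (Ex_mono hθ.le hθ1.le fun W _ => ind_mono fun h => ⟨h.1, by
          have := le_card_sdiff Z (T (V ∪ W))
          have := h.2
          omega⟩)
        (ih (E \ Z) (η + γ * N₁) (N - N₁) (fun W => T (V ∪ W) \ Z) (fun W => P (V ∪ W))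
          ((card_le_card sdiff_subset).trans hM)
          (fun W => sdiff_subset_sdiff (hE _) subset_rfl)
          (fun W W' h => sdiff_subset_sdiff (hm _ _ (union_subset_union_right h)) subset_rfl)
          (fun W b hb h => ?_) (fun W W' h => hP _ _ (union_subset_union_right h))
          (fun W hW h => ?_) (by omega))
      · obtain ⟨h4, h5⟩ := mem_sdiff.1 hb
        rw [union_insert, hl _ b h4 fun hh => h (mem_sdiff.2 ⟨hh, h5⟩)]
      · obtain ⟨Gd, h4, h5, h6⟩ := hG (V ∪ W)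
          (union_subset (hV.trans hZ) (hW.trans sdiff_subset)) h
        refine ⟨Gd \ Z, fun b hb => ?_, fun b hb => ?_, ?_⟩
        · have h7 := mem_sdiff.1 (h4 (mem_sdiff.1 hb).1)
          exact mem_sdiff.2 ⟨mem_sdiff.2 ⟨h7.1, (mem_sdiff.1 hb).2⟩,
            fun h8 => h7.2 (mem_union_right _ h8)⟩
        · rw [union_insert]; exact h5 b (mem_sdiff.1 hb).1
        · have h7 : Gd.card ≤ (Gd \ Z).card + N₁ := hc ▸ card_le_card_sdiff_add_card
          have h8 := card_le_card (sdiff_subset (s := T (V ∪ W)) (t := Z))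
          have h9 := Nat.mul_le_mul_left γ h7
          rw [mul_add] at h9
          omega
    have hex := explore h0 h1' hδ h3 hE hm hl (fun W => P W ∧ N ≤ (T W).card) N₁ hrec N₁ ∅ ∅ ∅
      subset_rfl subset_rfl (empty_subset _) (by simp) (empty_subset _) (Or.inl (empty_subset _))
    simp only [sdiff_empty, empty_union] at hex
    have hD : E2 E θ' δ (fun X' X => ind ((T X').card < N₁ ∧ N₁ ≤ (T X).card)) ≤ q := by
      calc _ ≤ E2 E θ' δ (fun X' X => ind (N₁ ≤ (T X).card) - ind (N₁ ≤ (T X').card)) := by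
            refine E2_mono h0 h1' hδ h3 fun X' X hX _ => ?_
            have := card_le_card (hm _ _ hX)
            by_cases h4 : N₁ ≤ (T X').card
            · rw [ind_of h4, ind_of (h4.trans this), ind_of_not (by omega), sub_self]
            · rw [ind_of_not h4, sub_zero]; exact ind_mono And.right
        _ ≤ q := by
            rw [E2_sub, E2_snd, E2_fst, hθ']
            refine tv hθ hθ1 hq0 (le_trans ?_ hq) (fun _ => ind_nonneg _) fun _ => ind_le_one _
            have h4 : 0 < θ * (1 - θ) := mul_pos hθ (by linarith)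
            have h5 : (θ - θ') ^ 2 ≤ δ ^ 2 := pow_le_pow_left₀ (by linarith) h2 2
            refine sub_le_sub_right ((pow_le_pow_left₀ (by positivity) ?_ _).trans
              (pow_le_pow_right₀ (le_add_of_nonneg_right (by positivity)) hM)) 1
            gcongr
    have hF : E2 E θ' δ (fun X' X => ind (P X ∧ N₁ ≤ (T X').card)) ≤ (1 - δ) ^ G := by
      refine Ex_le_const h0 h1' fun X' hX' => ?_
      by_cases h4 : P X' ∧ N₁ ≤ (T X').card
      · obtain ⟨Gd, h5, h6, h7⟩ := hG X' hX' h4.1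
        have h8 : G ≤ Gd.card := Nat.le_of_mul_le_mul_left (by omega) hγ
        calc _ ≤ Ex E δ (fun Y => ind (Disjoint Gd Y)) :=
              Ex_mono hδ h3 fun Y _ => ind_mono fun h => disjoint_left.2 fun b hb hb' =>
                h6 b hb (hP _ _ (insert_subset (mem_union_right _ hb') subset_union_left) h.1)
          _ = (1 - δ) ^ Gd.card := Ex_disjoint (h5.trans sdiff_subset) δ
          _ ≤ _ := pow_le_pow_of_le_one hδ1.le (by linarith) h8
      · refine Ex_le_const hδ h3 fun Y _ => ?_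
        refine (ind_of_not fun h => h4 ⟨hP _ _ subset_union_left h.1, h.2⟩).trans_le ?_
        positivity
    have hβ : 0 ≤ J * (1 - δ) ^ G + q ^ J := by positivity
    calc _ = E2 E θ' δ (fun _ X => ind (P X ∧ N ≤ (T X).card)) := by rw [E2_snd, hθ']
      _ ≤ E2 E θ' δ (fun X' X => ind (P X ∧ N₁ ≤ (T X').card) +
            ind ((P X ∧ N ≤ (T X).card) ∧ (T X').card < N₁ ∧ N₁ ≤ (T X).card)) := by
          refine E2_mono h0 h1' hδ h3 fun X' X _ _ => ?_
          by_cases h4 : N₁ ≤ (T X').card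
          · exact le_add_of_le_of_nonneg (ind_mono fun h => ⟨h.1, h4⟩) (ind_nonneg _)
          · exact le_add_of_nonneg_of_le (ind_nonneg _)
              (ind_mono fun h => ⟨h, by omega, by omega⟩)
      _ ≤ (1 - δ) ^ G + (J * (1 - δ) ^ G + q ^ J) * q := by
          rw [E2_add]
          exact add_le_add hF (hex.trans (mul_le_mul_of_nonneg_left hD hβ))
      _ ≤ _ := by
          have : J * (1 - δ) ^ G * q ≤ J * (1 - δ) ^ G :=
            mul_le_of_le_one_right (by positivity) hq1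
          push_cast
          rw [pow_succ]
          linarith

end Pool.Agent.P.MP_9594ac_pr
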