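import Pool.Agent.P.MP_9594ac_pr.Basic

namespace Pool.Agent.P.MP_9594ac_pr

open Finset Filter

/-- Resampling one cell when it is full or empty. -/
noncomputable def fiberT {α : Type} [DecidableEq α] (C : Finset α) (θ : ℝ) (f : Finset α → ℝ)
    (A : Finset α) : ℝ :=
  if C ⊆ A ∨ Disjoint C A then θ * f (A ∪ C) + (1 - θ) * f (A \ C) else f A

theorem fiber_one {α : Type} [Fintype α] [DecidableEq α] (C : Finset α) (hC : C.Nonempty) (p : ℝ)
    (hp : 0 < p) (hp1 : p < 1) (f : Finset α → ℝ) :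
    Ex univ p (fiberT C (p ^ C.card / (p ^ C.card + (1 - p) ^ C.card)) f) = Ex univ p f := by
  rw [← sdiff_union_of_subset (subset_univ C), Ex_union sdiff_disjoint, Ex_union sdiff_disjoint]
  refine Ex_congr fun W₁ hW₁ => ?_
  have hd : Disjoint W₁ C := sdiff_disjoint.mono_left hW₁
  rw [← sub_eq_zero, ← Ex_sub, Ex, sum_eq_add_of_mem C ∅ (mem_powerset_self C) (empty_mem_powerset C)
    hC.ne_empty]
  · have e1 : (W₁ ∪ C) \ C = W₁ := by rw [union_sdiff_right, sdiff_eq_self_of_disjoint hd]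
    have hq : 0 < 1 - p := by linarith
    simp only [fiberT, union_empty, if_pos (Or.inl subset_union_right), if_pos (Or.inr hd.symm),
      union_assoc, union_self, e1, sdiff_eq_self_of_disjoint hd, card_empty, Nat.sub_self, pow_zero,
      Nat.sub_zero]
    field_simp
    ring
  · rintro W hW ⟨h1, h2⟩
    rw [mem_powerset] at hW
    rw [fiberT, if_neg, sub_self, mul_zero]
    rintro (h | h)
    · exact h1 (Subset.antisymm hW (hd.symm.left_le_of_le_sup_left h))
    · exact h2 ((disjoint_self_iff_empty W).1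
        ((h.mono_right subset_union_right).mono_left hW))

theorem fiber {α β : Type} [Fintype α] [DecidableEq α] [DecidableEq β] (I : Finset β)
    (c : β → Finset α) (k : ℕ) (hk : 1 ≤ k) (hcard : ∀ b ∈ I, (c b).card = k)
    (hdisj : ∀ b ∈ I, ∀ b' ∈ I, b ≠ b' → Disjoint (c b) (c b')) (p : ℝ) (hp : 0 < p) (hp1 : p < 1)
    (f : Finset α → ℝ) (m : ℝ)
    (hf : ∀ B : Finset α, Ex (I.filter (fun b => Disjoint (c b) B)) (p ^ k / (p ^ k + (1 - p) ^ k))
      (fun W => f (B ∪ W.biUnion c)) ≤ m) :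
    Ex univ p f ≤ m := by
  induction I using Finset.induction_on generalizing f with
  | empty =>
    refine Ex_le_const hp.le hp1.le fun B _ => ?_
    simpa [Ex_empty] using hf B
  | insert b I hb ih =>
    have hcb := hcard b (mem_insert_self b I)
    rw [← fiber_one (c b) (card_pos.1 (by omega)) p hp hp1 f, hcb]
    refine ih (fun b' h => hcard b' (mem_insert_of_mem h))
      (fun b' h b'' h' => hdisj b' (mem_insert_of_mem h) b'' (mem_insert_of_mem h')) _ fun B => ?_
    have hd : ∀ b' ∈ I, Disjoint (c b) (c b') := fun b' h =>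
      hdisj b (mem_insert_self b I) b' (mem_insert_of_mem h) (fun e => hb (e ▸ h))
    have hU : ∀ W, W ⊆ I.filter (fun b => Disjoint (c b) B) → Disjoint (c b) (W.biUnion c) :=
      fun W hW => (disjoint_biUnion_right _ _ _).2 fun b' h => hd b' (filter_subset _ _ (hW h))
    by_cases h : c b ⊆ B ∨ Disjoint (c b) B
    · refine le_trans (le_of_eq ?_) (hf (B \ c b))
      have e1 : I.filter (fun b' => Disjoint (c b') (B \ c b)) =
          I.filter (fun b' => Disjoint (c b') B) := by
        refine filter_congr fun b' h' => ⟨fun h1 => ?_, fun h1 => h1.mono_right sdiff_subset⟩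
        exact (disjoint_union_right.2 ⟨h1, (hd b' h').symm⟩).mono_right
          (by rw [sdiff_union_self_eq_union]; exact subset_union_left)
      rw [filter_insert, if_pos disjoint_sdiff, e1,
        Ex_insert (fun h' => hb (filter_subset _ _ h')), ← Ex_mul_left, ← Ex_mul_left, ← Ex_add]
      refine Ex_congr fun W hW => ?_
      rw [fiberT, if_pos (h.imp (fun h1 => h1.trans subset_union_left)
        fun h1 => disjoint_union_right.2 ⟨h1, hU W hW⟩), biUnion_insert, ← union_assoc,
        sdiff_union_self_eq_union, union_right_comm, union_sdiff_distrib,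
        sdiff_eq_self_of_disjoint (hU W hW).symm]
    · refine le_trans (le_of_eq ?_) (hf B)
      rw [filter_insert, if_neg fun h1 => h (Or.inr h1)]
      refine Ex_congr fun W hW => ?_
      rw [fiberT, if_neg]
      rintro (h1 | h1)
      · exact h (Or.inl ((hU W hW).left_le_of_le_sup_right h1))
      · exact h (Or.inr (h1.mono_right subset_union_left))

theorem fiber_none {α β : Type} [DecidableEq α] [DecidableEq β] (J : Finset β)
    (c : β → Finset α) (k : ℕ) (hcard : ∀ b ∈ J, (c b).card = k)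
    (hdisj : ∀ b ∈ J, ∀ b' ∈ J, b ≠ b' → Disjoint (c b) (c b')) (p : ℝ) (E : Finset α)
    (hE : ∀ b ∈ J, c b ⊆ E) :
    Ex E p (fun W => ind (∀ b ∈ J, ¬ c b ⊆ W)) = (1 - p ^ k) ^ J.card := by
  induction J using Finset.induction_on generalizing E with
  | empty => simp [ind_of, Ex_const]
  | insert b J hb ih =>
    have hd : ∀ b' ∈ J, Disjoint (c b') (c b) := fun b' h =>
      hdisj b' (mem_insert_of_mem h) b (mem_insert_self b J) (fun e => hb (e ▸ h))
    rw [← sdiff_union_of_subset (hE b (mem_insert_self b J)), Ex_union sdiff_disjoint,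
      card_insert_of_notMem hb, pow_succ', ← ih (fun b' h => hcard b' (mem_insert_of_mem h))
      (fun b' h b'' h' => hdisj b' (mem_insert_of_mem h) b'' (mem_insert_of_mem h')) (E \ c b)
      (fun b' h => subset_sdiff.2 ⟨hE b' (mem_insert_of_mem h), hd b' h⟩), ← Ex_mul_left]
    refine Ex_congr fun W₁ hW₁ => ?_
    have h1 : Disjoint (c b) W₁ := disjoint_sdiff.mono_right hW₁
    rw [← hcard b (mem_insert_self b J), ← Ex_subset (Subset.refl (c b)) p,
      ← Ex_const (c b) p 1, ← Ex_sub, mul_comm, ← Ex_mul_left]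
    refine Ex_congr fun W₂ hW₂ => ?_
    have e1 : c b ⊆ W₁ ∪ W₂ ↔ c b ⊆ W₂ :=
      ⟨fun h => h1.left_le_of_le_sup_left h, fun h => h.trans subset_union_right⟩
    have e2 : (∀ b' ∈ J, ¬ c b' ⊆ W₁ ∪ W₂) ↔ ∀ b' ∈ J, ¬ c b' ⊆ W₁ :=
      forall₂_congr fun b' h => not_congr
        ⟨fun h' => ((hd b' h).mono_right hW₂).left_le_of_le_sup_right h',
          fun h' => h'.trans subset_union_left⟩
    rw [ind_congr (forall_mem_insert _ _ _), e1, e2]
    by_cases h2 : c b ⊆ W₂
    · rw [ind_of h2, ind_of_not fun h => h.1 h2]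
      ring
    · rw [ind_of_not h2, ind_congr (and_iff_right h2)]
      ring

theorem no_full {α β : Type} [Fintype α] [DecidableEq α] [DecidableEq β] (I : Finset β)
    (c : β → Finset α) (k N : ℕ) (hcard : ∀ b ∈ I, (c b).card = k)
    (hdisj : ∀ b ∈ I, ∀ b' ∈ I, b ≠ b' → Disjoint (c b) (c b')) (p : ℝ) (hp : 0 ≤ p) (hp1 : p ≤ 1)
    (H : β → Finset α → Prop) :
    Ex univ p (fun A => ind ((∃ Gd ⊆ I, N ≤ Gd.card ∧ ∀ b ∈ Gd, H b (A \ I.biUnion c)) ∧
      ∀ b ∈ I, H b (A \ I.biUnion c) → ¬ c b ⊆ A)) ≤ (1 - p ^ k) ^ N := by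
  have h0 : 0 ≤ 1 - p ^ k := sub_nonneg.2 (pow_le_one₀ hp hp1)
  have h1 : 1 - p ^ k ≤ 1 := sub_le_self _ (pow_nonneg hp k)
  rw [← sdiff_union_of_subset (subset_univ (I.biUnion c)), Ex_union sdiff_disjoint]
  refine Ex_le_const hp hp1 fun W₁ hW₁ => ?_
  have e : ∀ W₂, W₂ ⊆ I.biUnion c → (W₁ ∪ W₂) \ I.biUnion c = W₁ := fun W₂ h => by
    rw [union_sdiff_distrib, sdiff_eq_empty_iff_subset.2 h, union_empty,
      sdiff_eq_self_of_disjoint (sdiff_disjoint.mono_left hW₁)]
  by_cases h : ∃ Gd ⊆ I, N ≤ Gd.card ∧ ∀ b ∈ Gd, H b W₁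
  · obtain ⟨Gd, g1, g2, g3⟩ := h
    refine le_trans ?_ (pow_le_pow_of_le_one h0 h1 g2)
    rw [← fiber_none Gd c k (fun b h => hcard b (g1 h)) (fun b h b' h' => hdisj b (g1 h) b' (g1 h'))
      p (I.biUnion c) fun b h => subset_biUnion_of_mem c (g1 h)]
    refine Ex_mono hp hp1 fun W₂ hW₂ => ind_mono ?_
    rw [e W₂ hW₂]
    exact fun h b hb h' => h.2 b (g1 hb) (g3 b hb) (h'.trans subset_union_right)
  · refine Ex_le_const hp hp1 fun W₂ hW₂ => ?_
    rw [e W₂ hW₂, ind_of_not fun h' => h h'.1]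
    exact pow_nonneg h0 N

theorem fiber_mode (m t : ℕ) (ht : t ≤ m) (hm : 0 < m) :
    1 ≤ ((m : ℝ) + 1) * (((t : ℝ) / m) ^ t * (1 - (t : ℝ) / m) ^ (m - t) * m.choose t) := by
  set p : ℝ := (t : ℝ) / m with hp
  have hm' : (0 : ℝ) < m := by exact_mod_cast hm
  have ht' : (t : ℝ) ≤ m := by exact_mod_cast ht
  have hp0 : 0 ≤ p := by positivity
  have hp1 : 0 ≤ 1 - p := sub_nonneg.2 ((div_le_one hm').2 ht')
  have hpm : p * m = t := by rw [hp]; field_simp
  set a : ℕ → ℝ := fun s => p ^ s * (1 - p) ^ (m - s) * m.choose s with ha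
  have step : ∀ s, s < m → ∃ X : ℝ, 0 ≤ X ∧ a s * (s + 1) = X * ((1 - p) * (s + 1)) ∧
      a (s + 1) * (s + 1) = X * (p * (m - s)) := by
    intro s hs
    refine ⟨p ^ s * (1 - p) ^ (m - (s + 1)) * m.choose s, by positivity, ?_, ?_⟩
    · simp only [ha]
      rw [show m - s = m - (s + 1) + 1 by omega]
      ring
    · have h1 : ((m.choose (s + 1) : ℕ) : ℝ) * (s + 1) = m.choose s * ((m : ℝ) - s) := by
        rw [← Nat.cast_sub hs.le]
        exact_mod_cast Nat.choose_succ_right_eq m s
      simp only [ha]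
      rw [mul_assoc, h1]
      ring
  have up : ∀ s, s ≤ t → a s ≤ a t := by
    intro s hs
    induction hs using Nat.decreasingInduction with
    | self => exact le_rfl
    | of_succ s hs ih =>
      refine le_trans ?_ ih
      obtain ⟨X, x0, x1, x2⟩ := step s (by omega)
      refine le_of_mul_le_mul_right (a := (s : ℝ) + 1) ?_ (by positivity)
      rw [x1, x2]
      refine mul_le_mul_of_nonneg_left ?_ x0
      have : (s : ℝ) + 1 ≤ t := by exact_mod_cast hs
      nlinarith
  have down : ∀ s, t ≤ s → s ≤ m → a s ≤ a t := by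
    intro s hs
    induction s, hs using Nat.le_induction with
    | base => exact fun _ => le_rfl
    | succ s hs ih =>
      intro hsm
      refine le_trans ?_ (ih (by omega))
      obtain ⟨X, x0, x1, x2⟩ := step s (by omega)
      refine le_of_mul_le_mul_right (a := (s : ℝ) + 1) ?_ (by positivity)
      rw [x1, x2]
      refine mul_le_mul_of_nonneg_left ?_ x0
      have : (t : ℝ) ≤ s := by exact_mod_cast hs
      nlinarith
  have h1 : ∑ s ∈ range (m + 1), a s = 1 := by
    rw [← add_pow, add_sub_cancel, one_pow]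
  have h2 := sum_le_card_nsmul (range (m + 1)) a (a t) fun s hs => by
    rcases le_total s t with h | h
    · exact up s h
    · exact down s h (Nat.lt_succ_iff.1 (mem_range.1 hs))
  rw [h1, card_range, nsmul_eq_mul] at h2
  exact_mod_cast h2

theorem mu_le_Ex (α : Type) [Fintype α] (t : ℕ) (ht : t ≤ Fintype.card α)
    (hα : 0 < Fintype.card α) (P : Finset α → Prop) :
    mu α t P ≤ ((Fintype.card α : ℝ) + 1) *
      Ex univ ((t : ℝ) / Fintype.card α) (fun A => ind (P A)) := by
  have h := fiber_mode _ t ht hα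
  set m := Fintype.card α with hm
  set p : ℝ := (t : ℝ) / m with hp
  have hm' : (0 : ℝ) < m := by exact_mod_cast hα
  have hp0 : 0 ≤ p := by positivity
  have hp1 : 0 ≤ 1 - p := sub_nonneg.2 ((div_le_one hm').2 (by exact_mod_cast ht))
  have hc : (0 : ℝ) < m.choose t := by exact_mod_cast Nat.choose_pos ht
  set S : ℝ := ∑ A ∈ (univ : Finset α).powersetCard t, ind (P A) with hS
  have hS0 : 0 ≤ S := sum_nonneg fun _ _ => ind_nonneg _
  have h1 : p ^ t * (1 - p) ^ (m - t) * S ≤ Ex univ p (fun A => ind (P A)) := by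
    rw [hS, mul_sum, Ex]
    refine le_trans (le_of_eq (sum_congr rfl fun A hA => ?_))
      (sum_le_sum_of_subset_of_nonneg (s := (univ : Finset α).powersetCard t)
        (fun A _ => mem_powerset.2 (subset_univ A))
        fun A _ _ => mul_nonneg (by positivity) (ind_nonneg _))
    rw [(mem_powersetCard.1 hA).2, card_univ]
  rw [mu, div_le_iff₀ hc]
  calc S ≤ (((m : ℝ) + 1) * (p ^ t * (1 - p) ^ (m - t) * m.choose t)) * S :=
        le_mul_of_one_le_left hS0 h
    _ = ((m : ℝ) + 1) * (p ^ t * (1 - p) ^ (m - t) * S) * m.choose t := by ring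
    _ ≤ _ := by gcongr

end Pool.Agent.P.MP_9594ac_pr
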