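import Pool.Agent.P.MP_9594ac_pr.Basic

/-! Touched blocks and good cells. -/

namespace Pool.Agent.P.MP_9594ac_pr

open Finset Filter

theorem touch_mem {n : ℕ} [NeZero n] {K : Finset Pt} {r g f ρ : ℕ} {B : Finset (Torus n)}
    {W : Finset (ℕ × ℕ)} {b : ℕ × ℕ} : b ∈ touch K r g f ρ B W ↔ b ∈ emptyCells g f ρ B ∧
      ∃ x ∈ block n g b, x ∉ cell n g f ρ b ∧
        x ∈ clT n K r ((fill g f ρ B W : Finset (Torus n)) : Set (Torus n)) := by
  simp only [touch, mem_filter]

theorem touch_mono {n : ℕ} [NeZero n] (K : Finset Pt) (r g f ρ : ℕ) (B : Finset (Torus n))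
    {W W' : Finset (ℕ × ℕ)} (hW : W ⊆ W') : touch K r g f ρ B W ⊆ touch K r g f ρ B W' := by
  intro b hb
  obtain ⟨h1, x, h2, h3, h4⟩ := touch_mem.1 hb
  exact touch_mem.2 ⟨h1, x, h2, h3, clT_mono (coe_subset.2 (union_subset_union_right
    (biUnion_subset_biUnion_of_subset_left _ hW))) h4⟩

theorem touch_closed {K : Finset Pt} {r h : ℕ} (hN : Nice K r h) {n : ℕ} [NeZero n] {g f ρ : ℕ}
    (hg : 2 * f + 2 * ρ + 1 ≤ g) (hf : 2 * h ≤ f) {S : Set (Torus n)} (hS : ClosedT n K r S)
    {b : ℕ × ℕ} (hb : b ∈ cellIdx n g) (hbt : ∀ x ∈ block n g b, x ∈ S → x ∈ cell n g f ρ b) :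
    ClosedT n K r (S ∪ (cell n g f ρ b : Set (Torus n))) := by
  intro x F hF hr hz
  by_cases h0 : ∃ z ∈ F, x + toTorus n z ∈ cell n g f ρ b
  swap
  · push Not at h0
    exact Or.inl (hS x F hF hr fun z hzF => (hz z hzF).resolve_right (h0 z hzF))
  obtain ⟨z₀, hz₀, h1⟩ := h0
  rw [mem_cell_iff] at h1
  obtain ⟨y, hy⟩ : ∃ y, y = lift (x + toTorus n z₀) - z₀ := ⟨_, rfl⟩
  have h2 : lift (x + toTorus n z₀) = y + z₀ := by rw [hy, sub_add_cancel]
  have h3 : toTorus n y = x := by
    have := toTorus_lift (x + toTorus n z₀)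
    rw [h2, toTorus_add] at this
    exact add_right_cancel this
  have h4 := hN.bdd z₀ (hF hz₀)
  rw [h2] at h1
  have h5 : ∀ z ∈ F, Near (ctr g f ρ b) ρ (y + z) := fun z hzF => by
    have h6 := hN.bdd z (hF hzF)
    have h7 : Near (ctr g f ρ b) (f + ρ) (y + z) := by
      simp only [Near, Prod.fst_add, Prod.snd_add, Prod.fst_zero, Prod.snd_zero] at h1 h4 h6 ⊢
      omega
    have h8 := hz z hzF
    rw [← h3, ← toTorus_add] at h8
    have h9 : toTorus n (y + z) ∈ cell n g f ρ b :=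
      h8.elim (hbt _ (toTorus_mem_block hg hb h7)) id
    rwa [mem_cell_iff, lift_near_ctr hg hb h7] at h9
  refine Or.inr ?_
  rw [← h3]
  refine toTorus_mem_cell hg hb ?_
  by_contra hc
  refine absurd hr (not_le.2 (hN.axis F hF ?_))
  simp only [Near, Prod.fst_add, Prod.snd_add] at h5 hc
  by_cases a1 : (ctr g f ρ b).1 - ρ ≤ y.1
  · by_cases a2 : y.1 ≤ (ctr g f ρ b).1 + ρ
    · by_cases a3 : (ctr g f ρ b).2 - ρ ≤ y.2
      · exact Or.inr (Or.inr (Or.inl fun z hzF => by have := h5 z hzF; omega))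
      · exact Or.inr (Or.inr (Or.inr fun z hzF => by have := h5 z hzF; omega))
    · exact Or.inl fun z hzF => by have := h5 z hzF; omega
  · exact Or.inr (Or.inl fun z hzF => by have := h5 z hzF; omega)

theorem touch_local {K : Finset Pt} {r h : ℕ} (hN : Nice K r h) {n : ℕ} [NeZero n] {g f ρ : ℕ}
    (hg : 2 * f + 2 * ρ + 1 ≤ g) (hf : 2 * h ≤ f) (B : Finset (Torus n)) (W : Finset (ℕ × ℕ))
    (b : ℕ × ℕ) (hb : b ∈ emptyCells g f ρ B) (hbt : b ∉ touch K r g f ρ B W) :
    touch K r g f ρ B (insert b W) = touch K r g f ρ B W := by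
  refine Subset.antisymm (fun b' hb' => ?_) (touch_mono K r g f ρ B (subset_insert b W))
  have hcl := touch_closed hN hg hf (clT_closed n K r (fill g f ρ B W : Finset (Torus n)))
    (mem_filter.1 hb).1 fun x hx hS => by
      by_contra hc
      exact hbt (touch_mem.2 ⟨hb, x, hx, hc, hS⟩)
  obtain ⟨h1, x, h2, h3, h4⟩ := touch_mem.1 hb'
  have h5 := clT_min hcl (A := (fill g f ρ B (insert b W) : Finset (Torus n))) (fun w hw => by
    simp only [fill, biUnion_insert, coe_union, Set.mem_union] at hw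
    rcases hw with hw | hw | hw
    · exact Or.inl (subset_clT _ _ _ _ (mem_coe.2 (mem_union_left _ hw)))
    · exact Or.inr hw
    · exact Or.inl (subset_clT _ _ _ _ (mem_coe.2 (mem_union_right _ hw)))) h4
  refine touch_mem.2 ⟨h1, x, h2, h3, h5.resolve_right fun hc => h3 ?_⟩
  rwa [block_unique h2 (cell_subset_block hg b hc)]

theorem touch_card_le {n : ℕ} [NeZero n] (K : Finset Pt) (r g f ρ : ℕ) (B : Finset (Torus n))
    (W : Finset (ℕ × ℕ)) :
    (touch K r g f ρ B W).card ≤
      (clT n K r ((fill g f ρ B W : Finset (Torus n)) : Set (Torus n))).ncard := by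
  rw [← Set.ncard_coe_finset]
  refine le_trans (Set.ncard_le_ncard (fun b hb => ?_) ((Set.toFinite _).image _))
    (Set.ncard_image_le (f := fun x : Torus n => (x.1.val / g, x.2.val / g)) (Set.toFinite _))
  obtain ⟨-, x, h2, -, h4⟩ := touch_mem.1 hb
  exact ⟨x, h4, Prod.ext (mem_filter.1 h2).2.1 (mem_filter.1 h2).2.2⟩

theorem touch_edge {n : ℕ} [NeZero n] (I : Finset ℕ) :
    (univ.filter fun x : Torus n => x.1.val ∈ I ∨ x.2.val ∈ I).card ≤ 2 * I.card * n := by
  have h1 : (univ.filter fun a : ZMod n => a.val ∈ I).card ≤ I.card :=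
    card_le_card_of_injOn ZMod.val (fun a ha => (mem_filter.1 ha).2)
      fun a _ b _ h => ZMod.val_injective n h
  have h2 : (univ.filter fun x : Torus n => x.1.val ∈ I ∨ x.2.val ∈ I) ⊆
      (univ.filter fun a : ZMod n => a.val ∈ I) ×ˢ univ ∪
        univ ×ˢ (univ.filter fun a : ZMod n => a.val ∈ I) := fun x hx => by
    simpa using hx
  refine (card_le_card h2).trans ((card_union_le _ _).trans ?_)
  rw [card_product, card_product, card_univ, ZMod.card]
  nlinarith [Nat.mul_le_mul_right n h1]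

open Classical in
theorem touch_near {n : ℕ} [NeZero n] (D : Finset (Torus n)) (R : ℕ) :
    (univ.filter fun x : Torus n => ∃ y, Near (lift x) R y ∧ toTorus n y ∈ D).card ≤
      (2 * R + 1) ^ 2 * D.card := by
  rw [← card_nearF 0 R, ← card_product]
  refine le_trans (card_le_card fun x hx => ?_)
    (card_image_le (f := fun p : Pt × Torus n => p.2 + toTorus n p.1))
  obtain ⟨y, h1, h2⟩ := (mem_filter.1 hx).2
  refine mem_image.2 ⟨(lift x - y, toTorus n y), mem_product.2 ⟨mem_nearF.2 ?_, h2⟩, ?_⟩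
  · simp only [Near, Prod.fst_sub, Prod.snd_sub, Prod.fst_zero, Prod.snd_zero] at h1 ⊢
    omega
  · simp only
    rw [← toTorus_add, add_sub_cancel, toTorus_lift]

theorem touch_ncard_le {n : ℕ} [NeZero n] {S : Set (Torus n)} {T : Finset (Torus n)}
    (h : ∀ x ∈ S, x ∈ T) : S.ncard ≤ T.card := by
  rw [← Set.ncard_coe_finset]
  exact Set.ncard_le_ncard h (Set.toFinite _)

theorem clT_card_le {n : ℕ} [NeZero n] (K : Finset Pt) (r : ℕ) {g f ρ : ℕ}
    (hg : 2 * f + 2 * ρ + 1 ≤ g) (B : Finset (Torus n)) (W : Finset (ℕ × ℕ)) :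
    (clT n K r ((fill g f ρ B W : Finset (Torus n)) : Set (Torus n))).ncard ≤
      g ^ 2 * ((touch K r g f ρ B W).card + B.card) + (2 * ρ + 1) ^ 2 * (n / g) ^ 2 + 2 * g * n := by
  have hg0 : 0 < g := by omega
  have h1 := touch_ncard_le
    (S := clT n K r ((fill g f ρ B W : Finset (Torus n)) : Set (Torus n)))
    (T := ((touch K r g f ρ B W ∪ B.image fun x => (x.1.val / g, x.2.val / g)).biUnion
      (block n g) ∪ (cellIdx n g).biUnion (cell n g f ρ)) ∪
      univ.filter fun x : Torus n => x.1.val ∈ Ico (g * (n / g)) n ∨ x.2.val ∈ Ico (g * (n / g)) n)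
    fun x hx => by
      by_cases a : (x.1.val / g, x.2.val / g) ∈ cellIdx n g
      · have hb : x ∈ block n g (x.1.val / g, x.2.val / g) := mem_filter.2 ⟨mem_univ _, rfl, rfl⟩
        refine mem_union_left _ ?_
        by_cases c : x ∈ cell n g f ρ (x.1.val / g, x.2.val / g)
        · exact mem_union_right _ (mem_biUnion.2 ⟨_, a, c⟩)
        refine mem_union_left _ (mem_biUnion.2 ⟨_, ?_, hb⟩)
        by_cases e : Disjoint (cell n g f ρ (x.1.val / g, x.2.val / g)) B
        · exact mem_union_left _ (touch_mem.2 ⟨mem_filter.2 ⟨a, e⟩, x, hb, c, hx⟩)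
        · obtain ⟨w, hw1, hw2⟩ := not_disjoint_iff.1 e
          have := (mem_filter.1 (cell_subset_block hg _ hw1)).2
          exact mem_union_right _ (mem_image.2 ⟨w, hw2, Prod.ext this.1 this.2⟩)
      · refine mem_union_right _ (mem_filter.2 ⟨mem_univ _, ?_⟩)
        rw [mem_cellIdx, not_and_or, not_lt, not_lt, Nat.le_div_iff_mul_le hg0,
          Nat.le_div_iff_mul_le hg0, mul_comm] at a
        exact a.imp (fun a => mem_Ico.2 ⟨a, ZMod.val_lt _⟩) fun a => mem_Ico.2 ⟨a, ZMod.val_lt _⟩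
  refine h1.trans ((card_union_le _ _).trans (Nat.add_le_add ((card_union_le _ _).trans
    (Nat.add_le_add ?_ ?_)) ((touch_edge _).trans ?_)))
  · refine (card_biUnion_le_card_mul _ _ _ fun b _ => block_card_le hg0 b).trans ?_
    rw [mul_comm]
    exact Nat.mul_le_mul_left _ ((card_union_le _ _).trans (Nat.add_le_add_left card_image_le _))
  · refine (card_biUnion_le_card_mul _ _ _ fun b hb => (cell_card hg hb).le).trans ?_
    rw [card_cellIdx, mul_comm]
  · rw [Nat.card_Ico]
    have := Nat.lt_mul_div_succ n hg0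
    rw [Nat.mul_succ] at this
    exact Nat.mul_le_mul_right _ (Nat.mul_le_mul_left _ (by omega))

theorem touch_idx {g f ρ C m : ℕ} (hg : 2 * f + 2 * ρ + 1 ≤ g) {p : ℤ} (h0 : 0 ≤ p)
    (h1 : p + 2 * C + g ≤ (g * m : ℕ)) : ∃ i : ℕ, i < m ∧ p + C ≤ (g * i + f + ρ : ℕ) ∧
      ((g * i + f + ρ : ℕ) : ℤ) < p + C + g := by
  obtain ⟨q, rfl⟩ := Int.eq_ofNat_of_zero_le h0
  have hg0 : 0 < g := by omega
  have h2 := Nat.mul_div_le (q + C + g - 1 - f - ρ) g
  have h3 := Nat.lt_mul_div_succ (q + C + g - 1 - f - ρ) hg0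
  rw [Nat.mul_succ] at h3
  exact ⟨(q + C + g - 1 - f - ρ) / g, Nat.lt_of_mul_lt_mul_left (a := g) (by omega), by omega,
    by omega⟩

theorem good_cells {K : Finset Pt} {r h : ℕ} {n : ℕ} [NeZero n] {g f ρ U j k C a R l : ℕ}
    (hg : 2 * f + 2 * ρ + 1 ≤ g) (hρ : ρ ≤ C) (hdet : DetProp K r h U ρ j k C a)
    (hpin : PinProp K r h (2 * C + g) R) (A : Finset (Torus n)) (hl : LinesT U l A) :
    ∃ Gd ⊆ cellIdx n g, (∀ b ∈ Gd, Disjoint (cell n g f ρ b) A ∧
        clT n K r ((A ∪ cell n g f ρ b : Finset (Torus n)) : Set (Torus n)) = Set.univ) ∧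
      (clT n K r (A : Set (Torus n))).ncard ≤ (2 * R + 1) ^ 2 * Gd.card +
        ((2 * R + 1) ^ 2 * A.card +
          (2 * (R + a * (l + 1)) + 1) ^ 2 * {x | DenseT A k j x}.ncard + 2 * (2 * R + g) * n) := by
  classical
  have hg0 : 0 < g := by omega
  set Gd := (cellIdx n g).filter fun b => Disjoint (cell n g f ρ b) A ∧
    clT n K r ((A ∪ cell n g f ρ b : Finset (Torus n)) : Set (Torus n)) = Set.univ with hGd
  refine ⟨Gd, filter_subset _ _, fun b hb => (mem_filter.1 hb).2, ?_⟩
  set I := range R ∪ Ico (g * (n / g) - R) n with hI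
  have h1 := touch_ncard_le (S := clT n K r (A : Set (Torus n)))
    (T := (univ.filter fun x : Torus n => ∃ y, Near (lift x) R y ∧
        toTorus n y ∈ Gd.image fun b => toTorus n (ctr g f ρ b)) ∪
      (((univ.filter fun x : Torus n => ∃ y, Near (lift x) R y ∧ toTorus n y ∈ A) ∪
        univ.filter fun x : Torus n => ∃ y, Near (lift x) (R + a * (l + 1) : ℕ) y ∧
          toTorus n y ∈ univ.filter fun w => DenseT A k j w) ∪
        univ.filter fun x : Torus n => x.1.val ∈ I ∨ x.2.val ∈ I))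
    fun x hx => by
      by_contra hc
      simp only [mem_union, mem_filter, mem_univ, true_and, not_or, not_exists, not_and, hI,
        mem_range, mem_Ico] at hc
      obtain ⟨c1, ⟨c2, c3⟩, ⟨c4, c5⟩, c6, c7⟩ := hc
      have hx' : lift x ∈ clZ K r (toTorus n ⁻¹' (A : Set (Torus n))) := by
        rw [← preimage_clT, Set.mem_preimage, toTorus_lift]
        exact hx
      obtain ⟨p, hp1, hp2⟩ := hpin _ _ hx' c2
      have v1 := ZMod.val_lt x.1
      have v2 := ZMod.val_lt x.2
      have e1 := hp1 p (by simp only [InBox]; omega)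
      have e2 := hp1 (p.1 + 2 * C + g - 1, p.2 + 2 * C + g - 1) (by simp only [InBox]; omega)
      simp only [Near, lift] at e1 e2
      obtain ⟨i, i1, i2, i3⟩ := touch_idx (C := C) (m := n / g) (p := p.1) hg (by omega) (by omega)
      obtain ⟨i', j1, j2, j3⟩ := touch_idx (C := C) (m := n / g) (p := p.2) hg (by omega)
        (by omega)
      have hb : (i, i') ∈ cellIdx n g := mem_cellIdx.2 ⟨i1, j1⟩
      have hin : ∀ y, Near (ctr g f ρ (i, i')) C y → InBox p (2 * C + g) y := fun y hy => by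
        simp only [Near, ctr, InBox] at hy ⊢
        omega
      have hn := hp1 _ (hin (ctr g f ρ (i, i')) (by simp only [Near]; omega))
      refine c1 _ hn (mem_image_of_mem _ (mem_filter.2 ⟨hb, disjoint_left.2 fun w hw hA => ?_, ?_⟩))
      · refine c2 (lift w) (hp1 _ (hin _ ?_)) (by rwa [toTorus_lift])
        rw [mem_cell_iff] at hw
        simp only [Near] at hw ⊢
        omega
      · refine clT_eq_univ (fun y hy => ?_) (hdet l _ (ctr g f ρ (i, i'))
          (fun y hy => hp2 y (hin y hy)) (fun y hy hd => c3 y ?_ hd.denseT) hl.linesZ)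
        · rcases hy with hy | hy
          · exact mem_coe.2 (mem_union_left _ hy)
          · exact mem_coe.2 (mem_union_right _ (toTorus_mem_cell hg hb hy))
        · simp only [Near] at hy hn ⊢
          omega
  refine h1.trans ((card_union_le _ _).trans (Nat.add_le_add ?_ ((card_union_le _ _).trans
    (Nat.add_le_add ((card_union_le _ _).trans (Nat.add_le_add ?_ ?_)) ?_))))
  · exact (touch_near _ R).trans (Nat.mul_le_mul_left _ card_image_le)
  · exact touch_near A R
  · refine (touch_near _ _).trans (Nat.mul_le_mul_left _ (le_of_eq ?_))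
    rw [← Set.ncard_coe_finset, coe_filter]
    simp only [mem_univ, true_and]
  · refine (touch_edge I).trans (Nat.mul_le_mul_right _ (Nat.mul_le_mul_left _
      ((card_union_le _ _).trans ?_)))
    rw [card_range, Nat.card_Ico]
    have := Nat.lt_mul_div_succ n hg0
    rw [Nat.mul_succ] at this
    omega

end Pool.Agent.P.MP_9594ac_pr
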