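import Pool.Agent.P.MP_9594ac_pr.Core
import Pool.Agent.P.MP_9594ac_pr.Fiber
import Pool.Agent.P.MP_9594ac_pr.Touch

/-! The abstract core estimate applied to the cells of the torus. -/

namespace Pool.Agent.P.MP_9594ac_pr

open Finset Filter

theorem ct_outside_fill {n : ℕ} [NeZero n] (g f ρ : ℕ) (B : Finset (Torus n))
    {W : Finset (ℕ × ℕ)} (hW : W ⊆ cellIdx n g) :
    outside g f ρ (fill g f ρ B W) = outside g f ρ B := by
  ext x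
  simp only [outside, fill, Finset.mem_sdiff, mem_union, mem_biUnion]
  constructor
  · rintro ⟨h1 | ⟨b, hb, hx⟩, h2⟩
    · exact ⟨h1, h2⟩
    · exact absurd ⟨b, hW hb, hx⟩ h2
  · rintro ⟨h1, h2⟩
    exact ⟨Or.inl h1, h2⟩

theorem ct_fill_mono {n : ℕ} [NeZero n] (g f ρ : ℕ) (B : Finset (Torus n))
    {W W' : Finset (ℕ × ℕ)} (hW : W ⊆ W') : fill g f ρ B W ⊆ fill g f ρ B W' :=
  union_subset_union subset_rfl (biUnion_subset_biUnion_of_subset_left _ hW)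

theorem ct_fill_insert {n : ℕ} [NeZero n] (g f ρ : ℕ) (B : Finset (Torus n))
    (W : Finset (ℕ × ℕ)) (b : ℕ × ℕ) :
    fill g f ρ B (insert b W) = fill g f ρ B W ∪ cell n g f ρ b := by
  simp only [fill, biUnion_insert]
  ext x
  simp only [mem_union]
  tauto

theorem core_torus {K : Finset Pt} {r h : ℕ} (hN : Nice K r h) (n : ℕ) [NeZero n] (g f ρ : ℕ)
    (hg : 2 * f + 2 * ρ + 1 ≤ g) (hf : 2 * h ≤ f) (p θ δ q : ℝ) (hp : 0 < p) (hp1 : p < 1)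
    (hθ : θ = p ^ ((2 * ρ + 1) ^ 2) / (p ^ ((2 * ρ + 1) ^ 2) + (1 - p) ^ ((2 * ρ + 1) ^ 2)))
    (hδ : 0 ≤ δ) (hδθ : δ ≤ θ) (γ G η T J : ℕ) (hγ : 1 ≤ γ) (hq0 : 0 ≤ q) (hq1 : q ≤ 1)
    (hq : (1 + δ ^ 2 / (θ * (1 - θ))) ^ (n ^ 2) - 1 ≤ q ^ 2)
    (Inc Dec : Finset (Torus n) → Prop) (hDec : ∀ A B, A ⊆ B → Dec B → Dec A)
    (hT : ∀ A, Dec A → A.card ≤ T)
    (hgood : ∀ A, Dec A → Inc (outside g f ρ A) →
      ∃ Gd ⊆ cellIdx n g, (∀ b ∈ Gd, Disjoint (cell n g f ρ b) A ∧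
        clT n K r ((A ∪ cell n g f ρ b : Finset (Torus n)) : Set (Torus n)) = Set.univ) ∧
      (clT n K r (A : Set (Torus n))).ncard ≤ γ * Gd.card + η)
    (X : ℝ) (hX : ((g ^ 2 * ((2 + γ) ^ J * (η + γ * G) + T) + (2 * ρ + 1) ^ 2 * (n / g) ^ 2 +
      2 * g * n : ℕ) : ℝ) ≤ X) :
    Ex univ p (fun A : Finset (Torus n) => ind (Inc (outside g f ρ A) ∧ Dec A ∧
      clT n K r (A : Set (Torus n)) ≠ Set.univ ∧
      X < ((clT n K r (A : Set (Torus n))).ncard : ℝ))) ≤ J * (1 - δ) ^ G + q ^ J := by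
  have ha : 0 < p ^ ((2 * ρ + 1) ^ 2) := pow_pos hp _
  have hb : 0 < (1 - p) ^ ((2 * ρ + 1) ^ 2) := pow_pos (by linarith) _
  have hθ0 : 0 < θ := by rw [hθ]; positivity
  have hθ1 : θ < 1 := by rw [hθ, div_lt_one (by positivity)]; linarith
  have hrhs : 0 ≤ J * (1 - δ) ^ G + q ^ J := by
    have : 0 ≤ 1 - δ := by linarith
    positivity
  refine fiber (cellIdx n g) (cell n g f ρ) ((2 * ρ + 1) ^ 2) (Nat.one_le_pow _ _ (by omega))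
    (fun b hb => cell_card hg hb) (fun b _ b' _ hne => cell_disj hg hne) p hp hp1 _ _
    (fun B => ?_)
  rw [← hθ]
  change Ex (emptyCells g f ρ B) θ (fun W => ind (Inc (outside g f ρ (fill g f ρ B W)) ∧
    Dec (fill g f ρ B W) ∧
    clT n K r ((fill g f ρ B W : Finset (Torus n)) : Set (Torus n)) ≠ Set.univ ∧
    X < ((clT n K r ((fill g f ρ B W : Finset (Torus n)) : Set (Torus n))).ncard : ℝ))) ≤ _
  have hE : emptyCells g f ρ B ⊆ cellIdx n g := filter_subset _ _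
  by_cases hI : Inc (outside g f ρ B)
  swap
  · refine Ex_le_const hθ0.le hθ1.le (fun W hW => ?_)
    rw [ind_of_not]
    · exact hrhs
    · rw [ct_outside_fill g f ρ B (hW.trans hE)]
      exact fun hh => hI hh.1
  refine le_trans (Ex_mono hθ0.le hθ1.le (g := fun W => ind ((Dec (fill g f ρ B W) ∧
    clT n K r ((fill g f ρ B W : Finset (Torus n)) : Set (Torus n)) ≠ Set.univ) ∧
    (2 + γ) ^ J * (η + γ * G) ≤ (touch K r g f ρ B W).card)) (fun W _ => ind_mono ?_))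
    (core θ δ q hθ0 hθ1 hδ hδθ γ G (n ^ 2) hγ hq0 hq1 hq J (emptyCells g f ρ B) η _
      (touch K r g f ρ B) (fun W => Dec (fill g f ρ B W) ∧
        clT n K r ((fill g f ρ B W : Finset (Torus n)) : Set (Torus n)) ≠ Set.univ)
      ?_ ?_ ?_ ?_ ?_ ?_ le_rfl)
  · rintro ⟨-, h2, h3, h4⟩
    refine ⟨⟨h2, h3⟩, ?_⟩
    have h5 := clT_card_le K r hg B W
    have h6 : B.card ≤ T := (card_le_card subset_union_left).trans (hT _ h2)
    have h7 : g ^ 2 * ((2 + γ) ^ J * (η + γ * G) + T) + (2 * ρ + 1) ^ 2 * (n / g) ^ 2 +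
        2 * g * n < (clT n K r ((fill g f ρ B W : Finset (Torus n)) : Set (Torus n))).ncard := by
      exact_mod_cast hX.trans_lt h4
    have h8 : g ^ 2 * ((2 + γ) ^ J * (η + γ * G) + T) <
        g ^ 2 * ((touch K r g f ρ B W).card + B.card) := by omega
    have h9 := Nat.lt_of_mul_lt_mul_left h8
    omega
  · refine (card_le_card hE).trans ?_
    rw [card_cellIdx]
    exact Nat.pow_le_pow_left (Nat.div_le_self _ _) 2
  · intro W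
    classical
    exact filter_subset _ _
  · intro W W' hW
    exact touch_mono K r g f ρ B hW
  · intro W b hb hbt
    exact touch_local hN hg hf B W b hb hbt
  · rintro W W' hW ⟨h1, h2⟩
    refine ⟨hDec _ _ (ct_fill_mono g f ρ B hW) h1, fun hh => h2 ?_⟩
    refine Set.eq_univ_of_univ_subset ?_
    rw [← hh]
    exact clT_mono (coe_subset.2 (ct_fill_mono g f ρ B hW))
  · rintro W hW ⟨h1, -⟩
    obtain ⟨Gd, hGd, hall, hcard⟩ := hgood _ h1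
      (by rw [ct_outside_fill g f ρ B (hW.trans hE)]; exact hI)
    refine ⟨Gd, fun b hb => ?_, fun b hb hh => ?_, (touch_card_le K r g f ρ B W).trans hcard⟩
    · have hd := (hall b hb).1
      refine mem_sdiff.2 ⟨mem_filter.2 ⟨hGd hb, hd.mono_right subset_union_left⟩, fun hbW => ?_⟩
      have hsub : cell n g f ρ b ⊆ fill g f ρ B W :=
        (subset_biUnion_of_mem (cell n g f ρ) hbW).trans subset_union_right
      have hemp : cell n g f ρ b = ∅ := disjoint_self_iff_empty _ |>.1 (hd.mono_right hsub)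
      have hc := cell_card hg (hGd hb)
      rw [hemp, card_empty] at hc
      exact absurd hc.symm (pow_ne_zero _ (by omega))
    · apply hh.2
      rw [ct_fill_insert]
      exact (hall b hb).2

/-- the density of the fibre measure. -/
theorem ct_theta {p B : ℝ} {k : ℕ} (hp : 0 < p) (hp2 : p ≤ 1 / 2) (hB : 4 ≤ B * p ^ k)
    {θ : ℝ} (hθ : θ = p ^ k / (p ^ k + (1 - p) ^ k)) : 1 ≤ B * (θ * (1 - θ)) ∧ 1 ≤ B * θ := by
  have ha : 0 < p ^ k := pow_pos hp _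
  have hb : p ^ k ≤ (1 - p) ^ k := pow_le_pow_left₀ hp.le (by linarith) _
  have hc : (1 - p) ^ k ≤ 1 := pow_le_one₀ (by linarith) (by linarith)
  have hB0 : 0 < B := by
    by_contra hh
    have := mul_nonpos_of_nonpos_of_nonneg (not_lt.1 hh) ha.le
    linarith
  have h1 : θ ≤ 1 / 2 := by
    rw [hθ, div_le_iff₀ (by linarith)]; linarith
  have h2 : p ^ k / 2 ≤ θ := by
    rw [hθ]
    exact div_le_div_of_nonneg_left ha.le (by linarith) (by linarith)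
  have h3 : 2 ≤ B * θ := by
    have := mul_le_mul_of_nonneg_left h2 hB0.le
    linarith
  refine ⟨?_, by linarith⟩
  have h4 : B * θ * (1 / 2) ≤ B * θ * (1 - θ) :=
    mul_le_mul_of_nonneg_left (by linarith) (by linarith)
  nlinarith

theorem ct_pow {x : ℝ} {n : ℕ} (hn : 2 ≤ n) (hx0 : 0 ≤ x) (hx : x * (n : ℝ) ^ 3 ≤ 1) :
    (1 + x) ^ (n ^ 2) - 1 ≤ 2 / n := by
  have hn' : (2 : ℝ) ≤ n := by exact_mod_cast hn
  have hn0 : (0 : ℝ) < n := by linarith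
  have h1 : (1 + x) ^ (n ^ 2) ≤ Real.exp (1 / n) := by
    calc (1 + x) ^ (n ^ 2) ≤ (Real.exp x) ^ (n ^ 2) :=
          pow_le_pow_left₀ (by linarith) (by linarith [Real.add_one_le_exp x]) _
      _ = Real.exp ((n ^ 2 : ℕ) * x) := by rw [Real.exp_nat_mul]
      _ ≤ Real.exp (1 / n) := by
          apply Real.exp_le_exp.2
          rw [le_div_iff₀ hn0]
          push_cast
          nlinarith
  have h2 : 1 / (n : ℝ) ≤ 1 / 2 := one_div_le_one_div_of_le (by norm_num) hn'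
  have h3 : 0 ≤ 1 / (n : ℝ) := by positivity
  have h4 := Real.exp_bound_div_one_sub_of_interval h3 (by linarith)
  have h5 : 1 / (1 - 1 / (n : ℝ)) ≤ 1 + 2 * (1 / n) := by
    rw [div_le_iff₀ (by linarith)]
    nlinarith
  have h6 : 2 / (n : ℝ) = 2 * (1 / n) := by ring
  linarith

theorem ct_div_lower {m d : ℕ} (hd : 0 < d) (h : d ≤ m) : (m : ℝ) ≤ 2 * d * ((m / d : ℕ) : ℝ) := by
  have h1 : m < d * (m / d) + d := by
    have := Nat.div_add_mod m d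
    have := Nat.mod_lt m hd
    omega
  have h2 : 1 ≤ m / d := (Nat.le_div_iff_mul_le hd).2 (by omega)
  have h3 : d ≤ d * (m / d) := Nat.le_mul_of_pos_right _ h2
  have h4 : m ≤ 2 * d * (m / d) := by
    rw [mul_assoc]; omega
  exact_mod_cast h4

theorem ct_decay {y n Q : ℕ} (hQ : 0 < Q) (hy : 14 * Q ≤ y) (hn : n ≤ 2 ^ (y ^ 7)) (hn0 : 0 < n)
    (hQn : Q ≤ n ^ 2) (hδ : (y : ℝ) ^ 8 / (n : ℝ) ^ 2 ≤ 1) :
    (1 - (y : ℝ) ^ 8 / (n : ℝ) ^ 2) ^ (n ^ 2 / Q) ≤ 1 / (n : ℝ) ^ 7 := by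
  have hn' : (0 : ℝ) < n := by exact_mod_cast hn0
  have hQ' : (0 : ℝ) < Q := by exact_mod_cast hQ
  have hy' : 14 * (Q : ℝ) ≤ y := by exact_mod_cast hy
  have hy0 : (0 : ℝ) < y := by linarith
  have h1 := ct_div_lower hQ hQn
  push_cast at h1
  set G : ℕ := n ^ 2 / Q with hG
  have h2 : 7 * (y : ℝ) ^ 7 ≤ G * ((y : ℝ) ^ 8 / (n : ℝ) ^ 2) := by
    rw [← mul_div_assoc, le_div_iff₀ (by positivity)]
    calc 7 * (y : ℝ) ^ 7 * (n : ℝ) ^ 2 ≤ 7 * (y : ℝ) ^ 7 * (2 * Q * G) := by gcongr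
      _ = G * (y : ℝ) ^ 7 * (14 * Q) := by ring
      _ ≤ G * (y : ℝ) ^ 7 * y := by gcongr
      _ = G * (y : ℝ) ^ 8 := by ring
  have h3 : (n : ℝ) ≤ Real.exp ((y : ℝ) ^ 7) := by
    calc (n : ℝ) ≤ (2 : ℝ) ^ (y ^ 7) := by exact_mod_cast hn
      _ ≤ (Real.exp 1) ^ (y ^ 7) :=
          pow_le_pow_left₀ (by norm_num) (by linarith [Real.add_one_le_exp (1 : ℝ)]) _
      _ = Real.exp ((y : ℝ) ^ 7) := by rw [← Real.exp_nat_mul]; push_cast; rw [mul_one]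
  calc (1 - (y : ℝ) ^ 8 / (n : ℝ) ^ 2) ^ G ≤ (Real.exp (-((y : ℝ) ^ 8 / (n : ℝ) ^ 2))) ^ G :=
        pow_le_pow_left₀ (by linarith)
          (by linarith [Real.add_one_le_exp (-((y : ℝ) ^ 8 / (n : ℝ) ^ 2))]) _
    _ = Real.exp (-(G * ((y : ℝ) ^ 8 / (n : ℝ) ^ 2))) := by
        rw [← Real.exp_nat_mul]; congr 1; ring
    _ ≤ Real.exp (-(7 * (y : ℝ) ^ 7)) := Real.exp_le_exp.2 (by linarith)
    _ = 1 / (Real.exp ((y : ℝ) ^ 7)) ^ 7 := by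
        rw [← Real.exp_nat_mul, Real.exp_neg, one_div]; norm_num
    _ ≤ 1 / (n : ℝ) ^ 7 := by gcongr

theorem ct_final {y n : ℝ} (hy : 1 ≤ y) (hn : 168 * y ≤ n) :
    (n ^ 2 + 1) * (10 * (1 / n ^ 7) + 32 / n ^ 5) ≤ 1 / (y * (n ^ 2 + 1)) := by
  have hn1 : 1 ≤ n := by linarith
  have hn0 : 0 < n := by linarith
  have h1 : n ^ 2 + 1 ≤ 2 * n ^ 2 := by nlinarith
  have h2 : 1 / n ^ 7 ≤ 1 / n ^ 5 :=
    one_div_le_one_div_of_le (by positivity) (pow_le_pow_right₀ hn1 (by norm_num))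
  rw [le_div_iff₀ (by positivity)]
  calc (n ^ 2 + 1) * (10 * (1 / n ^ 7) + 32 / n ^ 5) * (y * (n ^ 2 + 1))
      ≤ (2 * n ^ 2) * (10 * (1 / n ^ 5) + 32 / n ^ 5) * (y * (2 * n ^ 2)) := by gcongr
    _ = 168 * y / n := by field_simp; ring
    _ ≤ 1 := by rw [div_le_one hn0]; exact hn

/-- the size condition of `core_torus`. -/
theorem ct_size {g ρ a R y n Q : ℕ} {ε : ℝ} (hε : 0 < ε)
    (hge : ((2 * ρ + 1 : ℕ) : ℝ) ^ 2 ≤ ε / 4 * (g : ℝ) ^ 2) (hy : 1 ≤ y) (hyn : y ≤ n)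
    (hQ : 4 * ((g : ℝ) ^ 2 * (2 + (2 * R + 1) ^ 2) ^ 10 * (2 * R + 1) ^ 2) ≤ ε * Q)
    (hD : 2 * ((g : ℝ) ^ 2 * ((2 + (2 * R + 1) ^ 2) ^ 10 *
      ((2 * R + 1) ^ 2 + (2 * R + 4 * a + 1) ^ 2 + 2 * (2 * R + g)) + 1) + 2 * g) ≤ ε * y) :
    ((g ^ 2 * ((2 + (2 * R + 1) ^ 2) ^ 10 * (((2 * R + 1) ^ 2 * (n ^ 2 / y) +
      (2 * (R + a * (y ^ 23 + 1)) + 1) ^ 2 * (n ^ 2 / y ^ 49) + 2 * (2 * R + g) * n) +
      (2 * R + 1) ^ 2 * (n ^ 2 / Q)) + n ^ 2 / y) + (2 * ρ + 1) ^ 2 * (n / g) ^ 2 +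
      2 * g * n : ℕ) : ℝ) ≤ ε * (n : ℝ) ^ 2 := by
  have hy' : (1 : ℝ) ≤ y := by exact_mod_cast hy
  have hyn' : (y : ℝ) ≤ n := by exact_mod_cast hyn
  have hy0 : (0 : ℝ) < y := by linarith
  have hn0 : (0 : ℝ) < n := by linarith
  set z : ℝ := (n : ℝ) ^ 2 / y with hz
  have hz0 : 0 ≤ z := by positivity
  have e1 : ((n ^ 2 / y : ℕ) : ℝ) ≤ z := by
    have := Nat.cast_div_le (α := ℝ) (m := n ^ 2) (n := y)
    push_cast at this
    exact this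
  have e2 : (n : ℝ) ≤ z := by
    rw [hz, le_div_iff₀ hy0, sq]; gcongr
  have e3 : ((2 * (R + a * (y ^ 23 + 1)) + 1 : ℕ) : ℝ) ^ 2 * ((n ^ 2 / y ^ 49 : ℕ) : ℝ) ≤
      (2 * R + 4 * a + 1) ^ 2 * z := by
    have h1 : ((n ^ 2 / y ^ 49 : ℕ) : ℝ) ≤ (n : ℝ) ^ 2 / (y : ℝ) ^ 49 := by
      have := Nat.cast_div_le (α := ℝ) (m := n ^ 2) (n := y ^ 49)
      push_cast at this
      exact this
    have h2 : (1 : ℝ) ≤ (y : ℝ) ^ 23 := one_le_pow₀ hy'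
    have h3 : ((2 * (R + a * (y ^ 23 + 1)) + 1 : ℕ) : ℝ) ≤ (2 * R + 4 * a + 1) * (y : ℝ) ^ 23 := by
      push_cast
      have hR : (0 : ℝ) ≤ R := Nat.cast_nonneg _
      have ha : (0 : ℝ) ≤ a := Nat.cast_nonneg _
      nlinarith [mul_le_mul_of_nonneg_left h2 hR, mul_le_mul_of_nonneg_left h2 ha]
    have h4 : (1 : ℝ) ≤ (y : ℝ) ^ 2 := one_le_pow₀ hy'
    calc ((2 * (R + a * (y ^ 23 + 1)) + 1 : ℕ) : ℝ) ^ 2 * ((n ^ 2 / y ^ 49 : ℕ) : ℝ)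
        ≤ ((2 * R + 4 * a + 1) * (y : ℝ) ^ 23) ^ 2 * ((n : ℝ) ^ 2 / (y : ℝ) ^ 49) := by gcongr
      _ = (2 * R + 4 * a + 1) ^ 2 * z / (y : ℝ) ^ 2 := by rw [hz]; field_simp
      _ ≤ (2 * R + 4 * a + 1) ^ 2 * z := div_le_self (by positivity) h4
  have e4 : ((2 * ρ + 1 : ℕ) : ℝ) ^ 2 * ((n / g : ℕ) : ℝ) ^ 2 ≤ ε / 4 * (n : ℝ) ^ 2 := by
    have h1 : (g : ℝ) * ((n / g : ℕ) : ℝ) ≤ n := by exact_mod_cast Nat.mul_div_le n g
    calc ((2 * ρ + 1 : ℕ) : ℝ) ^ 2 * ((n / g : ℕ) : ℝ) ^ 2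
        ≤ ε / 4 * (g : ℝ) ^ 2 * ((n / g : ℕ) : ℝ) ^ 2 := by gcongr
      _ = ε / 4 * ((g : ℝ) * ((n / g : ℕ) : ℝ)) ^ 2 := by ring
      _ ≤ ε / 4 * (n : ℝ) ^ 2 := by gcongr
  have e5 : (g : ℝ) ^ 2 * (2 + (2 * R + 1) ^ 2) ^ 10 * (2 * R + 1) ^ 2 * ((n ^ 2 / Q : ℕ) : ℝ) ≤
      ε / 4 * (n : ℝ) ^ 2 := by
    have h1 : (Q : ℝ) * ((n ^ 2 / Q : ℕ) : ℝ) ≤ (n : ℝ) ^ 2 := by
      exact_mod_cast Nat.mul_div_le (n ^ 2) Q
    calc (g : ℝ) ^ 2 * (2 + (2 * R + 1) ^ 2) ^ 10 * (2 * R + 1) ^ 2 * ((n ^ 2 / Q : ℕ) : ℝ)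
        ≤ (ε * Q / 4) * ((n ^ 2 / Q : ℕ) : ℝ) := by gcongr; linarith
      _ = ε / 4 * (Q * ((n ^ 2 / Q : ℕ) : ℝ)) := by ring
      _ ≤ ε / 4 * (n : ℝ) ^ 2 := by gcongr
  have e6 : ((g : ℝ) ^ 2 * ((2 + (2 * R + 1) ^ 2) ^ 10 *
      ((2 * R + 1) ^ 2 + (2 * R + 4 * a + 1) ^ 2 + 2 * (2 * R + g)) + 1) + 2 * g) * z ≤
      ε / 2 * (n : ℝ) ^ 2 := by
    calc _ ≤ (ε * y / 2) * z := by gcongr; linarith
      _ = ε / 2 * (n : ℝ) ^ 2 := by rw [hz]; field_simp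
  generalize n ^ 2 / y = u1 at *
  generalize n ^ 2 / y ^ 49 = u2 at *
  generalize n ^ 2 / Q = u3 at *
  generalize n / g = u4 at *
  generalize 2 * (R + a * (y ^ 23 + 1)) + 1 = u5 at *
  generalize 2 * ρ + 1 = u6 at *
  push_cast
  have e7 : (g : ℝ) ^ 2 * ((2 + (2 * R + 1) ^ 2) ^ 10 * ((2 * R + 1) ^ 2 * u1 +
      (u5 : ℝ) ^ 2 * u2 + 2 * (2 * R + g) * n) + u1) + 2 * g * n ≤
      (g : ℝ) ^ 2 * ((2 + (2 * R + 1) ^ 2) ^ 10 * ((2 * R + 1) ^ 2 * z +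
      (2 * R + 4 * a + 1) ^ 2 * z + 2 * (2 * R + g) * z) + z) + 2 * g * z := by
    gcongr
  generalize (2 + (2 * (R : ℝ) + 1) ^ 2) ^ 10 = w at *
  linarith

theorem est_core {K : Finset Pt} {r h : ℕ} (hN : Nice K r h) {g f ρ U k C a R : ℕ}
    (hg : 2 * f + 2 * ρ + 1 ≤ g) (hf : 2 * h ≤ f) (hρ : ρ ≤ C)
    (hdet : DetProp K r h U ρ 51 k C a) (hpin : PinProp K r h (2 * C + g) R)
    (ε : ℝ) (hε : 0 < ε) (hge : ((2 * ρ + 1 : ℕ) : ℝ) ^ 2 ≤ ε / 4 * (g : ℝ) ^ 2) :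
    ∀ᶠ y : ℕ in atTop, ∀ (n : ℕ) [NeZero n], Scale y n → ∀ t ∈ Icc (n ^ 2 / y ^ 15) (n ^ 2 / y),
      mu (Torus n) t (fun A => LinesT U (y ^ 23) (outside g f ρ A) ∧
        (A.card ≤ n ^ 2 / y ∧ {x | DenseT A k 51 x}.ncard ≤ n ^ 2 / y ^ 49) ∧
        clT n K r (A : Set (Torus n)) ≠ Set.univ ∧
        ε * (n : ℝ) ^ 2 < ((clT n K r (A : Set (Torus n))).ncard : ℝ)) ≤
      1 / (y * ((n : ℝ) ^ 2 + 1)) := by
  obtain ⟨Q₀, hQ₀⟩ := exists_nat_ge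
    (4 * ((g : ℝ) ^ 2 * (2 + (2 * R + 1) ^ 2) ^ 10 * (2 * R + 1) ^ 2) / ε)
  obtain ⟨D, hD⟩ := exists_nat_ge (2 * ((g : ℝ) ^ 2 * ((2 + (2 * R + 1) ^ 2) ^ 10 *
      ((2 * R + 1) ^ 2 + (2 * R + 4 * a + 1) ^ 2 + 2 * (2 * R + g)) + 1) + 2 * g) / ε)
  set Q := Q₀ + 1 with hQdef
  have hQ : 4 * ((g : ℝ) ^ 2 * (2 + (2 * R + 1) ^ 2) ^ 10 * (2 * R + 1) ^ 2) ≤ ε * Q := by
    rw [div_le_iff₀ hε] at hQ₀
    have : (Q : ℝ) = Q₀ + 1 := by rw [hQdef]; push_cast; ring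
    rw [this]; linarith
  set k₀ := (2 * ρ + 1) ^ 2 with hk₀
  filter_upwards [eventually_ge_atTop 2, eventually_ge_atTop D, eventually_ge_atTop (14 * Q),
    poly_le_scale 168 1, poly_le_scale 1 15, poly_le_scale (4 * 2 ^ k₀) (15 * k₀ + 16)]
    with y hy2 hyD hyQ h168 h15 hbig
  intro n _ hn t ht
  replace h168 := h168 n hn
  replace h15 := h15 n hn
  replace hbig := hbig n hn
  rw [pow_one] at h168
  rw [one_mul] at h15
  obtain ⟨ht1, ht2⟩ := mem_Icc.1 ht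
  have hn2 : 2 ≤ n := by omega
  have hnn : n ≤ n ^ 2 := Nat.le_self_pow (by norm_num) n
  have hy' : (2 : ℝ) ≤ y := by exact_mod_cast hy2
  have hy0 : (0 : ℝ) < y := by linarith
  have hn' : (2 : ℝ) ≤ n := by exact_mod_cast hn2
  have hn0 : (0 : ℝ) < n := by linarith
  have htn : t ≤ n ^ 2 := ht2.trans (Nat.div_le_self _ _)
  set p : ℝ := (t : ℝ) / (n : ℝ) ^ 2 with hp
  have hp2 : p ≤ 1 / 2 := by
    have h1 : y * t ≤ n ^ 2 := (Nat.mul_le_mul_left y ht2).trans (Nat.mul_div_le _ _)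
    have h2 : (y : ℝ) * t ≤ (n : ℝ) ^ 2 := by exact_mod_cast h1
    have h3 : (0 : ℝ) ≤ t := Nat.cast_nonneg _
    rw [hp, div_le_iff₀ (by positivity)]
    nlinarith
  have hplow : 1 ≤ 2 * (y : ℝ) ^ 15 * p := by
    have h1 := ct_div_lower (m := n ^ 2) (d := y ^ 15) (by positivity) (h15.trans hnn)
    have h2 : ((n ^ 2 / y ^ 15 : ℕ) : ℝ) ≤ t := by exact_mod_cast ht1
    push_cast at h1
    rw [hp, ← mul_div_assoc, le_div_iff₀ (by positivity), one_mul]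
    exact h1.trans (by gcongr)
  have hp0 : 0 < p := by
    by_contra hh
    have := mul_nonpos_of_nonneg_of_nonpos (a := 2 * (y : ℝ) ^ 15) (by positivity) (not_lt.1 hh)
    linarith
  set B : ℝ := 4 * (2 * (y : ℝ) ^ 15) ^ k₀ with hB
  have hB0 : 0 < B := by positivity
  have hBp : 4 ≤ B * p ^ k₀ := by
    have h1 : (1 : ℝ) ≤ (2 * (y : ℝ) ^ 15 * p) ^ k₀ := one_le_pow₀ hplow
    rw [mul_pow] at h1
    rw [hB]; linarith
  have hBn : B * (y : ℝ) ^ 16 ≤ n := by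
    have h1 : ((4 * 2 ^ k₀ * y ^ (15 * k₀ + 16) : ℕ) : ℝ) ≤ n := by exact_mod_cast hbig
    push_cast at h1
    rw [pow_add, pow_mul] at h1
    rw [hB, mul_pow]; linarith
  set θ : ℝ := p ^ k₀ / (p ^ k₀ + (1 - p) ^ k₀) with hθ
  obtain ⟨hθ1, hθ2⟩ := ct_theta hp0 hp2 hBp hθ
  set δ : ℝ := (y : ℝ) ^ 8 / (n : ℝ) ^ 2 with hδ
  have hδ0 : 0 ≤ δ := by positivity
  have hBδ : B * δ ≤ 1 := by
    rw [hδ, ← mul_div_assoc, div_le_one (by positivity)]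
    calc B * (y : ℝ) ^ 8 ≤ B * (y : ℝ) ^ 16 := by
          gcongr
          · linarith
          · norm_num
      _ ≤ (n : ℝ) := hBn
      _ ≤ (n : ℝ) ^ 2 := by nlinarith
  have hδθ : δ ≤ θ := le_of_mul_le_mul_left (hBδ.trans hθ2) hB0
  have hθle : θ ≤ 1 := by
    have ha : 0 < p ^ k₀ := pow_pos hp0 _
    have hb : 0 < (1 - p) ^ k₀ := pow_pos (by linarith) _
    rw [hθ, div_le_one (by positivity)]; linarith
  have hθθ : 0 < θ * (1 - θ) := by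
    by_contra hh
    have := mul_nonpos_of_nonneg_of_nonpos hB0.le (not_lt.1 hh)
    linarith
  have hx : δ ^ 2 / (θ * (1 - θ)) * (n : ℝ) ^ 3 ≤ 1 := by
    rw [div_mul_eq_mul_div, div_le_one hθθ]
    have h1 : δ ^ 2 * (n : ℝ) ^ 3 = (y : ℝ) ^ 16 / n := by rw [hδ]; field_simp
    rw [h1]
    refine le_of_mul_le_mul_left (le_trans ?_ hθ1) hB0
    rw [← mul_div_assoc, div_le_one hn0]
    exact hBn
  have hq2 : (Real.sqrt (2 / n)) ^ 2 = 2 / n := Real.sq_sqrt (by positivity)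
  have hq1 : Real.sqrt (2 / n) ≤ 1 := by
    rw [Real.sqrt_le_one, div_le_one hn0]; exact hn'
  have hmain := core_torus hN n g f ρ hg hf p θ δ (Real.sqrt (2 / n)) hp0 (by linarith) hθ hδ0 hδθ
    ((2 * R + 1) ^ 2) (n ^ 2 / Q)
    ((2 * R + 1) ^ 2 * (n ^ 2 / y) +
      (2 * (R + a * (y ^ 23 + 1)) + 1) ^ 2 * (n ^ 2 / y ^ 49) + 2 * (2 * R + g) * n)
    (n ^ 2 / y) 10 (Nat.one_le_pow _ _ (by omega)) (Real.sqrt_nonneg _) hq1
    (by rw [hq2]; exact ct_pow hn2 (by positivity) hx)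
    (fun A => LinesT U (y ^ 23) A)
    (fun A => A.card ≤ n ^ 2 / y ∧ {x | DenseT A k 51 x}.ncard ≤ n ^ 2 / y ^ 49)
    (fun A A' hA hA' => ⟨(card_le_card hA).trans hA'.1,
      (Set.ncard_le_ncard (fun x hx => DenseT.mono hA hx) (Set.toFinite _)).trans hA'.2⟩)
    (fun A hA => hA.1)
    (fun A hA hI => by
      obtain ⟨Gd, h1, h2, h3⟩ := good_cells hg hρ hdet hpin A (hI.mono (outside_subset g f ρ A))
      refine ⟨Gd, h1, h2, h3.trans ?_⟩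
      obtain ⟨h4, h5⟩ := hA
      gcongr)
    (ε * (n : ℝ) ^ 2)
    (ct_size hε hge (by omega) (by omega) hQ (by
      rw [div_le_iff₀ hε] at hD
      have h1 : (D : ℝ) ≤ y := by exact_mod_cast hyD
      have h2 := mul_le_mul_of_nonneg_left h1 hε.le
      linarith))
  have hdec := ct_decay (y := y) (n := n) (Q := Q) (by omega) hyQ hn.2 (by omega) (by omega)
    (hδθ.trans hθle)
  have hq10 : (Real.sqrt (2 / n)) ^ 10 = 32 / (n : ℝ) ^ 5 := by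
    rw [show 10 = 2 * 5 from rfl, pow_mul, hq2]; ring
  refine (mu_le_Ex (Torus n) t (by rw [card_torus]; exact htn)
    (by rw [card_torus]; positivity) _).trans ?_
  rw [card_torus]
  push_cast
  refine le_trans ?_ (ct_final (by linarith) (by exact_mod_cast h168))
  refine mul_le_mul_of_nonneg_left (hmain.trans ?_) (by positivity)
  rw [hq10]
  push_cast
  linarith

end Pool.Agent.P.MP_9594ac_pr
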