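import Pool.Agent.P.MP_9594ac_pr.Stmt

/-! Definitions used in the proof. -/

namespace Pool.Agent.P.MP_9594ac_pr

open Finset

/-- Lattice points. -/
abbrev Pt : Type := ℤ × ℤ

/-- Rotation by a quarter turn. -/
def rot (z : Pt) : Pt := (-z.2, z.1)

/-- Scalar product. -/
def dot (z u : Pt) : ℤ := z.1 * u.1 + z.2 * u.2

/-- Determinant. -/
def cross (z u : Pt) : ℤ := z.1 * u.2 - z.2 * u.1

/-- `y` is within sup-distance `R` of `x`. -/
def Near (x : Pt) (R : ℕ) (y : Pt) : Prop :=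
  x.1 - R ≤ y.1 ∧ y.1 ≤ x.1 + R ∧ x.2 - R ≤ y.2 ∧ y.2 ≤ x.2 + R

/-- `y` lies in the square of side `C` with lower left corner `p`. -/
def InBox (p : Pt) (C : ℕ) (y : Pt) : Prop :=
  p.1 ≤ y.1 ∧ y.1 < p.1 + C ∧ p.2 ≤ y.2 ∧ y.2 < p.2 + C

/-- nonzero vectors of sup-norm at most `U`. -/
def Dir (U : ℕ) (t : Pt) : Prop := t ≠ 0 ∧ Near 0 U t

/-- points of `K` in the open half-plane with outer normal `u`. -/
def below (K : Finset Pt) (u : Pt) : Finset Pt := K.filter (fun z => dot z u < 0)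

/-- `j` is the height of a point of `K` in direction `u`. -/
def Ht (K : Finset Pt) (u : Pt) (j : ℤ) : Prop := ∃ z ∈ K, dot z u = j

/-- Finite lattice-convex sets invariant under the quarter turn, not contained in the origin. -/
structure LatConv (K : Finset Pt) : Prop where
  rot_mem : ∀ z ∈ K, rot z ∈ K
  conv : ∀ p ∈ K, ∀ q ∈ K, ∀ s ∈ K, ∀ (α β γ : ℕ) (w : Pt), 0 < α + β + γ →
    ((α : ℤ) + β + γ) • w = (α : ℤ) • p + (β : ℤ) • q + (γ : ℤ) • s → w ∈ K
  nontriv : ∃ z ∈ K, z ≠ 0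

/-- All that the proof uses about the neighbourhood `K` and the threshold `r`. -/
structure Nice (K : Finset Pt) (r h : ℕ) : Prop where
  hpos : 1 ≤ h
  zero : (0 : Pt) ∈ K
  bdd : ∀ z ∈ K, Near 0 h z
  axis : ∀ F : Finset Pt, F ⊆ K →
    ((∀ z ∈ F, z.1 < 0) ∨ (∀ z ∈ F, 0 < z.1) ∨ (∀ z ∈ F, z.2 < 0) ∨ (∀ z ∈ F, 0 < z.2)) →
    F.card < r
  low : ∀ u : Pt, u ≠ 0 → r ≤ (below K u).card + 1
  tang : ∀ u v : Pt, cross u v = 1 → (below K u).card < r → rot u ∈ K ∧ -rot u ∈ K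
  sq : ∀ u v : Pt, cross u v = 1 → (below K u).card < r →
    ∀ j : ℤ, 0 ≤ j → j ≤ ((h : ℤ) - 1) * (|u.1| + |u.2|) → Ht K u j
  gap : ∀ u v : Pt, cross u v = 1 → (below K u).card < r →
    ∀ η : ℤ, 1 ≤ η → (∃ z ∈ K, η ≤ dot z u) → Ht K u (η - 1) ∨
      ∀ t : Pt, (t = rot u ∨ t = -rot u) → ∀ F : Finset Pt, F ⊆ K →
        (∀ z ∈ F, z ≠ 0 ∧ z ≠ t ∧ (η + dot z u ≤ 0 ∨ ¬ Ht K u (η + dot z u - 1))) → F.card < r

/-! ### Closure in the plane and on the torus -/

/-- Closed subsets of the plane. -/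
def ClosedZ (K : Finset Pt) (r : ℕ) (S : Set Pt) : Prop :=
  ∀ x : Pt, ∀ F : Finset Pt, F ⊆ K → r ≤ F.card → (∀ z ∈ F, x + z ∈ S) → x ∈ S

/-- The least closed superset in the plane. -/
def clZ (K : Finset Pt) (r : ℕ) (A : Set Pt) : Set Pt :=
  {x | ∀ S : Set Pt, ClosedZ K r S → A ⊆ S → x ∈ S}

/-- Closed subsets of the torus. -/
def ClosedT (n : ℕ) (K : Finset Pt) (r : ℕ) (S : Set (Torus n)) : Prop :=
  ∀ x : Torus n, ∀ F : Finset Pt, F ⊆ K → r ≤ F.card → (∀ z ∈ F, x + toTorus n z ∈ S) → x ∈ S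

/-- The least closed superset on the torus. -/
def clT (n : ℕ) (K : Finset Pt) (r : ℕ) (A : Set (Torus n)) : Set (Torus n) :=
  {x | ∀ S : Set (Torus n), ClosedT n K r S → A ⊆ S → x ∈ S}

theorem subset_clZ (K : Finset Pt) (r : ℕ) (A : Set Pt) : A ⊆ clZ K r A :=
  fun _ hx _ _ hA => hA hx

theorem clZ_min {K : Finset Pt} {r : ℕ} {A S : Set Pt} (hS : ClosedZ K r S) (hA : A ⊆ S) :
    clZ K r A ⊆ S := fun _ hx => hx S hS hA

theorem clZ_closed (K : Finset Pt) (r : ℕ) (A : Set Pt) : ClosedZ K r (clZ K r A) :=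
  fun x F hF hr hz S hS hA => hS x F hF hr (fun z hzF => hz z hzF S hS hA)

theorem clZ_mono {K : Finset Pt} {r : ℕ} {A B : Set Pt} (h : A ⊆ B) : clZ K r A ⊆ clZ K r B :=
  clZ_min (clZ_closed K r B) (h.trans (subset_clZ K r B))

theorem subset_clT (n : ℕ) (K : Finset Pt) (r : ℕ) (A : Set (Torus n)) : A ⊆ clT n K r A :=
  fun _ hx _ _ hA => hA hx

theorem clT_min {n : ℕ} {K : Finset Pt} {r : ℕ} {A S : Set (Torus n)} (hS : ClosedT n K r S)
    (hA : A ⊆ S) : clT n K r A ⊆ S := fun _ hx => hx S hS hA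

theorem clT_closed (n : ℕ) (K : Finset Pt) (r : ℕ) (A : Set (Torus n)) :
    ClosedT n K r (clT n K r A) :=
  fun x F hF hr hz S hS hA => hS x F hF hr (fun z hzF => hz z hzF S hS hA)

theorem clT_mono {n : ℕ} {K : Finset Pt} {r : ℕ} {A B : Set (Torus n)} (h : A ⊆ B) :
    clT n K r A ⊆ clT n K r B :=
  clT_min (clT_closed n K r B) (h.trans (subset_clT n K r B))

theorem toTorus_add (n : ℕ) (a b : Pt) : toTorus n (a + b) = toTorus n a + toTorus n b := by
  simp [toTorus]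

theorem toTorus_zero (n : ℕ) : toTorus n 0 = 0 := by
  simp [toTorus]

theorem toTorus_surj (n : ℕ) : Function.Surjective (toTorus n) := by
  rintro ⟨a, b⟩
  obtain ⟨a', rfl⟩ := ZMod.intCast_surjective a
  obtain ⟨b', rfl⟩ := ZMod.intCast_surjective b
  exact ⟨(a', b'), rfl⟩

/-- The closure on the torus lifts to the closure in the plane. -/
theorem preimage_clT (n : ℕ) (K : Finset Pt) (r : ℕ) (A : Set (Torus n)) :
    toTorus n ⁻¹' clT n K r A = clZ K r (toTorus n ⁻¹' A) := by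
  apply Set.Subset.antisymm
  · intro y hy
    have hG : ClosedT n K r {x | ∀ y, toTorus n y = x → y ∈ clZ K r (toTorus n ⁻¹' A)} := by
      intro x F hF hr hz y hy
      refine clZ_closed K r _ y F hF hr (fun z hzF => hz z hzF _ ?_)
      rw [toTorus_add, hy]
    refine clT_min hG ?_ hy y rfl
    intro x hx y hy
    apply subset_clZ
    simpa [hy] using hx
  · apply clZ_min
    · intro x F hF hr hz
      refine clT_closed n K r A _ F hF hr (fun z hzF => ?_)
      rw [← toTorus_add]; exact hz z hzF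
    · exact Set.preimage_mono (subset_clT n K r A)

/-- `p` is the lower left corner of an `h × h` square that misses `S`. -/
def Tsq (S : Set Pt) (h : ℕ) (p : Pt) : Prop := ∀ y, InBox p h y → y ∉ S

/-- the square of side `k` at `y` holds at least `j` points of `A`. -/
def DenseZ (A : Set Pt) (k j : ℕ) (y : Pt) : Prop :=
  ∃ F : Finset Pt, j ≤ F.card ∧ ∀ z ∈ F, InBox y k z ∧ z ∈ A

/-- every progression of length `l` with step of sup-norm at most `U` meets `A`. -/
def LinesZ (U l : ℕ) (A : Set Pt) : Prop :=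
  ∀ x t : Pt, Dir U t → ∃ s : ℕ, s < l ∧ x + (s : ℤ) • t ∈ A

/-- Conclusion of the pinwheel lemma. -/
def PinProp (K : Finset Pt) (r h C R : ℕ) : Prop :=
  ∀ (A : Set Pt) (x : Pt), x ∈ clZ K r A → (∀ y, Near x R y → y ∉ A) →
    ∃ p : Pt, (∀ y, InBox p C y → Near x R y) ∧ ∀ y, InBox p C y → ¬ Tsq (clZ K r A) h y

/-- Conclusion of the droplet lemma: filling a box in a region without healthy squares percolates. -/
def DetProp (K : Finset Pt) (r h U ρ j k C a : ℕ) : Prop :=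
  ∀ (l : ℕ) (A : Set Pt) (o : Pt), (∀ y, Near o C y → ¬ Tsq (clZ K r A) h y) →
    (∀ y, Near o (a * (l + 1)) y → ¬ DenseZ A k j y) → LinesZ U l A →
    clZ K r (A ∪ {y | Near o ρ y}) = Set.univ

/-- Conclusion of the nucleation lemma. -/
def NucProp (K : Finset Pt) (r U a : ℕ) : Prop :=
  ∀ (l L : ℕ) (A : Set Pt) (o : Pt), 1 ≤ L → LinesZ U l A →
    (∀ M : ℕ, L ≤ M → M ≤ a * (l + 1) → ∀ x t : Pt, Near o (a * M) x → Dir U t →
      ∃ s : ℕ, s < M ∧ x + (s : ℤ) • t ∈ A) →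
    (∀ y, Near o (a * L) y → y ∈ A) → clZ K r A = Set.univ

/-! ### Unimodular fans -/

/-- A cyclic sequence of primitive normals fine enough that no vector of sup-norm at most `h`
lies strictly between two consecutive ones, with the levels of a polygon having all its sides. -/
structure Fan (h : ℕ) where
  q : ℕ
  U : ℕ
  u : ℤ → Pt
  κ : ℤ → ℤ
  qpos : 1 ≤ q
  u_zero : u 0 = (1, 0)
  u_rot : ∀ i : ℤ, u (i + q) = rot (u i)
  det : ∀ i, cross (u i) (u (i + 1)) = 1
  pos : ∀ i j : ℤ, i < j → j < i + 2 * q → 0 < cross (u i) (u j)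
  wedge : ∀ (i : ℤ) (z : Pt), Near 0 h z → ¬ (0 < cross (u i) z ∧ 0 < cross z (u (i + 1)))
  bdd : ∀ i, Near 0 U (u i)
  κ_per : ∀ i, κ (i + q) = κ i
  κ_pos : ∀ i, 1 ≤ κ i
  κ_bdd : ∀ i, κ i ≤ U
  κ_len : ∀ i, 1 ≤ κ (i - 1) + κ (i + 1) - cross (u (i - 1)) (u (i + 1)) * κ i

/-! ### Probability -/

open Classical in
/-- indicator of a proposition. -/
noncomputable def ind (P : Prop) : ℝ := if P then 1 else 0

theorem ind_of {P : Prop} (h : P) : ind P = 1 := by simp [ind, h]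

theorem ind_of_not {P : Prop} (h : ¬ P) : ind P = 0 := by simp [ind, h]

theorem ind_nonneg (P : Prop) : 0 ≤ ind P := by
  by_cases h : P
  · rw [ind_of h]; norm_num
  · rw [ind_of_not h]

theorem ind_le_one (P : Prop) : ind P ≤ 1 := by
  by_cases h : P
  · rw [ind_of h]
  · rw [ind_of_not h]; norm_num

theorem ind_mono {P Q : Prop} (h : P → Q) : ind P ≤ ind Q := by
  by_cases hP : P
  · rw [ind_of hP, ind_of (h hP)]
  · rw [ind_of_not hP]; exact ind_nonneg Q

theorem ind_congr {P Q : Prop} (h : P ↔ Q) : ind P = ind Q := by rw [propext h]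

/-- expectation of `f` for the random subset of `E` keeping each point with probability `θ`. -/
noncomputable def Ex {β : Type} (E : Finset β) (θ : ℝ) (f : Finset β → ℝ) : ℝ :=
  ∑ W ∈ E.powerset, θ ^ W.card * (1 - θ) ^ (E.card - W.card) * f W

/-- probability of `P` for a uniformly random subset of size `t`. -/
noncomputable def mu (α : Type) [Fintype α] (t : ℕ) (P : Finset α → Prop) : ℝ :=
  (∑ A ∈ (univ : Finset α).powersetCard t, ind (P A)) / ((Fintype.card α).choose t : ℝ)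

/-! ### Cells on the torus -/

/-- the representative in `[0, n)^2`. -/
def lift {n : ℕ} (x : Torus n) : Pt := ((x.1.val : ℤ), (x.2.val : ℤ))

/-- the square of side `k` at `x` holds at least `j` points of `A`. -/
def DenseT {n : ℕ} (A : Finset (Torus n)) (k j : ℕ) (x : Torus n) : Prop :=
  ∃ F : Finset Pt, j ≤ F.card ∧ ∀ z ∈ F, InBox 0 k z ∧ x + toTorus n z ∈ A

/-- every progression of length `l` with step of sup-norm at most `U` meets `A`. -/
def LinesT {n : ℕ} (U l : ℕ) (A : Finset (Torus n)) : Prop :=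
  ∀ (x : Torus n) (t : Pt), Dir U t → ∃ s : ℕ, s < l ∧ x + toTorus n ((s : ℤ) • t) ∈ A

/-- indices of the blocks of side `g`. -/
def cellIdx (n g : ℕ) : Finset (ℕ × ℕ) := range (n / g) ×ˢ range (n / g)

/-- centre of the cell in block `b`. -/
def ctr (g f ρ : ℕ) (b : ℕ × ℕ) : Pt :=
  (((g * b.1 + f + ρ : ℕ) : ℤ), ((g * b.2 + f + ρ : ℕ) : ℤ))

/-- the cell of block `b`: a square of side `2ρ+1` at distance `f` from the corner of the block. -/
def cell (n : ℕ) [NeZero n] (g f ρ : ℕ) (b : ℕ × ℕ) : Finset (Torus n) :=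
  univ.filter (fun x => g * b.1 + f ≤ x.1.val ∧ x.1.val ≤ g * b.1 + f + 2 * ρ ∧
    g * b.2 + f ≤ x.2.val ∧ x.2.val ≤ g * b.2 + f + 2 * ρ)

/-- the block `b`. -/
def block (n : ℕ) [NeZero n] (g : ℕ) (b : ℕ × ℕ) : Finset (Torus n) :=
  univ.filter (fun x => x.1.val / g = b.1 ∧ x.2.val / g = b.2)

/-- the points of `A` that lie in no cell. -/
def outside {n : ℕ} [NeZero n] (g f ρ : ℕ) (A : Finset (Torus n)) : Finset (Torus n) :=
  A \ (cellIdx n g).biUnion (cell n g f ρ)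

/-- the cells that miss `B`. -/
def emptyCells {n : ℕ} [NeZero n] (g f ρ : ℕ) (B : Finset (Torus n)) : Finset (ℕ × ℕ) :=
  (cellIdx n g).filter (fun b => Disjoint (cell n g f ρ b) B)

/-- `B` together with the cells indexed by `W`. -/
def fill {n : ℕ} [NeZero n] (g f ρ : ℕ) (B : Finset (Torus n)) (W : Finset (ℕ × ℕ)) :
    Finset (Torus n) := B ∪ W.biUnion (cell n g f ρ)

open Classical in
/-- the cells missing `B` whose block, outside the cell, meets the closure of `fill B W`. -/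
noncomputable def touch {n : ℕ} [NeZero n] (K : Finset Pt) (r g f ρ : ℕ) (B : Finset (Torus n))
    (W : Finset (ℕ × ℕ)) : Finset (ℕ × ℕ) :=
  (emptyCells g f ρ B).filter (fun b => ∃ x ∈ block n g b, x ∉ cell n g f ρ b ∧
    x ∈ clT n K r (fill g f ρ B W : Finset (Torus n)))

/-- the set `A(t)` as a finite set. -/
def infF {n : ℕ} [NeZero n] (σ : Order n) (t : ℕ) : Finset (Torus n) :=
  univ.filter (fun x => (σ x : ℕ) ≤ t)

/-- the range of `n` attached to the parameter `y`. -/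
def Scale (y n : ℕ) : Prop := 2 ^ (y ^ 6) ≤ n ∧ n ≤ 2 ^ (y ^ 7)

end Pool.Agent.P.MP_9594ac_pr
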