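import Pool.Agent.P.MP_9594ac_pr.Poly

/-! Pushing the sides of a filled polygon; maximal polygons. -/

namespace Pool.Agent.P.MP_9594ac_pr

open Finset

namespace Fan

variable {h : ℕ} (F : Fan h)

/-- side `i` moved out by one lattice line. -/
def push (c : ℤ → ℤ) (i : ℤ) : ℤ → ℤ := fun j => if (4 * F.q : ℤ) ∣ j - i then c j + 1 else c j

/-- the new lattice line beyond side `i`. -/
def Sd (c : ℤ → ℤ) (i : ℤ) (x : Pt) : Prop :=
  dot x (F.u i) = c i + 1 ∧ dot x (F.u (i - 1)) ≤ c (i - 1) ∧ dot x (F.u (i + 1)) ≤ c (i + 1)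

/-- nothing of `S` can help the new line beyond side `i`. -/
def Buf (K : Finset Pt) (S : Set Pt) (c : ℤ → ℤ) (i : ℤ) : Prop :=
  ∀ x, F.Sd c i x → ∀ z ∈ K, 0 ≤ dot z (F.u i) → x + z ∉ S

/-- first point of the new line. -/
def base (c : ℤ → ℤ) (i : ℤ) : Pt := (c i + 1) • F.t (i - 1) - c (i - 1) • F.t i

theorem push_self (c : ℤ → ℤ) (i : ℤ) : F.push c i i = c i + 1 := by simp [push]

theorem push_ne (c : ℤ → ℤ) {i j : ℤ} (h1 : j ≠ i) (h2 : i - 4 * F.q < j) (h3 : j < i + 4 * F.q) :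
    F.push c i j = c j := by
  have : ¬ (4 * F.q : ℤ) ∣ j - i := by
    intro hd
    have := Int.eq_zero_of_abs_lt_dvd hd (by rw [abs_lt]; constructor <;> linarith)
    omega
  simp [push, this]

theorem le_push (c : ℤ → ℤ) (i j : ℤ) : c j ≤ F.push c i j := by
  simp only [push]; split_ifs <;> omega

theorem push_per {c : ℤ → ℤ} (hp : F.Per c) (i : ℤ) : F.Per (F.push c i) := by
  intro j
  have : ((4 * F.q : ℤ) ∣ j + 4 * F.q - i) ↔ (4 * F.q : ℤ) ∣ j - i := by
    rw [show j + 4 * (F.q : ℤ) - i = j - i + 4 * F.q by ring]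
    exact dvd_add_self_right
  simp only [push, this, hp j]

theorem len_push {c : ℤ → ℤ} (hp : F.Per c) (hc : ∀ k, (F.L0 : ℤ) ≤ F.len c k) {i : ℤ}
    (hi : (F.L1 : ℤ) ≤ F.len c i) (k : ℤ) : (F.L0 : ℤ) ≤ F.len (F.push c i) k := by
  have h1 := F.le_push c i (k - 1)
  have h2 := F.le_push c i (k + 1)
  by_cases hd : (4 * F.q : ℤ) ∣ k - i
  · obtain ⟨m, hm⟩ := hd
    have e : F.len c k = F.len c i := by
      rw [show k = i + 4 * F.q * m by linarith]
      exact per_mul (F.len_per hp) i m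
    have e2 : F.push c i k = c k + 1 := by simp [push, hm]
    have h3 := F.b_le k
    simp only [len, L1] at e hi ⊢
    rw [e2]; push_cast at hi; linarith
  · have e2 : F.push c i k = c k := by simp [push, hd]
    have h3 := hc k
    simp only [len] at h3 ⊢
    rw [e2]; linarith

theorem sd_push {c : ℤ → ℤ} {i : ℤ} {x : Pt} (hx : F.Sd c i x) :
    dot x (F.u i) = F.push c i i ∧ dot x (F.u (i - 1)) ≤ F.push c i (i - 1) ∧
      dot x (F.u (i + 1)) ≤ F.push c i (i + 1) :=
  ⟨by rw [push_self]; exact hx.1, hx.2.1.trans (F.le_push _ _ _), hx.2.2.trans (F.le_push _ _ _)⟩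

theorem L0_nonneg : (0 : ℤ) ≤ F.L0 := Nat.cast_nonneg _

theorem sd_mem_push {c : ℤ → ℤ} (hp : F.Per c) (hc : ∀ k, (F.L0 : ℤ) ≤ F.len c k) {i : ℤ}
    (hi : (F.L1 : ℤ) ≤ F.len c i) {x : Pt} (hx : F.Sd c i x) : x ∈ F.poly (F.push c i) := by
  obtain ⟨h0, h1, h2⟩ := F.sd_push hx
  exact F.side_mem (F.push_per hp i) (fun k => F.L0_nonneg.trans (F.len_push hp hc hi k)) h0 h1 h2

theorem mem_or_sd {c : ℤ → ℤ} (hp : F.Per c) {i : ℤ} {x : Pt} (hx : x ∈ F.poly (F.push c i)) :
    x ∈ F.poly c ∨ F.Sd c i x := by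
  have hq := F.qpos
  by_cases h0 : dot x (F.u i) ≤ c i
  · left
    refine F.mem_poly_of_window hp i (fun j hj hj' => ?_)
    by_cases e : j = i
    · rw [e]; exact h0
    · rw [← F.push_ne c e (by omega) hj']; exact hx j
  · right
    have h1 := hx i
    have h2 := hx (i - 1)
    have h3 := hx (i + 1)
    rw [push_self] at h1
    rw [F.push_ne c (by omega) (by omega) (by omega)] at h2 h3
    exact ⟨by omega, h2, h3⟩

/-- the lower half of the neighbourhood of a point of the new line is inside the polygon. -/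
theorem below_mem {c : ℤ → ℤ} (hp : F.Per c) (hc : ∀ k, (F.L0 : ℤ) ≤ F.len c k) {i : ℤ}
    (hi : (F.L1 : ℤ) ≤ F.len c i) {x : Pt} (hx : F.Sd c i x) {z : Pt} (hz : Near 0 h z)
    (hzi : dot z (F.u i) < 0) : x + z ∈ F.poly c := by
  have hq := F.qpos
  refine F.mem_poly_of_window hp (i - 2 * F.q) (fun j hj hj' => ?_)
  rw [dot_add]
  by_cases hne : j ≤ i - 2 ∨ i + 2 ≤ j
  · obtain ⟨h0, h1, h2⟩ := F.sd_push hx
    have h3 := F.side_deep F.L0_nonneg (F.len_push hp hc hi) h0 h1 h2 hj (by omega) hne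
    rw [F.push_ne c (by omega) (by omega) (by omega)] at h3
    have h4 := (F.dot_le_H hz j).2
    simp only [L0] at h3
    push_cast at h3
    omega
  · have : j = i - 1 ∨ j = i ∨ j = i + 1 := by omega
    rcases this with e | e | e <;> rw [e]
    · have w := F.wedge (i - 1) (rot z) hz.rot
      rw [sub_add_cancel] at w
      have e1 : cross (F.u (i - 1)) (rot z) = dot z (F.u (i - 1)) := by
        simp only [cross, rot, dot]; ring
      have e2 : cross (rot z) (F.u i) = -dot z (F.u i) := by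
        simp only [cross, rot, dot]; ring
      have := hx.2.1
      omega
    · have := hx.1; omega
    · have w := F.wedge i (-rot z) hz.rot.neg
      have e1 : cross (F.u i) (-rot z) = -dot z (F.u i) := by
        simp only [cross, rot, dot, Prod.fst_neg, Prod.snd_neg]; ring
      have e2 : cross (-rot z) (F.u (i + 1)) = dot z (F.u (i + 1)) := by
        simp only [cross, rot, dot, Prod.fst_neg, Prod.snd_neg]; ring
      have := hx.2.2
      omega

theorem dot_base_self (c : ℤ → ℤ) (i : ℤ) : dot (F.base c i) (F.u i) = c i + 1 := by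
  have := F.dot_t_succ (i - 1)
  rw [sub_add_cancel] at this
  rw [base, dot_sub, dot_smul, dot_smul, dot_t_self, this]; ring

theorem dot_base_pred (c : ℤ → ℤ) (i : ℤ) : dot (F.base c i) (F.u (i - 1)) = c (i - 1) := by
  rw [base, dot_sub, dot_smul, dot_smul, dot_t_self, dot_t_pred]; ring

theorem dot_base_succ (c : ℤ → ℤ) (i : ℤ) :
    dot (F.base c i) (F.u (i + 1)) = c (i + 1) - (F.len c i - F.b i) := by
  have := F.gap_rel c (F.base c i) i
  rw [dot_base_self, dot_base_pred] at this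
  linarith

theorem sd_base (c : ℤ → ℤ) (i s : ℤ) (hs : 0 ≤ s) (hs' : s ≤ F.len c i - F.b i) :
    F.Sd c i (F.base c i + s • F.t i) := by
  refine ⟨?_, ?_, ?_⟩
  · rw [dot_add, dot_smul, dot_t_self, dot_base_self]; ring
  · rw [dot_add, dot_smul, dot_t_pred, dot_base_pred]; linarith
  · rw [dot_add, dot_smul, dot_t_succ, dot_base_succ]; linarith

theorem sd_eq {c : ℤ → ℤ} {i : ℤ} {x : Pt} (hx : F.Sd c i x) :
    ∃ s : ℤ, 0 ≤ s ∧ s ≤ F.len c i - F.b i ∧ x = F.base c i + s • F.t i := by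
  refine ⟨c (i - 1) - dot x (F.u (i - 1)), by linarith [hx.2.1], ?_, ?_⟩
  · have := F.gap_rel c x i
    rw [hx.1] at this
    linarith [hx.2.2]
  · have := F.coords' c x i
    rw [hx.1] at this
    refine this.trans ?_
    simp only [vtx, base, sub_add_cancel]
    module

variable {K : Finset Pt} {r : ℕ}

/-- one more infected neighbour infects a point of the new line. -/
theorem sd_infect (hN : Nice K r h) {S : Set Pt} (hS : ClosedZ K r S) {c : ℤ → ℤ} (hp : F.Per c)
    (hc : ∀ k, (F.L0 : ℤ) ≤ F.len c k) (hcS : F.poly c ⊆ S) {i : ℤ} (hi : (F.L1 : ℤ) ≤ F.len c i)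
    {x : Pt} (hx : F.Sd c i x) {z : Pt} (hz : z ∈ K) (hzi : 0 ≤ dot z (F.u i)) (hxz : x + z ∈ S) :
    x ∈ S := by
  have hnz : z ∉ below K (F.u i) := by
    simp only [below, mem_filter, not_and, not_lt]; exact fun _ => hzi
  refine hS x (insert z (below K (F.u i))) (insert_subset hz (filter_subset _ _)) ?_ ?_
  · rw [card_insert_of_notMem hnz]; exact hN.low _ (F.u_ne i)
  · intro w hw
    rcases mem_insert.1 hw with e | e
    · rw [e]; exact hxz
    · obtain ⟨h1, h2⟩ := mem_filter.1 e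
      exact hcS (F.below_mem hp hc hi hx (hN.bdd w h1) h2)

/-- a long side can be pushed or is buffered. -/
theorem push_or_buf (hN : Nice K r h) {S : Set Pt} (hS : ClosedZ K r S) {c : ℤ → ℤ} (hp : F.Per c)
    (hc : ∀ k, (F.L0 : ℤ) ≤ F.len c k) (hcS : F.poly c ⊆ S) {i : ℤ}
    (hi : (F.L1 : ℤ) ≤ F.len c i) :
    F.poly (F.push c i) ⊆ S ∨ ((below K (F.u i)).card < r ∧ F.Buf K S c i) := by
  have fin : (∀ x, F.Sd c i x → x ∈ S) → F.poly (F.push c i) ⊆ S := fun hh x hx =>
    (F.mem_or_sd hp hx).elim (fun h1 => hcS h1) (hh x)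
  by_cases hst : (below K (F.u i)).card < r
  · by_cases hb : F.Buf K S c i
    · exact Or.inr ⟨hst, hb⟩
    left
    apply fin
    simp only [Buf, not_forall, not_not] at hb
    obtain ⟨x₀, hx₀, z₀, hz₀, hzi, hxz⟩ := hb
    have h0 : x₀ ∈ S := F.sd_infect hN hS hp hc hcS hi hx₀ hz₀ hzi hxz
    obtain ⟨s₀, hs₀, hs₀', rfl⟩ := F.sd_eq hx₀
    obtain ⟨ht, ht'⟩ := hN.tang (F.u i) (F.u (i + 1)) (F.det i) hst
    have up : ∀ n : ℕ, s₀ + n ≤ F.len c i - F.b i → F.base c i + (s₀ + n) • F.t i ∈ S := by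
      intro n
      induction n with
      | zero => intro _; simpa using h0
      | succ n ih =>
        intro hn
        push_cast at hn ⊢
        refine F.sd_infect hN hS hp hc hcS hi (F.sd_base c i _ (by omega) hn) ht' ?_ ?_
        · have := F.dot_t_self i
          rw [t] at this
          rw [dot_neg, this]; simp
        · have := ih (by omega)
          convert this using 1
          simp only [t]; module
    have down : ∀ n : ℕ, 0 ≤ s₀ - n → F.base c i + (s₀ - n) • F.t i ∈ S := by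
      intro n
      induction n with
      | zero => intro _; simpa using h0
      | succ n ih =>
        intro hn
        push_cast at hn ⊢
        refine F.sd_infect hN hS hp hc hcS hi (F.sd_base c i _ hn (by omega)) ht ?_ ?_
        · exact (F.dot_t_self i).ge
        · have := ih (by omega)
          convert this using 1
          simp only [t]; module
    intro x hx
    obtain ⟨s, hs, hs', rfl⟩ := F.sd_eq hx
    rcases le_total s₀ s with hle | hle
    · obtain ⟨n, hn⟩ := Int.eq_ofNat_of_zero_le (a := s - s₀) (by omega)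
      rw [show s = s₀ + n by omega]
      exact up n (by omega)
    · obtain ⟨n, hn⟩ := Int.eq_ofNat_of_zero_le (a := s₀ - s) (by omega)
      rw [show s = s₀ - n by omega]
      exact down n (by omega)
  · left
    apply fin
    intro x hx
    refine hS x (below K (F.u i)) (filter_subset _ _) (not_lt.1 hst) (fun w hw => ?_)
    obtain ⟨h1, h2⟩ := mem_filter.1 hw
    exact hcS (F.below_mem hp hc hi hx (hN.bdd w h1) h2)

/-- a maximal filled polygon below given caps. -/
theorem exists_max (hN : Nice K r h) {S : Set Pt} (hS : ClosedZ K r S) {c₀ cap : ℤ → ℤ}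
    (hp₀ : F.Per c₀) (hcap : F.Per cap) (hle : ∀ i, c₀ i ≤ cap i)
    (hc₀ : ∀ k, (F.L0 : ℤ) ≤ F.len c₀ k) (hS₀ : F.poly c₀ ⊆ S) :
    ∃ c, F.Per c ∧ (∀ k, (F.L0 : ℤ) ≤ F.len c k) ∧ F.poly c ⊆ S ∧ (∀ i, c₀ i ≤ c i) ∧
      (∀ i, c i ≤ cap i) ∧ ∀ i, (F.L1 : ℤ) ≤ F.len c i → c i < cap i →
        (below K (F.u i)).card < r ∧ F.Buf K S c i := by
  obtain ⟨m, ⟨c, ⟨hp, hc, hcS, h0, h1⟩, hm⟩, hmax⟩ := Int.exists_greatest_of_bdd
    (P := fun m => ∃ c : ℤ → ℤ, (F.Per c ∧ (∀ k, (F.L0 : ℤ) ≤ F.len c k) ∧ F.poly c ⊆ S ∧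
      (∀ i, c₀ i ≤ c i) ∧ ∀ i, c i ≤ cap i) ∧ m = ∑ j ∈ Ico (0 : ℤ) (4 * F.q), c j)
    ⟨∑ j ∈ Ico (0 : ℤ) (4 * F.q), cap j, by
      rintro m ⟨c, ⟨_, _, _, _, h1⟩, rfl⟩
      exact sum_le_sum (fun j _ => h1 j)⟩
    ⟨_, c₀, ⟨hp₀, hc₀, hS₀, fun _ => le_rfl, hle⟩, rfl⟩
  refine ⟨c, hp, hc, hcS, h0, h1, fun i hi hci => ?_⟩
  rcases F.push_or_buf hN hS hp hc hcS hi with hpush | hb
  · exfalso
    have h2 : ∀ j, F.push c i j ≤ cap j := by
      intro j
      simp only [push]
      split_ifs with hd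
      · obtain ⟨k, hk⟩ := hd
        rw [show j = i + 4 * F.q * k by linarith, per_mul hp, per_mul hcap]
        omega
      · exact h1 j
    have h3 := hmax _ ⟨F.push c i, ⟨F.push_per hp i, F.len_push hp hc hi, hpush,
      fun j => (h0 j).trans (F.le_push c i j), h2⟩, rfl⟩
    obtain ⟨j, k, hj, hj0, hj1⟩ := F.reduce 0 i
    have h4 : ∑ j ∈ Ico (0 : ℤ) (4 * F.q), c j < ∑ j ∈ Ico (0 : ℤ) (4 * F.q), F.push c i j := by
      refine sum_lt_sum (fun j _ => F.le_push c i j) ⟨j, mem_Ico.2 ⟨hj0, by omega⟩, ?_⟩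
      have : (4 * F.q : ℤ) ∣ j - i := ⟨-k, by rw [hj]; ring⟩
      simp [push, this]
    omega
  · exact hb

/-- a point of the polygon close to the line of side `j` is close to the vertex `j`. -/
theorem near_vtx {c : ℤ → ℤ} {y : Pt} (hy : y ∈ F.poly c) {j : ℤ} {d₁ d₂ : ℕ}
    (h1 : c j - dot y (F.u j) ≤ d₁) (h2 : c (j + 1) - dot y (F.u (j + 1)) ≤ d₂) :
    Near (F.vtx c j) ((d₂ + d₁) * F.U) y := by
  have a1 := hy j
  have a2 := hy (j + 1)
  have n1 : Near 0 (d₂ * F.U) ((-(c (j + 1) - dot y (F.u (j + 1)))) • F.t j) :=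
    near_smul (by omega) (by omega) (F.t_bdd _)
  have n2 : Near 0 (d₁ * F.U) ((c j - dot y (F.u j)) • F.t (j + 1)) :=
    near_smul (by omega) (by omega) (F.t_bdd _)
  have n3 := (near_add (x := F.vtx c j) n1).trans (near_add n2)
  rw [← Nat.add_mul, neg_smul, ← sub_eq_add_neg, ← F.coords c y j] at n3
  exact n3

/-- if a cap is reached and the other sides are short, the polygon holds a large box. -/
theorem cap_box (hh : 1 ≤ h) {c : ℤ → ℤ} {o : Pt} {M M' Λ : ℕ} (hp : F.Per c)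
    (hc : ∀ k, 0 ≤ F.len c k) (ho : o ∈ F.poly c) (hle : ∀ i, c i ≤ dot o (F.u i) + M')
    (hΛ : ∀ i, c i < dot o (F.u i) + M' → F.len c i ≤ Λ) (hcap : ∃ i, c i = dot o (F.u i) + M')
    (hM : 2 * (M + (Λ + F.B * F.H + F.H) * F.U + 4 * F.q * (Λ * F.U)) * F.U + F.H < M') :
    ∀ y, Near o M y → y ∈ F.poly c := by
  have hstep : ∀ y ∈ F.poly c, Near o M y → ∀ e, Near 0 h e → y + e ∈ F.poly c := by
    intro y hy hoy e he j
    by_contra hcon
    rw [dot_add] at hcon
    have h1 := (F.dot_le_H he j).2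
    have h2 := hy j
    have h3 := (dot_bounds (near_sub hoy) (F.bdd j)).2
    rw [dot_sub] at h3
    have hM' : (2 * ((M : ℤ) + (Λ + F.B * F.H + F.H) * F.U + 4 * F.q * (Λ * F.U)) * F.U + F.H : ℤ)
        < M' := by exact_mod_cast hM
    have hpos : (0 : ℤ) ≤ ((Λ + F.B * F.H + F.H) * F.U + 4 * F.q * (Λ * F.U)) * F.U := by
      positivity
    rcases eq_or_lt_of_le (hle j) with hj | hj
    · nlinarith
    · have h4 := hΛ j hj
      have h5 := F.gap_rel c y j
      have h6 := hy (j - 1)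
      have h7 : F.b j * (c j - dot y (F.u j)) ≤ F.B * F.H :=
        mul_le_mul (F.b_le j) (by omega) (by omega) (Nat.cast_nonneg _)
      have h8 := F.near_vtx hy (j := j) (d₁ := F.H) (d₂ := Λ + F.B * F.H) (by omega)
        (by push_cast; omega)
      obtain ⟨i₀, hi₀⟩ := hcap
      obtain ⟨i₁, k, hk, hk0, hk1⟩ := F.reduce (j + 1) i₀
      rw [hk, per_mul hp, per_mul F.u_per] at hi₀
      obtain ⟨n₁, hn₁⟩ := Int.eq_ofNat_of_zero_le (a := i₁ - (j + 1)) (by omega)
      have hex : ∃ n : ℕ, c (j + 1 + n) = dot o (F.u (j + 1 + n)) + M' :=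
        ⟨n₁, by rw [show j + 1 + (n₁ : ℤ) = i₁ by omega]; exact hi₀⟩
      have hn₀ := Nat.find_spec hex
      have hn₀' : Nat.find hex ≤ n₁ :=
        Nat.find_min' hex (by rw [show j + 1 + (n₁ : ℤ) = i₁ by omega]; exact hi₀)
      set n₀ := Nat.find hex with hn₀def
      have h9 := F.vtx_near (Λ := Λ) hc j n₀ (fun k hk hk' => by
        obtain ⟨n, hn⟩ := Int.eq_ofNat_of_zero_le (a := k - (j + 1)) (by omega)
        have h10 := Nat.find_min hex (m := n) (by omega)
        rw [show j + 1 + (n : ℤ) = k by omega] at h10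
        exact hΛ k (lt_of_le_of_ne (hle k) h10))
      have h10 : n₀ * (Λ * F.U) ≤ 4 * F.q * (Λ * F.U) := Nat.mul_le_mul_right _ (by omega)
      have h11 := (hoy.trans h8.symm).trans (h9.mono h10)
      have h12 := (dot_bounds (near_sub h11) (F.bdd (j + n₀ + 1))).2
      rw [dot_sub, dot_vtx_succ, show j + (n₀ : ℤ) + 1 = j + 1 + n₀ by ring, hn₀] at h12
      push_cast at h12
      have := Nat.cast_nonneg (α := ℤ) F.H
      linarith
  have key : ∀ d : ℕ, ∀ y : Pt, (y.1 - o.1).natAbs + (y.2 - o.2).natAbs = d → Near o M y →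
      y ∈ F.poly c := by
    intro d
    induction d with
    | zero =>
      intro y hy _
      have : y = o := Prod.ext (by omega) (by omega)
      rw [this]; exact ho
    | succ d ih =>
      intro y hy hoy
      have aux : ∀ e : Pt, Near 0 h e → ((y - e).1 - o.1).natAbs + ((y - e).2 - o.2).natAbs = d →
          Near o M (y - e) → y ∈ F.poly c := fun e he h1 h2 => by
        have := hstep (y - e) (ih _ h1 h2) h2 e he
        rwa [sub_add_cancel] at this
      simp only [Near] at hoy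
      rcases lt_trichotomy y.1 o.1 with h1 | h1 | h1
      · apply aux (-1, 0) <;>
          simp only [Near, Prod.fst_sub, Prod.snd_sub, Prod.fst_zero, Prod.snd_zero] <;> omega
      · rcases lt_trichotomy y.2 o.2 with h2 | h2 | h2
        · apply aux (0, -1) <;>
            simp only [Near, Prod.fst_sub, Prod.snd_sub, Prod.fst_zero, Prod.snd_zero] <;> omega
        · omega
        · apply aux (0, 1) <;>
            simp only [Near, Prod.fst_sub, Prod.snd_sub, Prod.fst_zero, Prod.snd_zero] <;> omega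
      · apply aux (1, 0) <;>
          simp only [Near, Prod.fst_sub, Prod.snd_sub, Prod.fst_zero, Prod.snd_zero] <;> omega
  exact fun y hy => key _ y rfl hy

theorem len_start (o : Pt) (L : ℤ) (hL : 0 ≤ L) (i : ℤ) :
    L ≤ F.len (fun j => dot o (F.u j) + L * F.κ j) i := by
  have h1 := F.gap_rel (fun j => dot o (F.u j) + L * F.κ j) o i
  have h2 := F.κ_len i
  rw [← h1]
  simp only [b]
  nlinarith [mul_le_mul_of_nonneg_left h2 hL]

/-- a closed set that holds a box, meets all long progressions and is not everything contains a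
bounded polygon all of whose long sides are buffered. -/
theorem trap (hN : Nice K r h) {S : Set Pt} (hS : ClosedZ K r S) (o : Pt) (L l : ℕ)
    (hL : F.L0 ≤ L) (hfill : ∀ y, Near o (L * F.U) y → y ∈ S) (hl : LinesZ F.U l S)
    (hne : S ≠ Set.univ) :
    ∃ c, F.Per c ∧ F.poly c ⊆ S ∧ (∀ i, dot o (F.u i) + L ≤ c i) ∧
      (∀ i, (F.L0 : ℤ) ≤ F.len c i) ∧ (∀ i, F.len c i ≤ (l + F.L1 : ℕ)) ∧
      ∀ i, (F.L1 : ℤ) ≤ F.len c i → (below K (F.u i)).card < r ∧ F.Buf K S c i := by
  obtain ⟨y₀, hy₀⟩ := (Set.ne_univ_iff_exists_notMem S).1 hne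
  set M : ℕ := (y₀.1 - o.1).natAbs + (y₀.2 - o.2).natAbs with hMdef
  have hoy : Near o M y₀ := by simp only [Near]; omega
  set Λ : ℕ := l + F.L1 with hΛdef
  set M' : ℕ := 2 * (M + (Λ + F.B * F.H + F.H) * F.U + 4 * F.q * (Λ * F.U)) * F.U + F.H + 1 +
    L * F.U with hM'
  have hL0 : (0 : ℤ) ≤ L := Nat.cast_nonneg L
  have hκ : ∀ i, (L : ℤ) ≤ L * F.κ i ∧ (L : ℤ) * F.κ i ≤ (L * F.U : ℕ) := fun i =>
    ⟨le_mul_of_one_le_right hL0 (F.κ_pos i), by
      push_cast; exact mul_le_mul_of_nonneg_left (F.κ_bdd i) hL0⟩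
  obtain ⟨c, hp, hc, hcS, h0, h1, hb⟩ := F.exists_max hN hS
    (c₀ := fun j => dot o (F.u j) + L * F.κ j) (cap := fun j => dot o (F.u j) + M')
    (fun i => by
      have := per_mul F.κ_per i 4
      rw [mul_comm] at this
      simp only [F.u_per, this])
    (fun i => by simp only [F.u_per])
    (fun i => by have := (hκ i).2; omega)
    (fun k => le_trans (by exact_mod_cast hL) (F.len_start o L hL0 k))
    (fun y hy => by
      apply hfill
      have a := F.axis_of_mem hy
      have k0 := (hκ 0).2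
      have k1 := (hκ F.q).2
      have k2 := (hκ (2 * F.q)).2
      have k3 := (hκ (F.q + 2 * F.q)).2
      simp only [F.u_zero, F.u_q, F.u_2q, F.u_3q, dot] at a
      simp only [Near]
      omega)
  have h0' : ∀ i, dot o (F.u i) + L ≤ c i := fun i => by
    have := (hκ i).1; have := h0 i; omega
  have hshort : ∀ i, c i < dot o (F.u i) + M' → F.len c i ≤ Λ := by
    intro i hi
    by_contra hcon
    obtain ⟨_, hbuf⟩ := hb i (by omega) hi
    obtain ⟨s, hs, hmem⟩ := hl (F.base c i) (F.t i) (F.t_dir i)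
    have h2 := F.b_le i
    have h3 : F.L1 = F.L0 + F.B := rfl
    refine hbuf _ (F.sd_base c i s (by omega) (by omega)) 0 hN.zero (by rw [dot_zero]) ?_
    simpa using hmem
  by_cases hcap : ∃ i, c i = dot o (F.u i) + M'
  · exfalso
    apply hy₀
    apply hcS
    exact F.cap_box hN.hpos hp (fun k => F.L0_nonneg.trans (hc k))
      (fun i => by have := h0' i; omega) h1 hshort hcap (by omega) y₀ hoy
  · have hlt : ∀ i, c i < dot o (F.u i) + M' := fun i =>
      lt_of_le_of_ne (h1 i) (fun e => hcap ⟨i, e⟩)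
    exact ⟨c, hp, hcS, h0', hc, fun i => hshort i (hlt i), fun i hi => hb i hi (hlt i)⟩

end Fan

end Pool.Agent.P.MP_9594ac_pr
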