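import Pool.Agent.P.MP_9594ac_pr.Merge
import Pool.Agent.P.MP_9594ac_pr.Trap

/-! Buffers, isolation of a maximal polygon, the droplet lemma and the nucleation lemma. -/

namespace Pool.Agent.P.MP_9594ac_pr

open Finset Filter

namespace Fan

variable {h : ℕ} (F : Fan h) {K : Finset Pt} {r : ℕ}

theorem buf_height (hN : Nice K r h) {S : Set Pt} {c : ℤ → ℤ} {i : ℤ} (hb : F.Buf K S c i)
    {y : Pt} (h0 : c i + 1 ≤ dot y (F.u i)) (hH : Ht K (F.u i) (dot y (F.u i) - c i - 1))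
    (h1 : dot y (F.u (i - 1)) + F.H ≤ c (i - 1)) (h2 : dot y (F.u (i + 1)) + F.H ≤ c (i + 1)) :
    y ∉ S := by
  obtain ⟨z, hz, hzi⟩ := hH
  have b1 := (F.dot_le_H (hN.bdd z hz) (i - 1)).1
  have b2 := (F.dot_le_H (hN.bdd z hz) (i + 1)).1
  have := hb (y - z) ⟨by rw [dot_sub]; omega, by rw [dot_sub]; omega, by rw [dot_sub]; omega⟩ z hz
    (by omega)
  rwa [sub_add_cancel] at this

theorem sign_aux (h : ℕ) (u w : ℤ) (h1 : 0 ≤ u → 0 ≤ w ∧ w ≤ (h : ℤ) - 1)
    (h2 : u < 0 → -((h : ℤ) - 1) ≤ w ∧ w ≤ 0) : 0 ≤ w * u ∧ w * u ≤ ((h : ℤ) - 1) * |u| := by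
  rcases le_or_gt 0 u with hu | hu
  · obtain ⟨a, b⟩ := h1 hu
    rw [abs_of_nonneg hu]
    exact ⟨mul_nonneg a hu, mul_le_mul_of_nonneg_right b hu⟩
  · obtain ⟨a, b⟩ := h2 hu
    rw [abs_of_neg hu]
    constructor <;> nlinarith

/-- a buffer holds a healthy square next to the polygon. -/
theorem buf_square (hN : Nice K r h) {S : Set Pt} {c : ℤ → ℤ} (hp : F.Per c)
    (hc : ∀ k, (F.L0 : ℤ) ≤ F.len c k) {i : ℤ} (hi : (F.L1 : ℤ) ≤ F.len c i)
    (hst : (below K (F.u i)).card < r) (hb : F.Buf K S c i) :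
    ∃ y ∈ F.poly c, ∃ p, Near y h p ∧ Tsq S h p := by
  have hh := hN.hpos
  have hb1 := F.b_le i
  have hL1 : (F.L1 : ℤ) = 4 * F.H + F.B := by simp only [L1, L0]; push_cast; ring
  have hH : (0 : ℤ) ≤ F.H := Nat.cast_nonneg _
  set x₀ := F.base c i + (2 * F.H : ℤ) • F.t i with hx₀
  have hsd : F.Sd c i x₀ := F.sd_base c i _ (by omega) (by omega)
  have e1 : dot x₀ (F.u (i - 1)) = c (i - 1) - 2 * F.H := by
    rw [hx₀, dot_add, dot_smul, dot_t_pred, dot_base_pred]; ring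
  have e2 : dot x₀ (F.u (i + 1)) = c (i + 1) - (F.len c i - F.b i) + 2 * F.H := by
    rw [hx₀, dot_add, dot_smul, dot_t_succ, dot_base_succ]; ring
  have hu := F.u_ne i
  refine ⟨x₀ + (if 0 ≤ (F.u i).1 then -1 else 1, if 0 ≤ (F.u i).2 then -1 else 1),
    F.below_mem hp hc hi hsd ?_ ?_,
    (if 0 ≤ (F.u i).1 then x₀.1 else x₀.1 - (h - 1), if 0 ≤ (F.u i).2 then x₀.2 else x₀.2 - (h - 1)),
    ?_, ?_⟩
  · simp only [Near, Prod.fst_zero, Prod.snd_zero]
    split_ifs <;> omega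
  · simp only [Ne, Prod.ext_iff, Prod.fst_zero, Prod.snd_zero] at hu
    simp only [dot]
    split_ifs <;> omega
  · simp only [Near, Prod.fst_add, Prod.snd_add]
    split_ifs <;> omega
  · intro y hy
    have hw : Near 0 h (y - x₀) := by
      simp only [InBox] at hy
      simp only [Near, Prod.fst_zero, Prod.snd_zero, Prod.fst_sub, Prod.snd_sub]
      split_ifs at hy <;> omega
    have s1 := sign_aux h (F.u i).1 (y.1 - x₀.1)
      (fun hh => by simp only [InBox, if_pos hh] at hy; omega)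
      (fun hh => by simp only [InBox, if_neg (not_le.2 hh)] at hy; omega)
    have s2 := sign_aux h (F.u i).2 (y.2 - x₀.2)
      (fun hh => by simp only [InBox, if_pos hh] at hy; omega)
      (fun hh => by simp only [InBox, if_neg (not_le.2 hh)] at hy; omega)
    have e3 : dot y (F.u i) - c i - 1 = (y.1 - x₀.1) * (F.u i).1 + (y.2 - x₀.2) * (F.u i).2 := by
      have := hsd.1
      simp only [dot] at this ⊢
      linarith
    have b1 := (F.dot_le_H hw (i - 1)).2
    have b2 := (F.dot_le_H hw (i + 1)).2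
    rw [dot_sub] at b1 b2
    refine F.buf_height hN hb (by omega) ?_ (by omega) (by omega)
    rw [e3]
    exact hN.sq _ _ (F.det i) hst _ (by omega) (by linarith [s1.2, s2.2])

/-- an infected point in a buffer is next to an initially infected point. -/
theorem buf_gap (hN : Nice K r h) {A : Set Pt} {c : ℤ → ℤ} {i : ℤ}
    (hst : (below K (F.u i)).card < r) (hb : F.Buf K (clZ K r A) c i) {y : Pt}
    (h0 : c i + 1 ≤ dot y (F.u i)) (hz : ∃ z ∈ K, dot y (F.u i) - c i ≤ dot z (F.u i))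
    (h1 : dot y (F.u (i - 1)) + 3 * F.H ≤ c (i - 1))
    (h2 : dot y (F.u (i + 1)) + 3 * F.H ≤ c (i + 1)) (hy : y ∈ clZ K r A) :
    y ∈ A ∨ y + F.t i ∈ A := by
  have hH : (0 : ℤ) ≤ F.H := Nat.cast_nonneg _
  rcases hN.gap _ _ (F.det i) hst (dot y (F.u i) - c i) (by omega) hz with hg | hg
  · exact absurd hy (F.buf_height hN hb h0 hg (by omega) (by omega))
  by_contra hcon
  rw [not_or] at hcon
  have ht : Near 0 h (F.t i) := hN.bdd _ (hN.tang _ _ (F.det i) hst).1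
  have t1 := (F.dot_le_H ht (i - 1)).2
  have t2 := (F.dot_le_H ht (i + 1)).2
  have aux : ∀ x z : Pt, dot x (F.u i) = dot y (F.u i) →
      dot x (F.u (i - 1)) + 2 * F.H ≤ c (i - 1) → dot x (F.u (i + 1)) + 2 * F.H ≤ c (i + 1) →
      z ∈ K → x + z ∈ clZ K r A → dot y (F.u i) - c i + dot z (F.u i) ≤ 0 ∨
        ¬ Ht K (F.u i) (dot y (F.u i) - c i + dot z (F.u i) - 1) := by
    intro x z e a1 a2 hzK hm
    by_contra hc
    rw [not_or, not_not] at hc
    have b1 := (F.dot_le_H (hN.bdd z hzK) (i - 1)).2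
    have b2 := (F.dot_le_H (hN.bdd z hzK) (i + 1)).2
    refine F.buf_height hN hb (y := x + z) (by rw [dot_add]; omega) ?_
      (by rw [dot_add]; omega) (by rw [dot_add]; omega) hm
    rw [dot_add, e, show dot y (F.u i) + dot z (F.u i) - c i - 1 =
      dot y (F.u i) - c i + dot z (F.u i) - 1 by ring]
    exact hc.2
  have hG : ClosedZ K r {x | x ∈ clZ K r A ∧ x ≠ y ∧ x ≠ y + F.t i} := by
    intro x G hG hr hx
    refine ⟨clZ_closed K r A x G hG hr (fun z hz => (hx z hz).1), ?_, ?_⟩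
    · rintro rfl
      refine absurd (hg (F.t i) (Or.inl rfl) G hG (fun z hz => ⟨?_, ?_, ?_⟩)) (not_lt.2 hr)
      · rintro rfl; exact (hx _ hz).2.1 (add_zero _)
      · rintro rfl; exact (hx _ hz).2.2 rfl
      · exact aux x z rfl (by omega) (by omega) (hG hz) (hx z hz).1
    · rintro rfl
      refine absurd (hg (-F.t i) (Or.inr rfl) G hG (fun z hz => ⟨?_, ?_, ?_⟩)) (not_lt.2 hr)
      · rintro rfl; exact (hx _ hz).2.2 (add_zero _)
      · rintro rfl; exact (hx _ hz).2.1 (add_neg_cancel_right _ _)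
      · refine aux (y + F.t i) z ?_ ?_ ?_ (hG hz) (hx z hz).1
        · rw [dot_add, dot_t_self, add_zero]
        · rw [dot_add]; omega
        · rw [dot_add]; omega
  have := clZ_min hG (A := A) (fun x hx => ⟨subset_clZ K r A hx, fun e => hcon.1 (e ▸ hx),
    fun e => hcon.2 (e ▸ hx)⟩) hy
  exact this.2.1 rfl

/-- radius of the zones around the vertices, in units of `U`. -/
def C1 : ℕ := F.L1 + F.B * F.H + 4 * F.H

/-- a polygon whose long sides are buffered is generated by what is near it. -/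
theorem isolate (hN : Nice K r h) {A G : Set Pt} {c : ℤ → ℤ} (hcS : F.poly c ⊆ clZ K r A)
    (hb : ∀ i, (F.L1 : ℤ) ≤ F.len c i → (below K (F.u i)).card < r ∧ F.Buf K (clZ K r A) c i)
    (hG : ClosedZ K r G) (hv : ∀ i y, Near (F.vtx c i) ((F.C1 + F.H) * F.U) y → y ∈ G)
    (hA : ∀ x ∈ F.poly c, ∀ y p, Near x h y → Near y F.U p → p ∈ A → y ∈ G) :
    F.poly c ⊆ G := by
  have hcl : ClosedZ K r {x | x ∈ clZ K r A ∧ (x ∈ F.poly c → x ∈ G)} := by
    intro x W hW hr hx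
    refine ⟨clZ_closed K r A x W hW hr (fun z hz => (hx z hz).1), fun hxp => ?_⟩
    by_cases hnear : ∃ i, Near (F.vtx c i) ((F.C1 + F.H) * F.U) x
    · obtain ⟨i, hi⟩ := hnear
      exact hv i x hi
    refine hG x W hW hr (fun z hz => ?_)
    by_cases hzp : x + z ∈ F.poly c
    · exact (hx z hz).2 hzp
    obtain ⟨j, hj⟩ := not_forall.1 hzp
    have hzb := hN.bdd z (hW hz)
    rw [dot_add] at hj
    have b0 := (F.dot_le_H hzb j).2
    have b1 := (F.dot_le_H hzb (j - 1)).2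
    have b2 := (F.dot_le_H hzb (j + 1)).2
    have d0 := hxp j
    have d1 : (F.C1 : ℤ) < c (j - 1) - dot x (F.u (j - 1)) := by
      by_contra hcon
      have := F.near_vtx hxp (j := j - 1) (d₁ := F.C1) (d₂ := F.H) (by omega)
        (by rw [sub_add_cancel]; omega)
      rw [add_comm] at this
      exact hnear ⟨_, this⟩
    have d2 : (F.C1 : ℤ) < c (j + 1) - dot x (F.u (j + 1)) := by
      by_contra hcon
      exact hnear ⟨_, F.near_vtx hxp (j := j) (d₁ := F.H) (d₂ := F.C1) (by omega) (by omega)⟩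
    have g1 := F.gap_rel c x j
    have g2 : F.b j * (c j - dot x (F.u j)) ≤ F.B * F.H :=
      mul_le_mul (F.b_le j) (by omega) (by omega) (Nat.cast_nonneg _)
    have g3 : (F.C1 : ℤ) = F.L1 + F.B * F.H + 4 * F.H := by simp only [C1]; push_cast; ring
    have g4 : (0 : ℤ) ≤ F.B * F.H := by positivity
    obtain ⟨hst, hbuf⟩ := hb j (by omega)
    rcases F.buf_gap hN hst hbuf (y := x + z) (by rw [dot_add]; omega)
      ⟨z, hW hz, by rw [dot_add]; omega⟩ (by rw [dot_add]; omega) (by rw [dot_add]; omega)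
      (hx z hz).1 with h1 | h1
    · exact hA x hxp _ _ (near_add hzb) (Near.refl _ _) h1
    · exact hA x hxp _ _ (near_add hzb) (near_add (F.t_bdd j)) h1
  intro x hx
  exact (clZ_min hcl (fun y hy => ⟨subset_clZ K r A hy, fun hyp =>
    hA y hyp y y (Near.refl _ _) (Near.refl _ _) hy⟩) (hcS hx)).2 hx

theorem width_ge {c : ℤ → ℤ} {o : Pt} {L : ℤ} (h0 : ∀ i, dot o (F.u i) + L ≤ c i) :
    2 * L ≤ c 0 + c (2 * F.q) := by
  have e0 := h0 0
  have e2 := h0 (2 * F.q)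
  rw [F.u_zero] at e0
  rw [F.u_2q] at e2
  simp only [dot] at e0 e2
  omega

end Fan

theorem droplet {K : Finset Pt} {r h : ℕ} (hN : Nice K r h) (F : Fan h) :
    ∃ ρ : ℕ, ∀ j : ℕ, ∃ k C a : ℕ, ρ ≤ C ∧ DetProp K r h F.U ρ j k C a := by
  classical
  set L : ℕ := F.q * (F.L1 * F.U) + F.L0 + 1 with hL
  refine ⟨L * F.U, fun j => ?_⟩
  set D : ℕ := (F.C1 + F.H) * F.U + L * F.U + F.U with hD
  set E : ℕ := 2 * h + F.U with hE
  set j₁ : ℕ := j + 4 * F.q + 2 with hj₁
  set k : ℕ := 4 * j₁ * (2 * D + E) + 1 with hk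
  set C₂ : ℕ := j₁ * (2 * D + E) + 2 * D with hC₂
  refine ⟨k, 2 * F.q * (C₂ * F.U) + h + L * F.U, 2 * F.q * ((1 + F.L1) * F.U) + h + F.U + k,
    by omega, ?_⟩
  intro l A o htex hden hlin
  by_contra hne
  set A' : Set Pt := A ∪ {y | Near o (L * F.U) y} with hA'
  obtain ⟨c, hp, hcS, h0, hc, hΛ, hb⟩ := F.trap hN (clZ_closed K r A') o L l (by omega)
    (fun y hy => subset_clZ K r A' (Or.inr hy))
    (fun x t ht => by
      obtain ⟨s, hs, hm⟩ := hlin x t ht
      exact ⟨s, hs, subset_clZ K r A' (Or.inl hm)⟩) hne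
  have hc0 : ∀ i, 0 ≤ F.len c i := fun i => F.L0_nonneg.trans (hc i)
  have ho : o ∈ F.poly c := fun i => by have := h0 i; omega
  set Rw : ℕ := 2 * F.q * ((l + F.L1) * F.U) + h + F.U with hRw
  set ZA : Finset Pt := (nearF o Rw).filter (fun p => p ∈ A) with hZA
  set ZV : Finset Pt := insert o ((Ico (0 : ℤ) (4 * F.q)).image (F.vtx c)) with hZV
  have hZVc : ZV.card ≤ 4 * F.q + 1 := by
    refine (card_insert_le _ _).trans (Nat.add_le_add_right (card_image_le.trans ?_) 1)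
    rw [Int.card_Ico]; omega
  have hrad : Rw + k ≤ (2 * F.q * ((1 + F.L1) * F.U) + h + F.U + k) * (l + 1) := by
    have h1 : l + F.L1 ≤ (1 + F.L1) * (l + 1) := by nlinarith [Nat.zero_le (F.L1 * l)]
    have h2 : 2 * F.q * ((l + F.L1) * F.U) ≤ 2 * F.q * ((1 + F.L1) * (l + 1) * F.U) := by gcongr
    have h3 : h + F.U + k ≤ (h + F.U + k) * (l + 1) := Nat.le_mul_of_pos_right _ (by omega)
    calc Rw + k = 2 * F.q * ((l + F.L1) * F.U) + (h + F.U + k) := by omega
      _ ≤ 2 * F.q * ((1 + F.L1) * (l + 1) * F.U) + (h + F.U + k) * (l + 1) := add_le_add h2 h3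
      _ = _ := by ring
  obtain ⟨G, hG, hG1, -, hG3⟩ := gen hN D E j₁ (by omega) (ZA ∪ ZV) (by
    rintro y ⟨W, hW, hWz⟩
    have h1 : W ⊆ W.filter (fun p => p ∈ ZA) ∪ ZV := fun p hp => by
      rcases mem_union.1 (mem_coe.1 (hWz p hp).2) with e | e
      · exact mem_union_left _ (mem_filter.2 ⟨hp, e⟩)
      · exact mem_union_right _ e
    have h2 := (card_le_card h1).trans (card_union_le _ _)
    obtain ⟨p, hp⟩ := card_pos.1 (show 0 < (W.filter (fun p => p ∈ ZA)).card by omega)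
    obtain ⟨hpW, hpA⟩ := mem_filter.1 hp
    have h3 := mem_nearF.1 (mem_filter.1 hpA).1
    have h4 := (hWz p hpW).1
    refine hden y (Near.mono (R := Rw + k) ?_ hrad) ⟨W.filter (fun p => p ∈ ZA), by omega, ?_⟩
    · simp only [Near, InBox] at h3 h4 ⊢; omega
    · intro z hz
      obtain ⟨hz1, hz2⟩ := mem_filter.1 hz
      exact ⟨(hWz z hz1).1, (mem_filter.1 hz2).2⟩)
  have hPG : F.poly c ⊆ G := by
    refine F.isolate hN hcS hb hG (fun i y hy => ?_) (fun x hx y p hxy hyp hpA => ?_)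
    · obtain ⟨i', m, rfl, h1, h2⟩ := F.reduce 0 i
      rw [Fan.per_mul (F.vtx_per hp)] at hy
      refine hG1 _ (mem_union_right _ (mem_insert_of_mem
        (mem_image_of_mem _ (mem_Ico.2 ⟨h1, by omega⟩)))) y (hy.mono (by omega))
    · rcases hpA with e | e
      · refine hG1 p (mem_union_left _ (mem_filter.2 ⟨mem_nearF.2 ?_, e⟩)) y
          (hyp.symm.mono (by omega))
        exact ((F.poly_near hc0 hΛ ho hx).trans hxy).trans hyp
      · exact hG1 o (mem_union_right _ (mem_insert_self _ _)) y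
          ((Near.trans e hyp.symm).mono (by omega))
  have hshort : ∀ i, F.len c i ≤ C₂ := by
    intro i
    obtain ⟨s, hs⟩ := Int.eq_ofNat_of_zero_le (hc0 i)
    have := hG3 (F.vtx c (i - 1)) (F.t i) s ⟨(F.t_dir i).1, (F.t_bdd i).mono (by omega)⟩
      (fun m hm => hPG (F.seg_mem hp hc0 i m (by omega) (by omega)))
    omega
  have hlong : ∃ i, (F.L1 : ℤ) ≤ F.len c i := by
    by_contra hcon
    have h1 := (F.width_le (Λ := F.L1) hc0 (fun i => (not_le.1 (fun e => hcon ⟨i, e⟩)).le)).1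
    have h2 := F.width_ge h0
    have h3 : 2 * F.q * (F.L1 * F.U) = 2 * (F.q * (F.L1 * F.U)) := by ring
    omega
  obtain ⟨i, hi⟩ := hlong
  obtain ⟨y, hy, p, hyp, hT⟩ := F.buf_square hN hp hc hi (hb i hi).1 (hb i hi).2
  refine htex p (((F.poly_near hc0 hshort ho hy).trans hyp).mono (by omega)) (fun z hz hm => ?_)
  exact hT z hz (clZ_mono Set.subset_union_left hm)

theorem nucleation {K : Finset Pt} {r h : ℕ} (hN : Nice K r h) (F : Fan h) :
    ∃ a : ℕ, NucProp K r F.U a := by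
  set e : ℕ := F.q * ((F.L1 + F.B + 1) * F.U) + F.L0 with he
  refine ⟨e * F.U + F.L1 + 1 + 2 * F.q * ((1 + F.B) * F.U) + h, ?_⟩
  set a : ℕ := e * F.U + F.L1 + 1 + 2 * F.q * ((1 + F.B) * F.U) + h with ha
  intro l L A o hL hlin hhelp hfill
  by_contra hne
  have h1 : F.L0 ≤ e * L := le_trans (by omega) (Nat.le_mul_of_pos_right e hL)
  have h2 : e * L * F.U ≤ a * L := by
    rw [mul_right_comm]; exact Nat.mul_le_mul_right _ (by omega)
  obtain ⟨c, hp, hcS, h0, hc, hΛ, hb⟩ := F.trap hN (clZ_closed K r A) o (e * L) l h1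
    (fun y hy => subset_clZ K r A (hfill y (hy.mono h2)))
    (fun x t ht => by
      obtain ⟨s, hs, hm⟩ := hlin x t ht
      exact ⟨s, hs, subset_clZ K r A hm⟩) hne
  have hc0 : ∀ i, 0 ≤ F.len c i := fun i => F.L0_nonneg.trans (hc i)
  have ho : o ∈ F.poly c := fun i => by have := h0 i; omega
  have hq := F.qpos
  obtain ⟨i, -, hmax⟩ := exists_max_image (Ico (0 : ℤ) (4 * F.q)) (F.len c)
    ⟨0, mem_Ico.2 ⟨le_rfl, by omega⟩⟩
  obtain ⟨Λ, hΛi⟩ := Int.eq_ofNat_of_zero_le (hc0 i)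
  have hall : ∀ k, F.len c k ≤ Λ := by
    intro k
    obtain ⟨k', m, rfl, a1, a2⟩ := F.reduce 0 k
    rw [Fan.per_mul (F.len_per hp), ← hΛi]
    exact hmax k' (mem_Ico.2 ⟨a1, by omega⟩)
  have h3 := (F.width_le hc0 hall).1
  have h4 := F.width_ge h0
  have h5 : (F.L1 + F.B + 1) * L ≤ Λ := by
    have h6 : F.q * F.U * ((F.L1 + F.B + 1) * L) ≤ F.q * F.U * Λ := by
      have h7 : 2 * (e * L) ≤ 2 * F.q * (Λ * F.U) := by exact_mod_cast h4.trans h3
      have h8 : F.q * F.U * ((F.L1 + F.B + 1) * L) ≤ e * L := by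
        calc _ = F.q * ((F.L1 + F.B + 1) * F.U) * L := by ring
          _ ≤ e * L := Nat.mul_le_mul_right _ (by omega)
      have h9 : 2 * F.q * (Λ * F.U) = 2 * (F.q * F.U * Λ) := by ring
      omega
    exact Nat.le_of_mul_le_mul_left h6 (Nat.mul_pos hq F.U_pos)
  have h6 : F.L1 + F.B + L ≤ Λ := by nlinarith
  obtain ⟨M, hM⟩ : ∃ M, Λ = M + F.B := ⟨Λ - F.B, by omega⟩
  have hi : (F.L1 : ℤ) ≤ F.len c i := by omega
  obtain ⟨hst, hbuf⟩ := hb i hi
  have hbi := F.b_le i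
  have hsd0 : F.Sd c i (F.base c i) := by
    simpa using F.sd_base c i 0 le_rfl (by omega)
  have hnear : Near o (a * M) (F.base c i) := by
    have hu := F.u_ne i
    have hh := hN.hpos
    have hz : Near 0 h ((if 0 ≤ (F.u i).1 then -1 else 1, if 0 ≤ (F.u i).2 then -1 else 1) : Pt) := by
      simp only [Near, Prod.fst_zero, Prod.snd_zero]
      split_ifs <;> omega
    have h7 := F.below_mem hp hc hi hsd0 hz (by
      simp only [Ne, Prod.ext_iff, Prod.fst_zero, Prod.snd_zero] at hu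
      simp only [dot]
      split_ifs <;> omega)
    refine ((F.poly_near hc0 hall ho h7).trans (near_add hz).symm).mono ?_
    have hM1 : 1 ≤ M := by omega
    have h8 : Λ ≤ (1 + F.B) * M := by nlinarith
    calc 2 * F.q * (Λ * F.U) + h ≤ 2 * F.q * ((1 + F.B) * M * F.U) + h * M :=
          add_le_add (by gcongr) (Nat.le_mul_of_pos_right _ hM1)
      _ = (2 * F.q * ((1 + F.B) * F.U) + h) * M := by ring
      _ ≤ a * M := Nat.mul_le_mul_right _ (by omega)
  have hMl : M ≤ a * (l + 1) := by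
    have h7 := hΛ i
    have h8 : l + F.L1 ≤ (F.L1 + 1) * (l + 1) := by nlinarith [Nat.zero_le (F.L1 * l)]
    have h9 : (F.L1 + 1) * (l + 1) ≤ a * (l + 1) := Nat.mul_le_mul_right _ (by omega)
    omega
  obtain ⟨s, hs, hm⟩ := hhelp M (by omega) hMl (F.base c i) (F.t i) hnear (F.t_dir i)
  refine hbuf _ (F.sd_base c i s (by omega) (by omega)) 0 hN.zero (by rw [dot_zero]) ?_
  simpa using subset_clZ K r A hm

end Pool.Agent.P.MP_9594ac_pr
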