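import Pool.Agent.P.MP_9594ac_pr.Basic

/-! Estimates for uniformly random subsets of a given size. -/

namespace Pool.Agent.P.MP_9594ac_pr

open Finset Filter

theorem unif_choose_le (m t : ℕ) (ht : t ≤ m) (f : ℕ) (hf : f ≤ m) :
    (((m - f).choose t : ℕ) : ℝ) ≤ (m.choose t : ℝ) * (1 - (t : ℝ) / m) ^ f := by
  induction f with
  | zero => simp
  | succ f ih =>
    have ih' := ih (by omega)
    have hm : (0 : ℝ) < m := by exact_mod_cast (by omega : 0 < m)
    have h0 : 0 ≤ 1 - (t : ℝ) / m := by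
      rw [sub_nonneg, div_le_one hm]; exact_mod_cast ht
    obtain ⟨a, ha⟩ : ∃ a, m - f = a + 1 := ⟨m - f - 1, by omega⟩
    have ha' : m - (f + 1) = a := by omega
    rw [ha] at ih'
    rw [ha', pow_succ, ← mul_assoc]
    refine le_trans ?_ (mul_le_mul_of_nonneg_right ih' h0)
    have key := Nat.choose_mul_succ_eq a t
    by_cases hta : t ≤ a + 1
    · have key' : (a.choose t : ℝ) * (a + 1) = ((a + 1).choose t : ℝ) * ((a + 1 : ℝ) - t) := by
        have := congrArg (fun z : ℕ => (z : ℝ)) key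
        simp only [Nat.cast_mul, Nat.cast_add, Nat.cast_one] at this
        rw [this, Nat.cast_sub hta]; push_cast; ring
      have ha1 : (0 : ℝ) < a + 1 := by positivity
      have ham : (a + 1 : ℝ) ≤ m := by exact_mod_cast (by omega : a + 1 ≤ m)
      have h1 : (a.choose t : ℝ) = ((a + 1).choose t : ℝ) * (1 - (t : ℝ) / (a + 1)) := by
        field_simp
        linarith
      rw [h1]
      refine mul_le_mul_of_nonneg_left ?_ (Nat.cast_nonneg _)
      have : (t : ℝ) / m ≤ (t : ℝ) / (a + 1) :=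
        div_le_div_of_nonneg_left (Nat.cast_nonneg _) ha1 ham
      linarith
    · rw [Nat.choose_eq_zero_of_lt (by omega : a < t), Nat.cast_zero]
      exact mul_nonneg (Nat.cast_nonneg _) h0

theorem mu_disjoint_le (α : Type) [Fintype α] [DecidableEq α] (t : ℕ) (ht : t ≤ Fintype.card α)
    (F : Finset α) :
    mu α t (fun A => Disjoint F A) ≤ (1 - (t : ℝ) / Fintype.card α) ^ F.card := by
  have hpos : (0 : ℝ) < ((Fintype.card α).choose t : ℝ) := by
    exact_mod_cast Nat.choose_pos ht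
  unfold mu
  rw [div_le_iff₀ hpos, mul_comm]
  refine le_trans ?_ (unif_choose_le _ t ht F.card (card_le_univ F))
  have e : ∑ A ∈ (univ : Finset α).powersetCard t, ind (Disjoint F A) =
      ((Fᶜ.powersetCard t).card : ℝ) := by
    have hsub : Fᶜ.powersetCard t ⊆ (univ : Finset α).powersetCard t :=
      powersetCard_mono (subset_univ _)
    rw [← sum_subset hsub]
    · rw [card_eq_sum_ones, Nat.cast_sum]
      refine sum_congr rfl (fun A hA => ?_)
      rw [ind_of, Nat.cast_one]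
      have := (mem_powersetCard.1 hA).1
      exact disjoint_left.2 (fun x hx hxA => (mem_compl.1 (this hxA)) hx)
    · intro A hA hA'
      refine ind_of_not (fun hd => hA' (mem_powersetCard.2 ⟨?_, (mem_powersetCard.1 hA).2⟩))
      exact fun x hx => mem_compl.2 (fun hxF => disjoint_left.1 hd hxF hx)
  rw [e, card_powersetCard, card_compl]

theorem unif_mu_compl (α : Type) [Fintype α] [DecidableEq α] (t : ℕ) (ht : t ≤ Fintype.card α)
    (P : Finset α → Prop) : mu α t P = mu α (Fintype.card α - t) (fun A => P Aᶜ) := by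
  unfold mu
  rw [Nat.choose_symm ht]
  congr 1
  refine sum_bij' (fun A _ => Aᶜ) (fun A _ => Aᶜ) ?_ ?_ ?_ ?_ ?_
  · intro A hA
    rw [mem_powersetCard] at hA ⊢
    exact ⟨subset_univ _, by rw [card_compl, hA.2]⟩
  · intro A hA
    rw [mem_powersetCard] at hA ⊢
    exact ⟨subset_univ _, by rw [card_compl, hA.2]; omega⟩
  · intro A _; simp
  · intro A _; simp
  · intro A _; simp

theorem mu_subset_le (α : Type) [Fintype α] [DecidableEq α] (t : ℕ) (ht : t ≤ Fintype.card α)
    (F : Finset α) : mu α t (fun A => F ⊆ A) ≤ ((t : ℝ) / Fintype.card α) ^ F.card := by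
  rw [unif_mu_compl α t ht]
  have h := mu_disjoint_le α (Fintype.card α - t) (Nat.sub_le _ _) F
  have e : mu α (Fintype.card α - t) (fun A => F ⊆ Aᶜ) =
      mu α (Fintype.card α - t) (fun A => Disjoint F A) := by
    congr 1
    funext A
    apply propext
    rw [disjoint_left]
    exact ⟨fun hh x hx => mem_compl.1 (hh hx), fun hh x hx => mem_compl.2 (hh hx)⟩
  rw [e]
  refine h.trans (le_of_eq ?_)
  rcases Nat.eq_zero_or_pos (Fintype.card α) with h0 | h0
  · have : F.card = 0 := by have := card_le_univ F; omega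
    rw [this, pow_zero, pow_zero]
  · congr 1
    have hm : (0 : ℝ) < Fintype.card α := by exact_mod_cast h0
    rw [Nat.cast_sub ht]
    field_simp
    ring

theorem unif_toTorus_eq {n : ℕ} {a b : Pt} (h : toTorus n a = toTorus n b) :
    (n : ℤ) ∣ b.1 - a.1 ∧ (n : ℤ) ∣ b.2 - a.2 := by
  simp only [toTorus, Prod.mk.injEq] at h
  exact ⟨(ZMod.intCast_eq_intCast_iff_dvd_sub _ _ _).1 h.1,
    (ZMod.intCast_eq_intCast_iff_dvd_sub _ _ _).1 h.2⟩

theorem mu_dense (n : ℕ) [NeZero n] (k j t : ℕ) (hk : k ≤ n) (ht : t ≤ n ^ 2) (x : Torus n) :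
    mu (Torus n) t (fun A => DenseT A k j x) ≤ ((k : ℝ) ^ 2 * ((t : ℝ) / (n : ℝ) ^ 2)) ^ j := by
  have hc : ∀ G ∈ (boxF 0 k).powersetCard j,
      mu (Torus n) t (fun A => G.image (fun z => x + toTorus n z) ⊆ A) ≤
        ((t : ℝ) / (n : ℝ) ^ 2) ^ j := by
    intro G hG
    obtain ⟨hG1, hG2⟩ := mem_powersetCard.1 hG
    have h := mu_subset_le (Torus n) t (by rw [card_torus]; exact ht)
      (G.image (fun z => x + toTorus n z))
    rw [card_torus, card_image_of_injOn, hG2] at h
    · simpa using h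
    · intro a ha b hb hab
      have ha' := mem_boxF.1 (hG1 ha)
      have hb' := mem_boxF.1 (hG1 hb)
      simp only [InBox, Prod.fst_zero, Prod.snd_zero] at ha' hb'
      have hab' : toTorus n a = toTorus n b := add_left_cancel hab
      rw [← lift_toTorus (n := n) (y := a) (by omega) (by omega) (by omega) (by omega), hab',
        lift_toTorus (by omega) (by omega) (by omega) (by omega)]
  refine (mu_union_le ((boxF 0 k).powersetCard j) _ _ ?_ hc).trans ?_
  · rintro A _ ⟨F, hF, hz⟩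
    obtain ⟨G, hG1, hG2⟩ := exists_subset_card_eq hF
    refine ⟨G, mem_powersetCard.2 ⟨fun z hzG => mem_boxF.2 (hz z (hG1 hzG)).1, hG2⟩, ?_⟩
    intro y hy
    obtain ⟨z, hzG, rfl⟩ := mem_image.1 hy
    exact (hz z (hG1 hzG)).2
  · rw [card_powersetCard, card_boxF, mul_pow]
    refine mul_le_mul_of_nonneg_right ?_ (by positivity)
    exact_mod_cast Nat.choose_le_pow (k ^ 2) j

/-- a progression leaves the cells within `2ρ+2` steps. -/
theorem unif_window {n : ℕ} [NeZero n] {g f ρ U : ℕ} (hg : 2 * f + 2 * ρ + 1 ≤ g) (hU : U ≤ f)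
    (x : Torus n) {t : Pt} (ht : Dir U t) :
    ∃ s : ℕ, s < 2 * ρ + 2 ∧ x + toTorus n ((s : ℤ) • t) ∉ (cellIdx n g).biUnion (cell n g f ρ) := by
  by_contra hcon
  push Not at hcon
  obtain ⟨b, hb, hxb⟩ := mem_biUnion.1 (hcon 0 (by omega))
  simp only [Nat.cast_zero, zero_smul, toTorus_zero, add_zero] at hxb
  obtain ⟨ht0, htU⟩ := ht
  simp only [Near, Prod.fst_zero, Prod.snd_zero] at htU
  have main : ∀ s : ℕ, s < 2 * ρ + 2 → Near (ctr g f ρ b) ρ (lift x + (s : ℤ) • t) := by
    intro s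
    induction s with
    | zero => intro _; simpa using mem_cell_iff.1 hxb
    | succ s ih =>
      intro hs
      have h1 := ih (by omega)
      have h2 : Near (ctr g f ρ b) (f + ρ) (lift x + ((s + 1 : ℕ) : ℤ) • t) := by
        have e : lift x + ((s + 1 : ℕ) : ℤ) • t = (lift x + (s : ℤ) • t) + t := by
          push_cast; rw [add_smul, one_smul, add_assoc]
        rw [e]
        generalize lift x + (s : ℤ) • t = w at h1 ⊢
        simp only [Near, Prod.fst_add, Prod.snd_add] at h1 ⊢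
        omega
      obtain ⟨b', _, hb'⟩ := mem_biUnion.1 (hcon (s + 1) hs)
      have e2 : x + toTorus n (((s + 1 : ℕ) : ℤ) • t) =
          toTorus n (lift x + ((s + 1 : ℕ) : ℤ) • t) := by
        rw [toTorus_add, toTorus_lift]
      rw [e2] at hb'
      have hbb : b = b' :=
        block_unique (toTorus_mem_block hg hb h2) (cell_subset_block hg b' hb')
      rw [← hbb, mem_cell_iff, lift_near_ctr hg hb h2] at hb'
      exact hb'
  have h0 := main 0 (by omega)
  have h1 := main (2 * ρ + 1) (by omega)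
  simp only [Near, Prod.fst_add, Prod.snd_add, Prod.smul_fst, Prod.smul_snd, smul_eq_mul,
    Nat.cast_zero, zero_mul, add_zero] at h0 h1
  push_cast at h1
  apply ht0
  have hρ : (0 : ℤ) ≤ ρ := Int.natCast_nonneg ρ
  apply Prod.ext
  · simp only [Prod.fst_zero]
    by_contra hne
    rcases lt_or_gt_of_ne hne with hlt | hlt <;> nlinarith
  · simp only [Prod.snd_zero]
    by_contra hne
    rcases lt_or_gt_of_ne hne with hlt | hlt <;> nlinarith

theorem unif_prog_inj {n U l : ℕ} (hl : l * U < n) {t : Pt} (ht : Dir U t) {s s' : ℕ}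
    (hs : s < l) (hs' : s' < l) (h : toTorus n ((s : ℤ) • t) = toTorus n ((s' : ℤ) • t)) :
    s = s' := by
  obtain ⟨h1, h2⟩ := unif_toTorus_eq h
  obtain ⟨ht0, htU⟩ := ht
  simp only [Near, Prod.fst_zero, Prod.snd_zero] at htU
  simp only [Prod.smul_fst, Prod.smul_snd, smul_eq_mul, ← sub_mul] at h1 h2
  have hl' : (l : ℤ) * U < n := by exact_mod_cast hl
  have hd : |(s' : ℤ) - s| ≤ l := by rw [abs_le]; omega
  have key : ∀ c : ℤ, |c| ≤ U → (n : ℤ) ∣ ((s' : ℤ) - s) * c → ((s' : ℤ) - s) * c = 0 := by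
    intro c hc hdvd
    refine Int.eq_zero_of_abs_lt_dvd hdvd ?_
    rw [abs_mul]
    exact lt_of_le_of_lt (mul_le_mul hd hc (abs_nonneg _) (Int.natCast_nonneg _)) hl'
  have k1 := key t.1 (by rw [abs_le]; omega) h1
  have k2 := key t.2 (by rw [abs_le]; omega) h2
  by_contra hne
  have hne' : (s' : ℤ) - s ≠ 0 := by omega
  exact ht0 (Prod.ext ((mul_eq_zero.1 k1).resolve_left hne') ((mul_eq_zero.1 k2).resolve_left hne'))

theorem mu_lines (n : ℕ) [NeZero n] (g f ρ U l t : ℕ) (hg : 2 * f + 2 * ρ + 1 ≤ g) (hU : U ≤ f)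
    (hl : l * U < n) (ht : t ≤ n ^ 2) :
    mu (Torus n) t (fun A => ¬ LinesT U l (outside g f ρ A)) ≤
      (n : ℝ) ^ 2 * (2 * U + 1) ^ 2 * (1 - (t : ℝ) / (n : ℝ) ^ 2) ^ (l / (2 * ρ + 2)) := by
  have hn : (0 : ℝ) < (n : ℝ) ^ 2 := by
    have : (0 : ℝ) < n := by exact_mod_cast Nat.pos_of_ne_zero (NeZero.ne n)
    positivity
  have h0 : 0 ≤ 1 - (t : ℝ) / (n : ℝ) ^ 2 := by
    rw [sub_nonneg, div_le_one hn]; exact_mod_cast ht
  have hc : ∀ p ∈ (univ : Finset (Torus n)) ×ˢ nearF 0 U,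
      mu (Torus n) t (fun A => Dir U p.2 ∧
        ∀ s : ℕ, s < l → p.1 + toTorus n ((s : ℤ) • p.2) ∉ outside g f ρ A) ≤
        (1 - (t : ℝ) / (n : ℝ) ^ 2) ^ (l / (2 * ρ + 2)) := by
    rintro ⟨x, v⟩ _
    by_cases hv : Dir U v
    · have hw : ∀ w : ℕ, ∃ s : ℕ, s < 2 * ρ + 2 ∧
          x + toTorus n (((w * (2 * ρ + 2) + s : ℕ) : ℤ) • v) ∉
            (cellIdx n g).biUnion (cell n g f ρ) := by
        intro w
        obtain ⟨s, hs, hs'⟩ := unif_window (g := g) (ρ := ρ) hg hU
          (x + toTorus n (((w * (2 * ρ + 2) : ℕ) : ℤ) • v)) hv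
        refine ⟨s, hs, ?_⟩
        rwa [Nat.cast_add, add_smul, toTorus_add, ← add_assoc]
      choose σ hσ1 hσ2 using hw
      have hlt : ∀ w, w < l / (2 * ρ + 2) → w * (2 * ρ + 2) + σ w < l := by
        intro w hw
        have h1 : (w + 1) * (2 * ρ + 2) ≤ l := (Nat.le_div_iff_mul_le (by omega)).1 hw
        have h2 := hσ1 w
        rw [Nat.add_mul] at h1
        omega
      have h := mu_disjoint_le (Torus n) t (by rw [card_torus]; exact ht)
        ((range (l / (2 * ρ + 2))).image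
          (fun w => x + toTorus n (((w * (2 * ρ + 2) + σ w : ℕ) : ℤ) • v)))
      rw [card_torus, card_image_of_injOn, card_range, Nat.cast_pow] at h
      · refine le_trans (mu_mono ?_) h
        rintro A _ ⟨_, hA⟩
        refine disjoint_left.2 (fun y hy hyA => ?_)
        obtain ⟨w, hw, rfl⟩ := mem_image.1 hy
        exact hA _ (hlt w (mem_range.1 hw)) (mem_sdiff.2 ⟨hyA, hσ2 w⟩)
      · intro a ha b hb hab
        have e := unif_prog_inj hl hv (hlt a (mem_range.1 (mem_coe.1 ha)))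
          (hlt b (mem_range.1 (mem_coe.1 hb))) (add_left_cancel hab)
        have e1 : (a * (2 * ρ + 2) + σ a) / (2 * ρ + 2) = a := by
          rw [add_comm, Nat.add_mul_div_right _ _ (by omega), Nat.div_eq_of_lt (hσ1 a), zero_add]
        have e2 : (b * (2 * ρ + 2) + σ b) / (2 * ρ + 2) = b := by
          rw [add_comm, Nat.add_mul_div_right _ _ (by omega), Nat.div_eq_of_lt (hσ1 b), zero_add]
        rw [← e1, e, e2]
    · rw [mu_eq_zero (fun A _ hA => hv hA.1)]
      exact pow_nonneg h0 _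
  refine (mu_union_le _ _ _ ?_ hc).trans (le_of_eq ?_)
  · intro A _ hA
    simp only [LinesT, not_forall, not_exists, not_and] at hA
    obtain ⟨x, v, hv, hs⟩ := hA
    exact ⟨(x, v), mem_product.2 ⟨mem_univ _, mem_nearF.2 hv.2⟩, hv, hs⟩
  · rw [card_product, card_univ, card_torus, card_nearF]
    push_cast
    ring

end Pool.Agent.P.MP_9594ac_pr
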