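import Pool.Agent.P.MP_9594ac_pr.Merge
import Pool.Agent.P.MP_9594ac_pr.Unif

namespace Pool.Agent.P.MP_9594ac_pr

open Finset Filter

theorem estA_dens_le (n m : ℕ) [NeZero n] :
    ((n ^ 2 / m : ℕ) : ℝ) / (n : ℝ) ^ 2 ≤ 1 / m := by
  have hn : (0 : ℝ) < n := by exact_mod_cast NeZero.pos n
  rw [div_le_iff₀ (by positivity), one_div_mul_eq_div]
  exact_mod_cast Nat.cast_div_le (α := ℝ) (m := n ^ 2) (n := m)

theorem estA_half_le {a b : ℕ} (hb : 0 < b) (h : b ≤ a) : (a : ℝ) / (2 * b) ≤ (a / b : ℕ) := by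
  have h1 : 1 ≤ a / b := (Nat.le_div_iff_mul_le hb).2 (by omega)
  have h2 := Nat.lt_mul_div_succ a hb
  have h3 : a ≤ a / b * (2 * b) := by nlinarith
  rw [div_le_iff₀ (by positivity)]
  exact_mod_cast h3

theorem estA_sq_le {y n : ℕ} (h : Scale y n) : (n : ℝ) ^ 2 ≤ 4 ^ (y ^ 7) := by
  have h1 : (n : ℝ) ≤ 2 ^ (y ^ 7) := by exact_mod_cast h.2
  calc (n : ℝ) ^ 2 ≤ (2 ^ (y ^ 7)) ^ 2 := by gcongr
    _ = _ := by rw [← pow_mul, mul_comm, pow_mul]; norm_num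

theorem estA_cover {K : Finset Pt} {r h : ℕ} (hN : Nice K r h) {n : ℕ} [NeZero n] (j : ℕ)
    (A : Finset (Torus n)) (hA : ∀ x, ¬ DenseT A (8 * j * h + 1) j x) :
    (clT n K r (A : Set (Torus n))).ncard ≤ A.card * (4 * j * h + 1) ^ 2 := by
  have h1 : clT n K r (A : Set (Torus n)) ⊆
      (image₂ (fun a z => a + toTorus n z) A (nearF 0 (2 * j * h)) : Finset (Torus n)) := by
    intro x hx
    obtain ⟨y, rfl⟩ := toTorus_surj n x
    have h2 : y ∈ clZ K r (toTorus n ⁻¹' (A : Set (Torus n))) := by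
      rw [← preimage_clT]; exact hx
    obtain ⟨p, hp, hy⟩ := small_closure hN j _ (fun y hy => hA _ hy.denseT) y h2
    refine mem_coe.2 (mem_image₂.2 ⟨toTorus n p, hp, y - p, mem_nearF.2 ?_, ?_⟩)
    · simp only [Near, Prod.fst_sub, Prod.snd_sub, Prod.fst_zero, Prod.snd_zero] at hy ⊢; omega
    · rw [← toTorus_add, add_sub_cancel]
  refine (Set.ncard_le_ncard h1 (finite_toSet _)).trans ?_
  rw [Set.ncard_coe_finset]
  refine (card_image₂_le _ _ _).trans (le_of_eq ?_)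
  rw [card_nearF]; ring

theorem est_small {K : Finset Pt} {r h : ℕ} (hN : Nice K r h) (ε : ℝ) (hε : 0 < ε) :
    ∀ᶠ y : ℕ in atTop, ∀ (n : ℕ) [NeZero n], Scale y n →
      mu (Torus n) (n ^ 2 / y ^ 15)
        (fun A => ε * (n : ℝ) ^ 2 < ((clT n K r (A : Set (Torus n))).ncard : ℝ)) ≤ 1 / y := by
  filter_upwards [poly_le_scale (8 * h + 1) 7, eventually_ge_atTop (8 * (8 * h + 1) ^ 2),
    tendsto_natCast_atTop_atTop.eventually_ge_atTop ((4 * h + 1 : ℝ) ^ 2 / ε)]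
    with y h1 h2 h3 n _ hs
  have hy : 1 ≤ y := le_trans (Nat.succ_le_of_lt (by positivity)) h2
  have hy' : (1 : ℝ) ≤ y := by exact_mod_cast hy
  have hj : 1 ≤ y ^ 7 := Nat.one_le_pow _ _ hy
  have hj' : (1 : ℝ) ≤ (y : ℝ) ^ 7 := one_le_pow₀ hy'
  have hn : (0 : ℝ) < n := by exact_mod_cast NeZero.pos n
  have hp := estA_dens_le n (y ^ 15)
  have hk : 8 * y ^ 7 * h + 1 ≤ n := le_trans (by nlinarith) (h1 n hs)
  refine (mu_union_le univ (fun x A => DenseT A (8 * y ^ 7 * h + 1) (y ^ 7) x)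
    ((1 / 8) ^ (y ^ 7)) (fun A hA hP => ?_) (fun x _ => ?_)).trans ?_
  · by_contra hc
    have h4 := estA_cover hN (y ^ 7) A fun x hx => hc ⟨x, mem_univ _, hx⟩
    have h5 : ((clT n K r (A : Set (Torus n))).ncard : ℝ) ≤
        (n ^ 2 / y ^ 15 : ℕ) * (4 * (y : ℝ) ^ 7 * h + 1) ^ 2 := by
      rw [hA] at h4; exact_mod_cast h4
    rw [div_le_iff₀ (by positivity)] at hp
    rw [div_le_iff₀ hε] at h3
    refine absurd hP (not_lt.2 (h5.trans ?_))
    have h6 : 4 * (y : ℝ) ^ 7 * h + 1 ≤ (4 * h + 1) * y ^ 7 := by nlinarith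
    calc _ ≤ (1 / ((y ^ 15 : ℕ) : ℝ) * (n : ℝ) ^ 2) * ((4 * h + 1) * y ^ 7) ^ 2 := by gcongr
      _ = (4 * h + 1) ^ 2 / y * (n : ℝ) ^ 2 := by push_cast; field_simp
      _ ≤ _ := by
        gcongr
        rw [div_le_iff₀ (by positivity)]; linarith
  · refine (mu_dense n _ _ _ hk (Nat.div_le_self _ _) x).trans ?_
    refine pow_le_pow_left₀ (by positivity) ?_ _
    have h6 : ((8 * y ^ 7 * h + 1 : ℕ) : ℝ) ≤ (8 * h + 1) * y ^ 7 := by push_cast; nlinarith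
    have h7 : 8 * (8 * (h : ℝ) + 1) ^ 2 ≤ y := by exact_mod_cast h2
    calc _ ≤ ((8 * (h : ℝ) + 1) * y ^ 7) ^ 2 * (1 / ((y ^ 15 : ℕ) : ℝ)) := by gcongr
      _ = (8 * h + 1) ^ 2 / y := by push_cast; field_simp
      _ ≤ _ := by rw [div_le_iff₀ (by positivity)]; linarith
  · rw [card_univ, card_torus]
    push_cast
    have h6 : (y : ℝ) ≤ 2 ^ (y ^ 7) := by
      exact_mod_cast (Nat.le_self_pow (by norm_num) y).trans Nat.lt_two_pow_self.le
    calc _ ≤ (4 : ℝ) ^ (y ^ 7) * (1 / 8) ^ (y ^ 7) := by gcongr; exact estA_sq_le hs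
      _ = 1 / 2 ^ (y ^ 7) := by rw [← mul_pow, ← one_div_pow]; norm_num
      _ ≤ _ := by gcongr

theorem est_lines (U g f ρ : ℕ) (hg : 2 * f + 2 * ρ + 1 ≤ g) (hU : U ≤ f) :
    ∀ᶠ y : ℕ in atTop, ∀ (n : ℕ) [NeZero n], Scale y n →
      mu (Torus n) (n ^ 2 / y ^ 15) (fun A => ¬ LinesT U (y ^ 23) (outside g f ρ A)) ≤ 1 / y := by
  filter_upwards [poly_le_scale (U + 1) 23, eventually_ge_atTop (32 * ρ + 32),
    poly_le_two_pow ((2 * U + 1) ^ 2) 1] with y h1 h2 h3 n _ hs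
  have hy : 1 ≤ y := by omega
  have hy' : (1 : ℝ) ≤ y := by exact_mod_cast hy
  have hn : (0 : ℝ) < n := by exact_mod_cast NeZero.pos n
  have h4 := h1 n hs
  have h5 : 1 ≤ y ^ 23 := Nat.one_le_pow _ _ hy
  have h6 : y ^ 15 ≤ n ^ 2 := (Nat.pow_le_pow_right hy (by norm_num : 15 ≤ 23)).trans
    (le_trans (by nlinarith) (Nat.le_self_pow (by norm_num) n))
  refine (mu_lines n g f ρ U _ _ hg hU (by nlinarith) (Nat.div_le_self _ _)).trans ?_
  have h7 := estA_half_le (by positivity) h6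
  have h8 := estA_half_le (a := y ^ 23) (b := 2 * ρ + 2) (by omega)
    (le_trans (by omega) (Nat.le_self_pow (by norm_num) y))
  have h9 : ((n ^ 2 / y ^ 15 : ℕ) : ℝ) / (n : ℝ) ^ 2 ≤ 1 := by
    rw [div_le_one (by positivity)]; exact_mod_cast Nat.div_le_self _ _
  have h10 : 1 / (2 * (y : ℝ) ^ 15) ≤ ((n ^ 2 / y ^ 15 : ℕ) : ℝ) / (n : ℝ) ^ 2 := by
    rw [le_div_iff₀ (by positivity), one_div_mul_eq_div]; exact_mod_cast h7
  set p := ((n ^ 2 / y ^ 15 : ℕ) : ℝ) / (n : ℝ) ^ 2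
  set m := y ^ 23 / (2 * ρ + 2)
  have h11 : ((4 * y ^ 7 : ℕ) : ℝ) ≤ m * p := by
    have h12 : 32 * (ρ : ℝ) + 32 ≤ y := by exact_mod_cast h2
    refine le_trans ?_ (mul_le_mul h8 h10 (by positivity) (by positivity))
    push_cast
    rw [div_mul_div_comm, le_div_iff₀ (by positivity)]
    calc _ = (32 * (ρ : ℝ) + 32) * y ^ 22 := by ring
      _ ≤ y * y ^ 22 := by gcongr
      _ = _ := by ring
  have h12 : (1 - p) ^ m ≤ (1 / 16) ^ (y ^ 7) := by
    have h13 : Real.exp (-1) ≤ 1 / 2 := by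
      rw [Real.exp_neg, inv_eq_one_div]
      gcongr
      linarith [Real.add_one_le_exp 1]
    calc (1 - p) ^ m ≤ Real.exp (-p) ^ m :=
          pow_le_pow_left₀ (by linarith) (Real.one_sub_le_exp_neg p) _
      _ ≤ Real.exp (-1) ^ (4 * y ^ 7) := by
          rw [← Real.exp_nat_mul, ← Real.exp_nat_mul, Real.exp_le_exp]; linarith
      _ ≤ (1 / 2) ^ (4 * y ^ 7) := by gcongr
      _ = _ := by rw [pow_mul]; norm_num
  have h13 : (2 * (U : ℝ) + 1) ^ 2 * y ≤ 4 ^ (y ^ 7) := by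
    rw [pow_one] at h3
    exact_mod_cast h3.trans ((Nat.pow_le_pow_right (by norm_num)
      (Nat.le_self_pow (by norm_num) y)).trans (Nat.pow_le_pow_left (by norm_num) _))
  calc _ ≤ (4 : ℝ) ^ (y ^ 7) * (2 * U + 1) ^ 2 * (1 / 16) ^ (y ^ 7) :=
        mul_le_mul (mul_le_mul_of_nonneg_right (estA_sq_le hs) (by positivity)) h12
          (pow_nonneg (by linarith) _) (by positivity)
    _ = (2 * U + 1) ^ 2 / 4 ^ (y ^ 7) := by
        rw [mul_right_comm, ← mul_pow, mul_comm, div_eq_mul_one_div _ (4 ^ _), ← one_div_pow]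
        norm_num
    _ ≤ _ := by rw [div_le_div_iff₀ (by positivity) (by positivity)]; linarith

theorem est_dense (k : ℕ) :
    ∀ᶠ y : ℕ in atTop, ∀ (n : ℕ) [NeZero n], Scale y n →
      mu (Torus n) (n ^ 2 / y)
        (fun A => ¬ (A.card ≤ n ^ 2 / y ∧ {x | DenseT A k 51 x}.ncard ≤ n ^ 2 / y ^ 49)) ≤ 1 / y := by
  classical
  filter_upwards [poly_le_scale k 0, eventually_ge_atTop (k ^ 102), eventually_ge_atTop 1]
    with y h1 h2 hy n _ hs
  have hy' : (0 : ℝ) < y := by exact_mod_cast hy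
  have hn : (0 : ℝ) < n := by exact_mod_cast NeZero.pos n
  have hk : k ≤ n := by simpa using h1 n hs
  refine (mu_le_sum univ (fun x A => DenseT A k 51 x) ((n : ℝ) ^ 2 / y ^ 49) (by positivity)
    (fun A hA hP => ⟨univ.filter fun x => DenseT A k 51 x, subset_univ _, ?_,
      fun x hx => (mem_filter.1 hx).2⟩)).trans ?_
  · have h3 : n ^ 2 / y ^ 49 < (univ.filter fun x => DenseT A k 51 x).card := by
      rw [← Set.ncard_coe_finset, coe_filter_univ]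
      exact not_le.1 fun h => hP ⟨hA.le, h⟩
    rw [Nat.div_lt_iff_lt_mul (by positivity)] at h3
    rw [div_le_iff₀ (by positivity)]
    exact_mod_cast h3.le
  · have h3 : ∑ x : Torus n, mu (Torus n) (n ^ 2 / y) (fun A => DenseT A k 51 x) ≤
        (n : ℝ) ^ 2 * ((k : ℝ) ^ 2 * (1 / y)) ^ 51 := by
      refine (sum_le_card_nsmul _ _ (((k : ℝ) ^ 2 * (1 / y)) ^ 51) fun x _ => ?_).trans ?_
      · refine (mu_dense n _ _ _ hk (Nat.div_le_self _ _) x).trans ?_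
        have := estA_dens_le n y
        gcongr
      · rw [card_univ, card_torus, nsmul_eq_mul, Nat.cast_pow]
    have h4 : (k : ℝ) ^ 102 ≤ y := by exact_mod_cast h2
    refine (div_le_div_of_nonneg_right h3 (by positivity)).trans ?_
    calc _ = (k : ℝ) ^ 102 / y ^ 2 := by field_simp
      _ ≤ y / y ^ 2 := by gcongr
      _ = _ := by field_simp

end Pool.Agent.P.MP_9594ac_pr
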