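import Pool.Agent.P.MP_9594ac_pr.Basic

/-! Existence of arbitrarily fine unimodular fans, by repeated Farey refinement. -/

namespace Pool.Agent.P.MP_9594ac_pr

open Finset Filter

/-- The data carried through the refinement. -/
structure PreFan (k : ℕ) where
  q : ℕ
  U : ℕ
  u : ℤ → Pt
  κ : ℤ → ℤ
  qpos : 1 ≤ q
  u_zero : u 0 = (1, 0)
  u_rot : ∀ i : ℤ, u (i + q) = rot (u i)
  det : ∀ i, cross (u i) (u (i + 1)) = 1
  pos : ∀ i j : ℤ, i < j → j < i + 2 * q → 0 < cross (u i) (u j)
  bdd : ∀ i, Near 0 U (u i)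
  κ_per : ∀ i : ℤ, κ (i + q) = κ i
  κ_pos : ∀ i, 1 ≤ κ i
  κ_bdd : ∀ i, κ i ≤ U
  κ_len : ∀ i, 1 ≤ κ (i - 1) + κ (i + 1) - cross (u (i - 1)) (u (i + 1)) * κ i
  acute : ∀ i, 0 ≤ dot (u i) (u (i + 1))
  big : ∀ i, (k : ℤ) + 2 ≤ dot (u i) (u i) + dot (u (i + 1)) (u (i + 1))

theorem fan_cross_add_left (a b c : Pt) : cross (a + b) c = cross a c + cross b c := by
  simp only [cross, Prod.fst_add, Prod.snd_add]; ring

theorem fan_cross_add_right (a b c : Pt) : cross a (b + c) = cross a b + cross a c := by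
  simp only [cross, Prod.fst_add, Prod.snd_add]; ring

theorem fan_cross_self (a : Pt) : cross a a = 0 := by
  simp only [cross]; ring

theorem fan_dot_add_left (a b c : Pt) : dot (a + b) c = dot a c + dot b c := by
  simp only [dot, Prod.fst_add, Prod.snd_add]; ring

theorem fan_dot_add_right (a b c : Pt) : dot a (b + c) = dot a b + dot a c := by
  simp only [dot, Prod.fst_add, Prod.snd_add]; ring

theorem fan_dot_comm (a b : Pt) : dot a b = dot b a := by
  simp only [dot]; ring

theorem fan_dot_self_pos {a b : Pt} (h : cross a b = 1) : 1 ≤ dot a a := by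
  obtain ⟨a1, a2⟩ := a
  simp only [cross, dot] at h ⊢
  by_cases h1 : a1 = 0
  · by_cases h2 : a2 = 0
    · subst h1; subst h2; simp at h
    · have := mul_self_pos.2 h2
      have := mul_self_nonneg a1
      omega
  · have := mul_self_pos.2 h1
    have := mul_self_nonneg a2
    omega

theorem fan_dot_self_pos' {a b : Pt} (h : cross a b = 1) : 1 ≤ dot b b := by
  have h' : cross b (-a) = 1 := by
    simp only [cross, Prod.fst_neg, Prod.snd_neg] at h ⊢
    linarith
  exact fan_dot_self_pos h'

/-- The four unit vectors in cyclic order. -/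
def fanBase (i : ℤ) : Pt :=
  if i % 4 = 0 then (1, 0) else if i % 4 = 1 then (0, 1) else if i % 4 = 2 then (-1, 0)
  else (0, -1)

theorem fanBase_cases (i : ℤ) :
    (fanBase i = (1, 0) ∧ fanBase (i + 1) = (0, 1) ∧ fanBase (i - 1) = (0, -1)) ∨
    (fanBase i = (0, 1) ∧ fanBase (i + 1) = (-1, 0) ∧ fanBase (i - 1) = (1, 0)) ∨
    (fanBase i = (-1, 0) ∧ fanBase (i + 1) = (0, -1) ∧ fanBase (i - 1) = (0, 1)) ∨
    (fanBase i = (0, -1) ∧ fanBase (i + 1) = (1, 0) ∧ fanBase (i - 1) = (-1, 0)) := by
  have h : i % 4 = 0 ∨ i % 4 = 1 ∨ i % 4 = 2 ∨ i % 4 = 3 := by omega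
  rcases h with h | h | h | h
  · have h1 : (i + 1) % 4 = 1 := by omega
    have h2 : (i - 1) % 4 = 3 := by omega
    left
    simp [fanBase, h, h1, h2]
  · have h1 : (i + 1) % 4 = 2 := by omega
    have h2 : (i - 1) % 4 = 0 := by omega
    right; left
    simp [fanBase, h, h1, h2]
  · have h1 : (i + 1) % 4 = 3 := by omega
    have h2 : (i - 1) % 4 = 1 := by omega
    right; right; left
    simp [fanBase, h, h1, h2]
  · have h1 : (i + 1) % 4 = 0 := by omega
    have h2 : (i - 1) % 4 = 2 := by omega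
    right; right; right
    simp [fanBase, h, h1, h2]

/-- The coarsest fan. -/
def preFanZero : PreFan 0 where
  q := 1
  U := 1
  u := fanBase
  κ := fun _ => 1
  qpos := le_rfl
  u_zero := by simp [fanBase]
  u_rot := by
    intro i
    have e : i + ((1 : ℕ) : ℤ) = i + 1 := by simp
    rw [e]
    rcases fanBase_cases i with ⟨h1, h2, _⟩ | ⟨h1, h2, _⟩ | ⟨h1, h2, _⟩ | ⟨h1, h2, _⟩ <;>
      simp [h1, h2, rot]
  det := by
    intro i
    rcases fanBase_cases i with ⟨h1, h2, _⟩ | ⟨h1, h2, _⟩ | ⟨h1, h2, _⟩ | ⟨h1, h2, _⟩ <;>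
      simp [h1, h2, cross]
  pos := by
    intro i j h1 h2
    have e : j = i + 1 := by push_cast at h2; omega
    subst e
    rcases fanBase_cases i with ⟨h1, h2, _⟩ | ⟨h1, h2, _⟩ | ⟨h1, h2, _⟩ | ⟨h1, h2, _⟩ <;>
      simp [h1, h2, cross]
  bdd := by
    intro i
    rcases fanBase_cases i with ⟨h1, _, _⟩ | ⟨h1, _, _⟩ | ⟨h1, _, _⟩ | ⟨h1, _, _⟩ <;>
      simp [h1, Near]
  κ_per := fun _ => rfl
  κ_pos := fun _ => le_rfl
  κ_bdd := fun _ => by simp
  κ_len := by
    intro i
    rcases fanBase_cases i with ⟨_, h2, h3⟩ | ⟨_, h2, h3⟩ | ⟨_, h2, h3⟩ | ⟨_, h2, h3⟩ <;>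
      simp [h2, h3, cross]
  acute := by
    intro i
    rcases fanBase_cases i with ⟨h1, h2, _⟩ | ⟨h1, h2, _⟩ | ⟨h1, h2, _⟩ | ⟨h1, h2, _⟩ <;>
      simp [h1, h2, dot]
  big := by
    intro i
    rcases fanBase_cases i with ⟨h1, h2, _⟩ | ⟨h1, h2, _⟩ | ⟨h1, h2, _⟩ | ⟨h1, h2, _⟩ <;>
      simp [h1, h2, dot]

/-- The refined sequence of normals. -/
def fanRefU (u : ℤ → Pt) (i : ℤ) : Pt :=
  if i % 2 = 0 then u (i / 2) else u (i / 2) + u (i / 2 + 1)

/-- The refined sequence of levels. -/
def fanRefK (κ : ℤ → ℤ) (i : ℤ) : ℤ :=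
  if i % 2 = 0 then 3 * κ (i / 2) else 3 * κ (i / 2) + 3 * κ (i / 2 + 1) - 1

theorem fanRefU_even (u : ℤ → Pt) {j : ℤ} (i : ℤ) (h : j = 2 * i) : fanRefU u j = u i := by
  have h1 : j % 2 = 0 := by omega
  have h2 : j / 2 = i := by omega
  simp [fanRefU, h1, h2]

theorem fanRefU_odd (u : ℤ → Pt) {j : ℤ} (i : ℤ) (h : j = 2 * i + 1) :
    fanRefU u j = u i + u (i + 1) := by
  have h1 : j % 2 = 1 := by omega
  have h2 : j / 2 = i := by omega
  simp [fanRefU, h1, h2]

theorem fanRefK_even (κ : ℤ → ℤ) {j : ℤ} (i : ℤ) (h : j = 2 * i) : fanRefK κ j = 3 * κ i := by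
  have h1 : j % 2 = 0 := by omega
  have h2 : j / 2 = i := by omega
  simp [fanRefK, h1, h2]

theorem fanRefK_odd (κ : ℤ → ℤ) {j : ℤ} (i : ℤ) (h : j = 2 * i + 1) :
    fanRefK κ j = 3 * κ i + 3 * κ (i + 1) - 1 := by
  have h1 : j % 2 = 1 := by omega
  have h2 : j / 2 = i := by omega
  simp [fanRefK, h1, h2]

theorem fan_parity (j : ℤ) : ∃ i : ℤ, j = 2 * i ∨ j = 2 * i + 1 := ⟨j / 2, by omega⟩

theorem PreFan.nonneg {k : ℕ} (F : PreFan k) {i j : ℤ} (h1 : i ≤ j) (h2 : j ≤ i + 2 * F.q) :
    0 ≤ cross (F.u i) (F.u j) := by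
  rcases h1.eq_or_lt with h | h
  · subst h; rw [fan_cross_self]
  · rcases h2.eq_or_lt with h' | h'
    · have e : j = (i + F.q) + F.q := by rw [h']; ring
      rw [e, F.u_rot, F.u_rot]
      simp only [cross, rot]
      linarith
    · exact (F.pos i j h h').le

theorem fan_rot_add (a b : Pt) : rot (a + b) = rot a + rot b := by
  simp only [rot, Prod.fst_add, Prod.snd_add, Prod.mk_add_mk]
  congr 1
  ring

/-- One refinement step. -/
def PreFan.step {k : ℕ} (F : PreFan k) : PreFan (k + 1) where
  q := 2 * F.q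
  U := 6 * F.U
  u := fanRefU F.u
  κ := fanRefK F.κ
  qpos := by have := F.qpos; omega
  u_zero := by rw [fanRefU_even F.u 0 (by ring), F.u_zero]
  u_rot := by
    intro j
    obtain ⟨i, h | h⟩ := fan_parity j
    · rw [fanRefU_even F.u (i + F.q) (by push_cast; omega), fanRefU_even F.u i h, F.u_rot]
    · rw [fanRefU_odd F.u (i + F.q) (by push_cast; omega), fanRefU_odd F.u i h, fan_rot_add,
        ← F.u_rot, ← F.u_rot]
      congr 2
      ring
  det := by
    intro j
    obtain ⟨i, h | h⟩ := fan_parity j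
    · rw [fanRefU_even F.u i h, fanRefU_odd F.u i (by omega), fan_cross_add_right, fan_cross_self,
        F.det]
      rfl
    · rw [fanRefU_odd F.u i h, fanRefU_even F.u (i + 1) (by omega), fan_cross_add_left,
        fan_cross_self, F.det]
      rfl
  pos := by
    intro a b h1 h2
    have hq := F.qpos
    push_cast at h2
    obtain ⟨i, hi | hi⟩ := fan_parity a <;> obtain ⟨j, hj | hj⟩ := fan_parity b
    · rw [fanRefU_even F.u i hi, fanRefU_even F.u j hj]
      exact F.pos i j (by omega) (by omega)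
    · rw [fanRefU_even F.u i hi, fanRefU_odd F.u j hj, fan_cross_add_right]
      by_cases e : j = i
      · subst e
        rw [fan_cross_self, F.det]
        norm_num
      · have := F.pos i j (by omega) (by omega)
        have := F.nonneg (i := i) (j := j + 1) (by omega) (by omega)
        omega
    · rw [fanRefU_odd F.u i hi, fanRefU_even F.u j hj, fan_cross_add_left]
      by_cases e : j = i + 2 * F.q
      · have := F.nonneg (i := i) (j := j) (by omega) (by omega)
        have := F.pos (i + 1) j (by omega) (by omega)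
        omega
      · have := F.pos i j (by omega) (by omega)
        have := F.nonneg (i := i + 1) (j := j) (by omega) (by omega)
        omega
    · rw [fanRefU_odd F.u i hi, fanRefU_odd F.u j hj, fan_cross_add_left, fan_cross_add_right,
        fan_cross_add_right]
      have := F.pos i j (by omega) (by omega)
      have := F.nonneg (i := i) (j := j + 1) (by omega) (by omega)
      have := F.nonneg (i := i + 1) (j := j) (by omega) (by omega)
      have := F.nonneg (i := i + 1) (j := j + 1) (by omega) (by omega)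
      omega
  bdd := by
    intro j
    obtain ⟨i, h | h⟩ := fan_parity j
    · rw [fanRefU_even F.u i h]
      have := F.bdd i
      simp only [Near, Prod.fst_zero, Prod.snd_zero] at this ⊢
      push_cast
      omega
    · rw [fanRefU_odd F.u i h]
      have h1 := F.bdd i
      have h2 := F.bdd (i + 1)
      simp only [Near, Prod.fst_zero, Prod.snd_zero, Prod.fst_add, Prod.snd_add] at h1 h2 ⊢
      push_cast
      omega
  κ_per := by
    intro j
    obtain ⟨i, h | h⟩ := fan_parity j
    · rw [fanRefK_even F.κ (i + F.q) (by push_cast; omega), fanRefK_even F.κ i h, F.κ_per]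
    · have e : i + F.q + 1 = (i + 1) + F.q := by ring
      rw [fanRefK_odd F.κ (i + F.q) (by push_cast; omega), fanRefK_odd F.κ i h, e, F.κ_per,
        F.κ_per]
  κ_pos := by
    intro j
    obtain ⟨i, h | h⟩ := fan_parity j
    · rw [fanRefK_even F.κ i h]
      have := F.κ_pos i
      omega
    · rw [fanRefK_odd F.κ i h]
      have := F.κ_pos i
      have := F.κ_pos (i + 1)
      omega
  κ_bdd := by
    intro j
    obtain ⟨i, h | h⟩ := fan_parity j
    · rw [fanRefK_even F.κ i h]
      have := F.κ_bdd i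
      push_cast
      omega
    · rw [fanRefK_odd F.κ i h]
      have := F.κ_bdd i
      have := F.κ_bdd (i + 1)
      push_cast
      omega
  κ_len := by
    intro j
    obtain ⟨i, h | h⟩ := fan_parity j
    · have e : i - 1 + 1 = i := by ring
      have hd := F.det (i - 1)
      rw [e] at hd
      rw [fanRefK_even F.κ i h, fanRefK_odd F.κ (i - 1) (by omega), fanRefK_odd F.κ i (by omega),
        fanRefU_odd F.u (i - 1) (by omega), fanRefU_odd F.u i (by omega), e, fan_cross_add_left,
        fan_cross_add_right, fan_cross_add_right, fan_cross_self, F.det, hd]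
      have := F.κ_len i
      linarith
    · rw [fanRefK_odd F.κ i h, fanRefK_even F.κ i (by omega), fanRefK_even F.κ (i + 1) (by omega),
        fanRefU_even F.u i (by omega), fanRefU_even F.u (i + 1) (by omega), F.det]
      linarith
  acute := by
    intro j
    obtain ⟨i, h | h⟩ := fan_parity j
    · rw [fanRefU_even F.u i h, fanRefU_odd F.u i (by omega), fan_dot_add_right]
      have := F.acute i
      have := fan_dot_self_pos (F.det i)
      omega
    · rw [fanRefU_odd F.u i h, fanRefU_even F.u (i + 1) (by omega), fan_dot_add_left]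
      have := F.acute i
      have := fan_dot_self_pos' (F.det i)
      omega
  big := by
    intro j
    obtain ⟨i, h | h⟩ := fan_parity j
    · rw [fanRefU_even F.u i h, fanRefU_odd F.u i (by omega), fan_dot_add_left, fan_dot_add_right,
        fan_dot_add_right, fan_dot_comm (F.u (i + 1)) (F.u i)]
      have := F.acute i
      have := F.big i
      have := fan_dot_self_pos (F.det i)
      push_cast
      omega
    · rw [fanRefU_odd F.u i h, fanRefU_even F.u (i + 1) (by omega), fan_dot_add_left,
        fan_dot_add_right, fan_dot_add_right, fan_dot_comm (F.u (i + 1)) (F.u i)]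
      have := F.acute i
      have := F.big i
      have := fan_dot_self_pos' (F.det i)
      push_cast
      omega

theorem exists_preFan (k : ℕ) : Nonempty (PreFan k) := by
  induction k with
  | zero => exact ⟨preFanZero⟩
  | succ k ih => obtain ⟨F⟩ := ih; exact ⟨F.step⟩

theorem fan_wedge_big {u v z : Pt} (hd : cross u v = 1) (ha : 0 ≤ dot u v) (h1 : 0 < cross u z)
    (h2 : 0 < cross z v) : dot u u + dot v v ≤ dot z z := by
  have hu := fan_dot_self_pos hd
  have hv := fan_dot_self_pos' hd
  have key : dot z z = cross z v * cross z v * dot u u + cross u z * cross u z * dot v v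
      + 2 * (cross z v * cross u z) * dot u v := by
    have e : dot z z * (cross u v * cross u v) = cross z v * cross z v * dot u u
        + cross u z * cross u z * dot v v + 2 * (cross z v * cross u z) * dot u v := by
      simp only [cross, dot]; ring
    rw [hd] at e
    linarith
  have a1 : 1 ≤ cross z v * cross z v := by nlinarith
  have a2 : 1 ≤ cross u z * cross u z := by nlinarith
  have a3 : 0 ≤ 2 * (cross z v * cross u z) * dot u v := by positivity
  have a4 : dot u u ≤ cross z v * cross z v * dot u u := by nlinarith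
  have a5 : dot v v ≤ cross u z * cross u z * dot v v := by nlinarith
  linarith

theorem exists_fan (h : ℕ) : Nonempty (Fan h) := by
  obtain ⟨F⟩ := exists_preFan (2 * h ^ 2)
  refine ⟨⟨F.q, F.U, F.u, F.κ, F.qpos, F.u_zero, F.u_rot, F.det, F.pos, ?_, F.bdd, F.κ_per,
    F.κ_pos, F.κ_bdd, F.κ_len⟩⟩
  rintro i z hz ⟨h1, h2⟩
  have hb := fan_wedge_big (F.det i) (F.acute i) h1 h2
  have hk := F.big i
  simp only [Near, Prod.fst_zero, Prod.snd_zero, zero_sub, zero_add] at hz
  obtain ⟨z1, z2, z3, z4⟩ := hz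
  have e1 : z.1 * z.1 ≤ (h : ℤ) * h := by nlinarith
  have e2 : z.2 * z.2 ≤ (h : ℤ) * h := by nlinarith
  have e3 : dot z z = z.1 * z.1 + z.2 * z.2 := rfl
  push_cast at hk
  nlinarith

end Pool.Agent.P.MP_9594ac_pr
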