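import Pool.Agent.P.MP_9594ac_pr.Fiber
import Pool.Agent.P.MP_9594ac_pr.Unif

/-! Nucleation on the torus: one full cell in a good neighbourhood percolates. -/

namespace Pool.Agent.P.MP_9594ac_pr

open Finset Filter

/-- the neighbourhood of cell `b` is good for `B`: all the progressions used by the nucleation
lemma meet the cell or `B`. -/
def HCell (n U a l L g f : ℕ) (b : ℕ × ℕ) (B : Finset (Torus n)) : Prop :=
  ∀ M : ℕ, L ≤ M → M ≤ a * (l + 1) → ∀ x t : Pt, Near (ctr g f (a * L) b) (a * M) x → Dir U t →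
    ∃ s : ℕ, s < M ∧ (Near (ctr g f (a * L) b) (a * L) (x + (s : ℤ) • t) ∨
      toTorus n (x + (s : ℤ) • t) ∈ B)

theorem perc_of_HCell {K : Finset Pt} {r U a : ℕ} (hnuc : NucProp K r U a) {n : ℕ} [NeZero n]
    {g f l L : ℕ} (hL : 1 ≤ L) (hg : 2 * f + 2 * (a * L) + 1 ≤ g) {b : ℕ × ℕ}
    (hb : b ∈ cellIdx n g) {A : Finset (Torus n)} (hA : LinesT U l A)
    (hH : HCell n U a l L g f b (outside g f (a * L) A)) (hc : cell n g f (a * L) b ⊆ A) :
    clT n K r (A : Set (Torus n)) = Set.univ := by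
  refine clT_eq_univ (B := toTorus n ⁻¹' (A : Set (Torus n))) subset_rfl
    (hnuc l L _ (ctr g f (a * L) b) hL hA.linesZ ?_ ?_)
  · intro M h1 h2 x t hx ht
    obtain ⟨s, hs, h | h⟩ := hH M h1 h2 x t hx ht
    · exact ⟨s, hs, mem_coe.2 (hc (toTorus_mem_cell hg hb h))⟩
    · exact ⟨s, hs, mem_coe.2 (outside_subset g f (a * L) A h)⟩
  · intro y hy
    exact mem_coe.2 (hc (toTorus_mem_cell hg hb hy))

theorem near_add_smul {c x t : Pt} {R U M s : ℕ} (hx : Near c R x) (ht : Near 0 U t)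
    (hs : s ≤ M) : Near c (R + U * M) (x + (s : ℤ) • t) := by
  obtain ⟨h1, h2, h3, h4⟩ := hx
  obtain ⟨k1, k2, k3, k4⟩ := ht
  simp only [Prod.fst_zero, Prod.snd_zero, zero_sub, zero_add] at k1 k2 k3 k4
  have hs' : (s : ℤ) ≤ M := by exact_mod_cast hs
  have hs0 : (0 : ℤ) ≤ s := Int.natCast_nonneg s
  have hU : (0 : ℤ) ≤ U := Int.natCast_nonneg U
  have e : (s : ℤ) * U ≤ U * M := by nlinarith
  have a1 : (s : ℤ) * t.1 ≤ s * U := mul_le_mul_of_nonneg_left k2 hs0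
  have a2 : (s : ℤ) * (-U) ≤ s * t.1 := mul_le_mul_of_nonneg_left k1 hs0
  have a3 : (s : ℤ) * t.2 ≤ s * U := mul_le_mul_of_nonneg_left k4 hs0
  have a4 : (s : ℤ) * (-U) ≤ s * t.2 := mul_le_mul_of_nonneg_left k3 hs0
  simp only [Near, Prod.fst_add, Prod.snd_add, Prod.smul_fst, Prod.smul_snd, smul_eq_mul]
  push_cast
  refine ⟨?_, ?_, ?_, ?_⟩ <;> linarith

theorem Near.le {c y : Pt} {R R' : ℕ} (h : Near c R y) (hR : R ≤ R') : Near c R' y := by
  simp only [Near] at h ⊢; omega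

theorem mu_not_HCell {U a : ℕ} {n : ℕ} [NeZero n] {g f l L t : ℕ}
    (hg : 2 * f + 2 * (a * L) + 1 ≤ g) (hf : (a + U) * (a * (l + 1)) ≤ f) (ht : t ≤ n ^ 2)
    {b : ℕ × ℕ} (hb : b ∈ cellIdx n g) :
    mu (Torus n) t (fun A => ¬ HCell n U a l L g f b (outside g f (a * L) A)) ≤
      (((a * (l + 1) + 1) * (2 * (a * (a * (l + 1))) + 1) ^ 2 * (2 * U + 1) ^ 2 : ℕ) : ℝ) *
        (1 - (t : ℝ) / (n : ℝ) ^ 2) ^ L := by
  have hn : (0 : ℝ) < n := by exact_mod_cast Nat.pos_of_ne_zero (NeZero.ne n)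
  have hp1 : (t : ℝ) / (n : ℝ) ^ 2 ≤ 1 := by
    rw [div_le_one (by positivity)]; exact_mod_cast ht
  have hp0 : (0 : ℝ) ≤ (t : ℝ) / (n : ℝ) ^ 2 := by positivity
  set c := ctr g f (a * L) b with hc
  have key := mu_union_le (α := Torus n) (t := t)
    (P := fun A => ¬ HCell n U a l L g f b (outside g f (a * L) A))
    (range (a * (l + 1) + 1) ×ˢ (nearF c (a * (a * (l + 1))) ×ˢ nearF 0 U))
    (fun i A => (L ≤ i.1 ∧ i.1 ≤ a * (l + 1) ∧ Near c (a * i.1) i.2.1 ∧ Dir U i.2.2 ∧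
        ∀ s : ℕ, s < i.1 → ¬ Near c (a * L) (i.2.1 + (s : ℤ) • i.2.2)) ∧
      ∀ s : ℕ, s < i.1 → toTorus n (i.2.1 + (s : ℤ) • i.2.2) ∉ outside g f (a * L) A)
    ((1 - (t : ℝ) / (n : ℝ) ^ 2) ^ L) ?_ ?_
  · refine key.trans (le_of_eq ?_)
    rw [card_product, card_product, card_range, card_nearF, card_nearF, mul_assoc]
  · intro A _ hA
    unfold HCell at hA
    push Not at hA
    obtain ⟨M, h1, h2, x, u, hx, hu, hs⟩ := hA
    refine ⟨(M, x, u), ?_, ⟨h1, h2, hx, hu, fun s h => (hs s h).1⟩, fun s h => (hs s h).2⟩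
    simp only [mem_product, mem_range, mem_nearF]
    exact ⟨by omega, hx.le (Nat.mul_le_mul_left a h2), hu.2⟩
  · rintro ⟨M, x, u⟩ -
    by_cases hdet : L ≤ M ∧ M ≤ a * (l + 1) ∧ Near c (a * M) x ∧ Dir U u ∧
        ∀ s : ℕ, s < M → ¬ Near c (a * L) (x + (s : ℤ) • u)
    · obtain ⟨h1, h2, hx, hu, hs⟩ := hdet
      have hnear : ∀ s : ℕ, s < M → Near c (f + a * L) (x + (s : ℤ) • u) := by
        intro s h
        refine (near_add_smul hx hu.2 h.le).le ?_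
        have : (a + U) * M ≤ (a + U) * (a * (l + 1)) := Nat.mul_le_mul_left _ h2
        have e : a * M + U * M = (a + U) * M := by ring
        omega
      have hcard : ((range M).image (fun s : ℕ => toTorus n (x + (s : ℤ) • u))).card = M := by
        rw [card_image_of_injOn, card_range]
        intro s₁ hs₁ s₂ hs₂ e
        have e1 := lift_near_ctr hg hb (hnear s₁ (mem_range.1 (mem_coe.1 hs₁)))
        have e2 := lift_near_ctr hg hb (hnear s₂ (mem_range.1 (mem_coe.1 hs₂)))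
        have e3 : x + (s₁ : ℤ) • u = x + (s₂ : ℤ) • u := by
          rw [← e1, ← e2]; exact congrArg lift e
        have e4 : (s₁ : ℤ) • u = (s₂ : ℤ) • u := add_left_cancel e3
        have e5 : (s₁ : ℤ) = s₂ := smul_left_injective ℤ hu.1 e4
        exact_mod_cast e5
      have h3 := mu_disjoint_le (Torus n) t (by rw [card_torus]; exact ht)
        ((range M).image (fun s : ℕ => toTorus n (x + (s : ℤ) • u)))
      rw [hcard, card_torus] at h3
      push_cast at h3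
      refine le_trans (mu_mono ?_) (h3.trans (pow_le_pow_of_le_one (by linarith) (by linarith) h1))
      intro A _ hA
      rw [disjoint_left]
      intro z hz hzA
      obtain ⟨s, hsM, rfl⟩ := mem_image.1 hz
      have hsM' := mem_range.1 hsM
      refine hA.2 s hsM' (mem_sdiff.2 ⟨hzA, fun hh => ?_⟩)
      obtain ⟨b', _, hz'⟩ := mem_biUnion.1 hh
      have hbb : b = b' :=
        block_unique (toTorus_mem_block hg hb (hnear s hsM')) (cell_subset_block hg b' hz')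
      rw [← hbb, mem_cell_iff, lift_near_ctr hg hb (hnear s hsM')] at hz'
      exact hs s hsM' hz'
    · rw [mu_eq_zero (fun A _ hA => hdet hA.1)]
      exact pow_nonneg (by linarith) _

theorem nuc_torus {K : Finset Pt} {r U a : ℕ} (hnuc : NucProp K r U a) (n : ℕ) [NeZero n]
    (g f l L t N : ℕ) (hL : 1 ≤ L) (hg : 2 * f + 2 * (a * L) + 1 ≤ g)
    (hf : (a + U) * (a * (l + 1)) ≤ f) (ht : t ≤ n ^ 2) (hN : 2 * N ≤ (n / g) ^ 2)
    (hpos : 0 < n / g) :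
    mu (Torus n) t (fun A => LinesT U l A ∧ clT n K r (A : Set (Torus n)) ≠ Set.univ) ≤
      2 * ((((a * (l + 1) + 1) * (2 * (a * (a * (l + 1))) + 1) ^ 2 * (2 * U + 1) ^ 2 : ℕ) : ℝ) *
        (1 - (t : ℝ) / (n : ℝ) ^ 2) ^ L) +
      ((n : ℝ) ^ 2 + 1) * (1 - ((t : ℝ) / (n : ℝ) ^ 2) ^ ((2 * (a * L) + 1) ^ 2)) ^ N := by
  classical
  have hn0 : 0 < n := Nat.pos_of_ne_zero (NeZero.ne n)
  have hn : (0 : ℝ) < n := by exact_mod_cast hn0
  have hp1 : (t : ℝ) / (n : ℝ) ^ 2 ≤ 1 := by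
    rw [div_le_one (by positivity)]; exact_mod_cast ht
  have hp0 : (0 : ℝ) ≤ (t : ℝ) / (n : ℝ) ^ 2 := by positivity
  have hm : (0 : ℝ) < (((n / g) ^ 2 : ℕ) : ℝ) := by exact_mod_cast pow_pos hpos 2
  refine (mu_or (Q := fun A => ∃ J ⊆ cellIdx n g, (((n / g) ^ 2 : ℕ) : ℝ) / 2 ≤ (J.card : ℝ) ∧
      ∀ b ∈ J, ¬ HCell n U a l L g f b (outside g f (a * L) A))
    (R := fun A => (∃ Gd ⊆ cellIdx n g, N ≤ Gd.card ∧
        ∀ b ∈ Gd, HCell n U a l L g f b (A \ (cellIdx n g).biUnion (cell n g f (a * L)))) ∧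
      ∀ b ∈ cellIdx n g, HCell n U a l L g f b (A \ (cellIdx n g).biUnion (cell n g f (a * L))) →
        ¬ cell n g f (a * L) b ⊆ A) ?_).trans (add_le_add ?_ ?_)
  · intro A _ hA
    have hsum := card_filter_add_card_filter_not (s := cellIdx n g)
      (fun b => HCell n U a l L g f b (outside g f (a * L) A))
    rw [card_cellIdx] at hsum
    by_cases hcase : (n / g) ^ 2 ≤ 2 * ((cellIdx n g).filter
        (fun b => ¬ HCell n U a l L g f b (outside g f (a * L) A))).card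
    · left
      refine ⟨_, filter_subset _ _, ?_, fun b hb => (mem_filter.1 hb).2⟩
      rw [div_le_iff₀ (by norm_num), mul_comm]
      exact_mod_cast hcase
    · right
      refine ⟨⟨_, filter_subset (fun b => HCell n U a l L g f b (outside g f (a * L) A)) _,
        by omega, fun b hb => (mem_filter.1 hb).2⟩, fun b hb hH hc => ?_⟩
      exact hA.2 (perc_of_HCell hnuc hL hg hb hA.1 hH hc)
  · refine (mu_le_sum (cellIdx n g)
      (fun b A => ¬ HCell n U a l L g f b (outside g f (a * L) A)) _ (half_pos hm)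
      (fun A _ hA => hA)).trans ?_
    rw [div_le_iff₀ (half_pos hm)]
    refine (sum_le_sum (fun b hb => mu_not_HCell hg hf ht hb)).trans (le_of_eq ?_)
    rw [sum_const, card_cellIdx, nsmul_eq_mul]
    ring
  · refine (mu_le_Ex (Torus n) t (by rw [card_torus]; exact ht)
      (by rw [card_torus]; positivity) _).trans ?_
    rw [card_torus]
    push_cast
    refine mul_le_mul_of_nonneg_left ?_ (by positivity)
    exact no_full (cellIdx n g) (cell n g f (a * L)) ((2 * (a * L) + 1) ^ 2) N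
      (fun b hb => cell_card hg hb) (fun b _ b' _ h => cell_disj hg h) _ hp0 hp1
      (HCell n U a l L g f)

theorem one_sub_pow_le_exp {p : ℝ} (hp : p ≤ 1) (N : ℕ) : (1 - p) ^ N ≤ Real.exp (-(p * N)) := by
  calc (1 - p) ^ N ≤ (Real.exp (-p)) ^ N :=
        pow_le_pow_left₀ (by linarith) (by linarith [Real.add_one_le_exp (-p)]) N
    _ = Real.exp (-(p * N)) := by rw [← Real.exp_nat_mul]; congr 1; ring

theorem exp_neg_le_cube {z : ℝ} (hz : 0 < z) : Real.exp (-z) ≤ 6 / z ^ 3 := by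
  have h := Real.pow_div_factorial_le_exp z hz.le 3
  have e : ((Nat.factorial 3 : ℕ) : ℝ) = 6 := by norm_num [Nat.factorial]
  rw [e] at h
  rw [Real.exp_neg, inv_eq_one_div, div_le_div_iff₀ (Real.exp_pos z) (by positivity)]
  linarith

theorem density_bounds {y n : ℕ} (hy : 1 ≤ y) (hn : 2 * y ≤ n) :
    1 / (2 * (y : ℝ)) ≤ ((n ^ 2 / y : ℕ) : ℝ) / (n : ℝ) ^ 2 := by
  have hn0 : (0 : ℝ) < n := by exact_mod_cast (by omega : 0 < n)
  have hy0 : (0 : ℝ) < y := by exact_mod_cast hy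
  rw [div_le_div_iff₀ (by positivity) (by positivity), one_mul]
  have h1 : n ^ 2 < (n ^ 2 / y + 1) * y := by
    have := Nat.lt_div_mul_add (a := n ^ 2) (b := y) (by omega)
    nlinarith
  have h2 : 2 * y ≤ n ^ 2 := hn.trans (Nat.le_self_pow (by norm_num) n)
  have h3 : n ^ 2 ≤ n ^ 2 / y * (2 * y) := by nlinarith
  exact_mod_cast h3

theorem est_nuc {K : Finset Pt} {r U a : ℕ} (hnuc : NucProp K r U a) :
    ∀ᶠ y : ℕ in atTop, ∀ (n : ℕ) [NeZero n], Scale y n →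
      mu (Torus n) (n ^ 2 / y)
        (fun A => LinesT U (y ^ 23) A ∧ clT n K r (A : Set (Torus n)) ≠ Set.univ) ≤ 1 / y := by
  filter_upwards [eventually_ge_atTop 1, eventually_ge_atTop ((2 * a + 1) ^ 2),
    poly_le_exp (4 * (((2 * a + 1) * (4 * a ^ 2 + 1) ^ 2 * (2 * U + 1) ^ 2 : ℕ) : ℝ)) 70 (1 / 2)
      (by norm_num),
    poly_le_scale (98304 * (4 * ((a + U) * a) + 2 * a + 1) ^ 6) 139] with y hy1 hya hexp hsc
  intro n _ hn
  have hbig := hsc n hn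
  have hy0 : (0 : ℝ) < y := by exact_mod_cast hy1
  have hn0 : 0 < n := Nat.pos_of_ne_zero (NeZero.ne n)
  have hnR : (0 : ℝ) < n := by exact_mod_cast hn0
  have hn1 : (1 : ℝ) ≤ n := by exact_mod_cast hn0
  have hy23 : 1 ≤ y ^ 23 := Nat.one_le_pow _ _ hy1
  have hy2 : 1 ≤ y ^ 2 := Nat.one_le_pow _ _ hy1
  have hy223 : y ^ 2 ≤ y ^ 23 := Nat.pow_le_pow_right hy1 (by norm_num)
  set f := (a + U) * (a * (y ^ 23 + 1)) with hf
  set g := 2 * f + 2 * (a * y ^ 2) + 1 with hg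
  set G := 4 * ((a + U) * a) + 2 * a + 1 with hG
  have hG1 : 1 ≤ G := by omega
  have hgG : g ≤ G * y ^ 23 := by
    have e1 : f ≤ 2 * ((a + U) * a) * y ^ 23 := by
      calc f ≤ (a + U) * (a * (2 * y ^ 23)) := by rw [hf]; gcongr; omega
        _ = 2 * ((a + U) * a) * y ^ 23 := by ring
    have e2 : a * y ^ 2 ≤ a * y ^ 23 := Nat.mul_le_mul_left a hy223
    have e3 : G * y ^ 23 = 2 * (2 * ((a + U) * a) * y ^ 23) + 2 * (a * y ^ 23) + y ^ 23 := by
      rw [hG]; ring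
    omega
  have hg1 : 1 ≤ g := by omega
  have hg6 : 98304 * g ^ 6 * y ≤ n := by
    calc 98304 * g ^ 6 * y ≤ 98304 * (G * y ^ 23) ^ 6 * y := by gcongr
      _ = 98304 * G ^ 6 * y ^ 139 := by ring
      _ ≤ n := hbig
  have hgg : g ≤ g ^ 6 := Nat.le_self_pow (by norm_num) g
  have hg61 : 1 ≤ g ^ 6 := hg1.trans hgg
  have h2g : 2 * g ≤ n := by nlinarith
  have h2y : 2 * y ≤ n := by nlinarith
  have hq2 : 2 ≤ n / g := (Nat.le_div_iff_mul_le hg1).2 h2g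
  have ht : n ^ 2 / y ≤ n ^ 2 := Nat.div_le_self _ _
  have main := nuc_torus hnuc n g f (y ^ 23) (y ^ 2) (n ^ 2 / y) ((n / g) ^ 2 / 2) hy2 le_rfl le_rfl
    ht (Nat.mul_div_le _ 2) (by omega)
  have hp := density_bounds hy1 h2y
  set p : ℝ := ((n ^ 2 / y : ℕ) : ℝ) / (n : ℝ) ^ 2 with hpdef
  have hp1 : p ≤ 1 := by
    rw [hpdef, div_le_one (by positivity)]; exact_mod_cast ht
  have hp0 : 0 ≤ p := le_trans (by positivity) hp
  refine main.trans ?_
  have hhalf : (1 : ℝ) / y = 1 / (2 * y) + 1 / (2 * y) := by field_simp; ring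
  rw [hhalf]
  refine add_le_add ?_ ?_
  · have c1 : (a * (y ^ 23 + 1) + 1) * (2 * (a * (a * (y ^ 23 + 1))) + 1) ^ 2 * (2 * U + 1) ^ 2 ≤
        (2 * a + 1) * (4 * a ^ 2 + 1) ^ 2 * (2 * U + 1) ^ 2 * y ^ 69 := by
      have d1 : a * (y ^ 23 + 1) + 1 ≤ (2 * a + 1) * y ^ 23 := by nlinarith
      have d2 : 2 * (a * (a * (y ^ 23 + 1))) + 1 ≤ (4 * a ^ 2 + 1) * y ^ 23 := by
        have : a ^ 2 ≤ a ^ 2 * y ^ 23 := Nat.le_mul_of_pos_right _ hy23
        nlinarith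
      calc _ ≤ ((2 * a + 1) * y ^ 23) * ((4 * a ^ 2 + 1) * y ^ 23) ^ 2 * (2 * U + 1) ^ 2 := by
            gcongr
        _ = _ := by ring
    have c2 : (1 - p) ^ (y ^ 2) ≤ Real.exp (-(1 / 2 * y)) := by
      refine (one_sub_pow_le_exp hp1 _).trans (Real.exp_le_exp.2 (neg_le_neg ?_))
      push_cast
      calc 1 / 2 * (y : ℝ) = 1 / (2 * y) * y ^ 2 := by field_simp
        _ ≤ p * y ^ 2 := by gcongr
    have c3 : (((a * (y ^ 23 + 1) + 1) * (2 * (a * (a * (y ^ 23 + 1))) + 1) ^ 2 *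
        (2 * U + 1) ^ 2 : ℕ) : ℝ) ≤
        (((2 * a + 1) * (4 * a ^ 2 + 1) ^ 2 * (2 * U + 1) ^ 2 : ℕ) : ℝ) * (y : ℝ) ^ 69 := by
      exact_mod_cast c1
    generalize (((a * (y ^ 23 + 1) + 1) * (2 * (a * (a * (y ^ 23 + 1))) + 1) ^ 2 *
        (2 * U + 1) ^ 2 : ℕ) : ℝ) = X at c3 ⊢
    have hC : (0 : ℝ) ≤ (((2 * a + 1) * (4 * a ^ 2 + 1) ^ 2 * (2 * U + 1) ^ 2 : ℕ) : ℝ) :=
      Nat.cast_nonneg _
    generalize (((2 * a + 1) * (4 * a ^ 2 + 1) ^ 2 * (2 * U + 1) ^ 2 : ℕ) : ℝ) = C at c3 hexp hC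
    have c4 : X * (1 - p) ^ (y ^ 2) ≤ C * (y : ℝ) ^ 69 * Real.exp (-(1 / 2 * y)) :=
      mul_le_mul c3 c2 (pow_nonneg (by linarith) _) (by positivity)
    rw [le_div_iff₀ (by positivity)]
    calc 2 * (X * (1 - p) ^ (y ^ 2)) * (2 * y) ≤
          2 * (C * (y : ℝ) ^ 69 * Real.exp (-(1 / 2 * y))) * (2 * y) := by gcongr
      _ = 4 * C * (y : ℝ) ^ 70 * Real.exp (-(1 / 2 * y)) := by ring
      _ ≤ 1 := hexp
  · have k1 : (2 * (a * y ^ 2) + 1) ^ 2 ≤ y ^ 5 := by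
      calc (2 * (a * y ^ 2) + 1) ^ 2 ≤ ((2 * a + 1) * y ^ 2) ^ 2 := by gcongr; nlinarith
        _ = (2 * a + 1) ^ 2 * y ^ 4 := by ring
        _ ≤ y * y ^ 4 := Nat.mul_le_mul_right _ hya
        _ = y ^ 5 := by ring
    have k2 : (2 * y) ^ (y ^ 5) ≤ n := by
      have : 2 * y ≤ 2 ^ y := by
        obtain ⟨m, rfl⟩ : ∃ m, y = m + 1 := ⟨y - 1, by omega⟩
        have := Nat.lt_two_pow_self (n := m)
        rw [pow_succ]; omega
      calc (2 * y) ^ (y ^ 5) ≤ (2 ^ y) ^ (y ^ 5) := Nat.pow_le_pow_left this _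
        _ = 2 ^ (y ^ 6) := by rw [← pow_mul]; congr 1; ring
        _ ≤ n := hn.1
    have k3 : 1 / (n : ℝ) ≤ p ^ ((2 * (a * y ^ 2) + 1) ^ 2) := by
      have h2y1 : (1 : ℝ) ≤ 2 * y := by
        have : (1 : ℝ) ≤ y := by exact_mod_cast hy1
        linarith
      calc 1 / (n : ℝ) ≤ 1 / (2 * (y : ℝ)) ^ (y ^ 5) := by
            refine one_div_le_one_div_of_le (by positivity) ?_
            exact_mod_cast k2
        _ = (1 / (2 * (y : ℝ))) ^ (y ^ 5) := by rw [one_div_pow]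
        _ ≤ (1 / (2 * (y : ℝ))) ^ ((2 * (a * y ^ 2) + 1) ^ 2) :=
            pow_le_pow_of_le_one (by positivity) ((div_le_one (by positivity)).2 h2y1) k1
        _ ≤ p ^ ((2 * (a * y ^ 2) + 1) ^ 2) := pow_le_pow_left₀ (by positivity) hp _
    have k4 : n ^ 2 ≤ 16 * g ^ 2 * ((n / g) ^ 2 / 2) := by
      have e1 : n < n / g * g + g := Nat.lt_div_mul_add hg1
      have e2 : n ≤ 2 * (n / g) * g := by nlinarith
      have e3 : (n / g) ^ 2 ≤ 4 * ((n / g) ^ 2 / 2) := by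
        have : 4 ≤ (n / g) ^ 2 := by nlinarith
        omega
      calc n ^ 2 ≤ (2 * (n / g) * g) ^ 2 := Nat.pow_le_pow_left e2 2
        _ = 4 * g ^ 2 * (n / g) ^ 2 := by ring
        _ ≤ 4 * g ^ 2 * (4 * ((n / g) ^ 2 / 2)) := Nat.mul_le_mul_left _ e3
        _ = 16 * g ^ 2 * ((n / g) ^ 2 / 2) := by ring
    generalize (n / g) ^ 2 / 2 = N at k4 ⊢
    have hgR : (0 : ℝ) < g := by exact_mod_cast hg1
    have k4' : (n : ℝ) ^ 2 ≤ 16 * (g : ℝ) ^ 2 * N := by exact_mod_cast k4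
    have hg6' : 98304 * (g : ℝ) ^ 6 * y ≤ n := by exact_mod_cast hg6
    have hpk : p ^ ((2 * (a * y ^ 2) + 1) ^ 2) ≤ 1 := pow_le_one₀ hp0 hp1
    generalize p ^ ((2 * (a * y ^ 2) + 1) ^ 2) = P at k3 hpk ⊢
    have k5 : (n : ℝ) / (16 * (g : ℝ) ^ 2) ≤ P * N := by
      calc (n : ℝ) / (16 * (g : ℝ) ^ 2) = 1 / n * ((n : ℝ) ^ 2 / (16 * (g : ℝ) ^ 2)) := by
            field_simp
        _ ≤ P * N := by
            refine mul_le_mul k3 ?_ (by positivity) (le_trans (by positivity) k3)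
            rw [div_le_iff₀ (by positivity)]; linarith
    have k6 : (1 - P) ^ N ≤ 6 / ((n : ℝ) / (16 * (g : ℝ) ^ 2)) ^ 3 :=
      (one_sub_pow_le_exp hpk N).trans
        ((Real.exp_le_exp.2 (neg_le_neg k5)).trans (exp_neg_le_cube (by positivity)))
    have k7 : (n : ℝ) ^ 2 + 1 ≤ 2 * (n : ℝ) ^ 2 := by nlinarith
    calc ((n : ℝ) ^ 2 + 1) * (1 - P) ^ N ≤
          2 * (n : ℝ) ^ 2 * (6 / ((n : ℝ) / (16 * (g : ℝ) ^ 2)) ^ 3) :=
          mul_le_mul k7 k6 (pow_nonneg (by linarith) _) (by positivity)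
      _ = (98304 * (g : ℝ) ^ 6 * y) / n * (1 / (2 * y)) := by field_simp; ring
      _ ≤ 1 * (1 / (2 * y)) := by
          refine mul_le_mul_of_nonneg_right ((div_le_one hnR).2 hg6') (by positivity)
      _ = 1 / (2 * y) := one_mul _

end Pool.Agent.P.MP_9594ac_pr
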