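import Pool.Agent.P.MP_9594ac_pr.Basic

namespace Pool.Agent.P.MP_9594ac_pr

open Finset Filter

theorem pin_row {f : ℤ → ℤ → Prop} (C h : ℕ) (a0 b0 : ℤ)
    (H : ∀ a : ℤ, a0 ≤ a → a + 3 * h + C ≤ a0 + ((C + 1) * (C + 3 * h) : ℕ) →
      ∃ u v : ℤ, a ≤ u ∧ u < a + C ∧ b0 ≤ v ∧ v < b0 + C ∧ f u v) :
    ∃ u u' v : ℤ, f u v ∧ f u' v ∧ a0 ≤ u ∧ u + 3 * h < u' ∧
      u' + 3 * h < a0 + ((C + 1) * (C + 3 * h) : ℕ) ∧ b0 ≤ v ∧ v < b0 + C := by
  have key : ∀ i : Fin (C + 1), a0 ≤ a0 + (i : ℕ) * ((C : ℤ) + 3 * h) ∧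
      a0 + (i : ℕ) * ((C : ℤ) + 3 * h) + 3 * h + C ≤ a0 + ((C + 1) * (C + 3 * h) : ℕ) := by
    intro i
    have h1 : ((i : ℕ) : ℤ) ≤ C := by exact_mod_cast Nat.lt_succ_iff.1 i.2
    have h2 : (0 : ℤ) ≤ (C : ℤ) + 3 * h := by positivity
    have h3 := mul_le_mul_of_nonneg_right h1 h2
    have h4 : (0 : ℤ) ≤ (i : ℕ) * ((C : ℤ) + 3 * h) := by positivity
    push_cast
    constructor <;> linarith
  choose u v h1 h2 h3 h4 h5 using fun i : Fin (C + 1) => H _ (key i).1 (key i).2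
  obtain ⟨i, -, j, -, hij, hv⟩ := exists_ne_map_eq_of_card_lt_of_maps_to
    (s := (univ : Finset (Fin (C + 1)))) (t := Ico b0 (b0 + C)) (f := v) (by simp)
    (fun i _ => by simp [h3 i, h4 i])
  have main : ∀ i j : Fin (C + 1), i < j → v i = v j → ∃ u u' v : ℤ, f u v ∧ f u' v ∧ a0 ≤ u ∧
      u + 3 * h < u' ∧ u' + 3 * h < a0 + ((C + 1) * (C + 3 * h) : ℕ) ∧ b0 ≤ v ∧ v < b0 + C := by
    intro i j hij hv
    have a1 : ((i : ℕ) : ℤ) + 1 ≤ (j : ℕ) := by exact_mod_cast hij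
    have a2 : (0 : ℤ) ≤ (C : ℤ) + 3 * h := by positivity
    have a3 := mul_le_mul_of_nonneg_right a1 a2
    refine ⟨u i, u j, v i, h5 i, hv ▸ h5 j, (key i).1.trans (h1 i), ?_, ?_, h3 i, h4 i⟩
    · linarith [h1 j, h2 i]
    · linarith [h2 j, (key j).2]
  rcases lt_or_gt_of_ne hij with h | h
  · exact main i j h hv
  · exact main j i h hv.symm

/-- The pinwheel shaped region. -/
def PinQ (L R B T t1 t2 l1 l2 b1 b2 r1 r2 : ℤ) (z : Pt) : Prop :=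
  L ≤ z.1 ∧ z.1 ≤ R ∧ B ≤ z.2 ∧ z.2 ≤ T ∧ ¬ (z.1 < t1 ∧ l2 < z.2) ∧ ¬ (t2 < z.1 ∧ r2 < z.2) ∧
    ¬ (b2 < z.1 ∧ z.2 < r1) ∧ ¬ (z.1 < b1 ∧ z.2 < l1)

theorem pin_geo {h : ℕ} {x1 x2 V t t' yT l l' xL b b' yB r r' xR : ℤ} {y : Pt}
    (t1 : x1 + 1 ≤ t) (t2 : t + 3 * h < t') (t3 : t' + 6 * h < x1 + V) (t4 : x2 + V ≤ yT)
    (l1 : x2 + 1 ≤ l) (l2 : l + 3 * h < l') (l3 : l' + 6 * h < x2 + V) (l4 : xL < x1 - V)
    (b1 : x1 - V + 3 * h < b) (b2 : b + 3 * h < b') (b3 : b' + 3 * h < x1) (b4 : yB < x2 - V)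
    (r1 : x2 - V + 3 * h < r) (r2 : r + 3 * h < r') (r3 : r' + 3 * h < x2) (r4 : x1 + V ≤ xR)
    (s1 : ¬ InBox (t, yT) h y) (s2 : ¬ InBox (t', yT) h y)
    (s3 : ¬ InBox (xL, l) h y) (s4 : ¬ InBox (xL, l') h y)
    (s5 : ¬ InBox (b, yB) h y) (s6 : ¬ InBox (b', yB) h y)
    (s7 : ¬ InBox (xR, r) h y) (s8 : ¬ InBox (xR, r') h y)
    (hy : PinQ xL (xR + h - 1) yB (yT + h - 1) t (t' + h - 1) l (l' + h - 1) b (b' + h - 1) r
      (r' + h - 1) y) (F : Finset Pt)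
    (hF : ∀ z ∈ F, Near 0 h z ∧ ¬ PinQ xL (xR + h - 1) yB (yT + h - 1) t (t' + h - 1) l
      (l' + h - 1) b (b' + h - 1) r (r' + h - 1) (y + z)) :
    (∀ z ∈ F, z.1 < 0) ∨ (∀ z ∈ F, 0 < z.1) ∨ (∀ z ∈ F, z.2 < 0) ∨ (∀ z ∈ F, 0 < z.2) := by
  simp only [PinQ, Near, Prod.fst_add, Prod.snd_add, Prod.fst_zero, Prod.snd_zero] at hy hF
  by_cases c1 : yT ≤ y.2
  · simp only [InBox] at s1 s2
    exact Or.inr (Or.inr (Or.inr fun z hz => by have := hF z hz; omega))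
  by_cases c2 : y.1 < xL + h
  · simp only [InBox] at s3 s4
    exact Or.inl fun z hz => by have := hF z hz; omega
  by_cases c3 : y.2 < yB + h
  · simp only [InBox] at s5 s6
    exact Or.inr (Or.inr (Or.inl fun z hz => by have := hF z hz; omega))
  by_cases c4 : xR ≤ y.1
  · simp only [InBox] at s7 s8
    exact Or.inr (Or.inl fun z hz => by have := hF z hz; omega)
  by_cases c5 : y.1 < t + h ∧ l' ≤ y.2
  · by_cases d : t ≤ y.1
    · exact Or.inl fun z hz => by have := hF z hz; omega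
    · exact Or.inr (Or.inr (Or.inr fun z hz => by have := hF z hz; omega))
  by_cases c6 : t' ≤ y.1 ∧ r' ≤ y.2
  · by_cases d : y.1 ≤ t' + h - 1
    · exact Or.inr (Or.inl fun z hz => by have := hF z hz; omega)
    · exact Or.inr (Or.inr (Or.inr fun z hz => by have := hF z hz; omega))
  by_cases c7 : b' ≤ y.1 ∧ y.2 < r + h
  · by_cases d : y.1 ≤ b' + h - 1
    · exact Or.inr (Or.inl fun z hz => by have := hF z hz; omega)
    · exact Or.inr (Or.inr (Or.inl fun z hz => by have := hF z hz; omega))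
  by_cases c8 : y.1 < b + h ∧ y.2 < l + h
  · by_cases d : b ≤ y.1
    · exact Or.inl fun z hz => by have := hF z hz; omega
    · exact Or.inr (Or.inr (Or.inl fun z hz => by have := hF z hz; omega))
  exact Or.inl fun z hz => by have := hF z hz; omega

theorem pinwheel {K : Finset Pt} {r h : ℕ} (hN : Nice K r h) (C : ℕ) :
    ∃ R, PinProp K r h C R := by
  obtain ⟨W, hW⟩ : ∃ W : ℕ, W = (C + 1) * (C + 3 * h) := ⟨_, rfl⟩
  refine ⟨W + 3 * h + 1 + C + h, fun A x hx hA => ?_⟩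
  by_contra hcon
  have H : ∀ a b : ℤ, x.1 - (W + 3 * h + 1 + C + h) ≤ a → a + C ≤ x.1 + (W + 3 * h + 1 + C + h) →
      x.2 - (W + 3 * h + 1 + C + h) ≤ b → b + C ≤ x.2 + (W + 3 * h + 1 + C + h) →
      ∃ u v : ℤ, a ≤ u ∧ u < a + C ∧ b ≤ v ∧ v < b + C ∧ Tsq (clZ K r A) h (u, v) := by
    intro a b h1 h2 h3 h4
    by_contra hc
    refine hcon ⟨(a, b), fun y hy => ?_, fun y hy hT => hc ⟨y.1, y.2, hy.1, hy.2.1, hy.2.2.1,
      hy.2.2.2, hT⟩⟩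
    simp only [InBox, Near] at hy ⊢
    omega
  obtain ⟨t, t', yT, st, st', t1, t2, t3, t4, t5⟩ := pin_row
    (f := fun u v => Tsq (clZ K r A) h (u, v)) C h (x.1 + 1) (x.2 + (W + 3 * h + 1))
    (fun a a1 a2 => H _ _ (by omega) (by omega) (by omega) (by omega))
  obtain ⟨b, b', yB, sb, sb', b1, b2, b3, b4, b5⟩ := pin_row
    (f := fun u v => Tsq (clZ K r A) h (u, v)) C h (x.1 - W) (x.2 - (W + 3 * h + 1) - C)
    (fun a a1 a2 => H _ _ (by omega) (by omega) (by omega) (by omega))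
  obtain ⟨l, l', xL, sl, sl', l1, l2, l3, l4, l5⟩ := pin_row
    (f := fun u v => Tsq (clZ K r A) h (v, u)) C h (x.2 + 1) (x.1 - (W + 3 * h + 1) - C)
    (fun a a1 a2 => by
      obtain ⟨u, v, e1, e2, e3, e4, e5⟩ := H (x.1 - (W + 3 * h + 1) - C) a (by omega) (by omega)
        (by omega) (by omega)
      exact ⟨v, u, e3, e4, e1, e2, e5⟩)
  obtain ⟨ρ, ρ', xR, sr, sr', r1, r2, r3, r4, r5⟩ := pin_row
    (f := fun u v => Tsq (clZ K r A) h (v, u)) C h (x.2 - W) (x.1 + (W + 3 * h + 1))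
    (fun a a1 a2 => by
      obtain ⟨u, v, e1, e2, e3, e4, e5⟩ := H (x.1 + (W + 3 * h + 1)) a (by omega) (by omega)
        (by omega) (by omega)
      exact ⟨v, u, e3, e4, e1, e2, e5⟩)
  rw [← hW] at t3 b3 l3 r3
  have hpos := hN.hpos
  let Q : Pt → Prop := PinQ xL (xR + h - 1) yB (yT + h - 1) t (t' + h - 1) l (l' + h - 1) b
    (b' + h - 1) ρ (ρ' + h - 1)
  have hcl : ClosedZ K r {y | y ∈ clZ K r A ∧ ¬ Q y} := by
    intro y F hF hr hz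
    have hy : y ∈ clZ K r A := clZ_closed K r A y F hF hr fun z hzF => (hz z hzF).1
    refine ⟨hy, fun hQ => ?_⟩
    have := hN.axis F hF (pin_geo (x1 := x.1) (x2 := x.2) (V := W + 3 * h + 1)
      t1 t2 (by omega) t4 l1 l2 (by omega) (by omega) (by omega) b2 (by omega) (by omega)
      (by omega) r2 (by omega) r4 (fun e => st y e hy) (fun e => st' y e hy)
      (fun e => sl y e hy) (fun e => sl' y e hy) (fun e => sb y e hy) (fun e => sb' y e hy)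
      (fun e => sr y e hy) (fun e => sr' y e hy) hQ F
      fun z hzF => ⟨hN.bdd z (hF hzF), (hz z hzF).2⟩)
    omega
  have hsub : A ⊆ {y | y ∈ clZ K r A ∧ ¬ Q y} := by
    intro y hy
    refine ⟨subset_clZ K r A hy, fun hQ => hA y ?_ hy⟩
    simp only [Q, PinQ] at hQ
    simp only [Near]
    omega
  refine (clZ_min hcl hsub hx).2 ?_
  simp only [Q, PinQ]
  omega

end Pool.Agent.P.MP_9594ac_pr
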