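import Pool.Agent.P.MP_9594ac_pr.Classify
import Pool.Agent.P.MP_9594ac_pr.Bridge
import Pool.Agent.P.MP_9594ac_pr.FanExists
import Pool.Agent.P.MP_9594ac_pr.Pinwheel
import Pool.Agent.P.MP_9594ac_pr.Det
import Pool.Agent.P.MP_9594ac_pr.EstA
import Pool.Agent.P.MP_9594ac_pr.CoreTorus
import Pool.Agent.P.MP_9594ac_pr.NucTorus

namespace Pool.Agent.P.MP_9594ac_pr

open Finset Filter

theorem sparse_of_nice {K : Finset Pt} {r h : ℕ} (hN : Nice K r h) (ε : ℝ) (hε : 0 < ε) :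
    Tendsto (fun n : ℕ => badProb (K : Set Pt) r ε n) atTop (nhds 0) := by
  obtain ⟨F⟩ := exists_fan h
  obtain ⟨ρ, hρ⟩ := droplet hN F
  obtain ⟨k, C, a, hρC, hdet⟩ := hρ 51
  obtain ⟨a', hnuc⟩ := nucleation hN F
  obtain ⟨e, he⟩ := exists_nat_ge (4 / ε)
  set f : ℕ := 2 * h + F.U with hf
  set g : ℕ := 2 * f + (2 * ρ + 1) * (e + 1) with hgdef
  have hg : 2 * f + 2 * ρ + 1 ≤ g := by
    have : (2 * ρ + 1) * 1 ≤ (2 * ρ + 1) * (e + 1) := Nat.mul_le_mul_left _ (by omega)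
    omega
  have hge : ((2 * ρ + 1 : ℕ) : ℝ) ^ 2 ≤ ε / 4 * (g : ℝ) ^ 2 := by
    have h1 : ((2 * ρ + 1 : ℕ) : ℝ) * (e + 1) ≤ g := by
      have : (2 * ρ + 1) * (e + 1) ≤ g := by omega
      exact_mod_cast this
    have h2 : (1 : ℝ) ≤ ε / 4 * ((e : ℝ) + 1) ^ 2 := by
      have h3 : 4 ≤ ε * e := by rwa [div_le_iff₀ hε, mul_comm] at he
      have h4 : (0 : ℝ) ≤ e := Nat.cast_nonneg e
      nlinarith [mul_nonneg hε.le (mul_nonneg h4 h4)]
    calc ((2 * ρ + 1 : ℕ) : ℝ) ^ 2 = ((2 * ρ + 1 : ℕ) : ℝ) ^ 2 * 1 := (mul_one _).symm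
      _ ≤ ((2 * ρ + 1 : ℕ) : ℝ) ^ 2 * (ε / 4 * ((e : ℝ) + 1) ^ 2) := by gcongr
      _ = ε / 4 * (((2 * ρ + 1 : ℕ) : ℝ) * (e + 1)) ^ 2 := by ring
      _ ≤ ε / 4 * (g : ℝ) ^ 2 := by gcongr
  obtain ⟨R, hpin⟩ := pinwheel hN (2 * C + g)
  have key : ∀ᶠ y : ℕ in atTop, ∀ (n : ℕ), Scale y n → badProb (K : Set Pt) r ε n ≤ 5 / y := by
    filter_upwards [est_small hN ε hε, est_lines F.U g f ρ hg (by omega), est_dense k,
      est_nuc hnuc, est_core hN hg (by omega) hρC hdet hpin ε hε hge,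
      poly_le_scale (2 * h + 1) 0, eventually_ge_atTop 1] with y e0 e1 e2 e3 e4 hn hy n hs
    have hn' : 2 * h < n := by have := hn n hs; simp at this; omega
    have : NeZero n := ⟨by omega⟩
    have h01 : n ^ 2 / y ^ 15 ≤ n ^ 2 / y :=
      Nat.div_le_div_left (Nat.le_self_pow (by norm_num) y) (by omega)
    have h1 : n ^ 2 / y ≤ n ^ 2 := Nat.div_le_self _ _
    have hb := badProb_le hN n hn' ε _ _ h01 h1
      (fun A => LinesT F.U (y ^ 23) (outside g f ρ A))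
      (fun A => A.card ≤ n ^ 2 / y ∧ {x | DenseT A k 51 x}.ncard ≤ n ^ 2 / y ^ 49)
      (fun A B hAB hA => hA.mono (outside_mono g f ρ hAB))
      (fun A B hAB hB => ⟨(card_le_card hAB).trans hB.1,
        (Set.ncard_le_ncard (fun x hx => DenseT.mono hAB hx) (Set.toFinite _)).trans hB.2⟩)
    have e3' : mu (Torus n) (n ^ 2 / y) (fun A => LinesT F.U (y ^ 23) (outside g f ρ A) ∧
        clT n K r (A : Set (Torus n)) ≠ Set.univ) ≤ 1 / y :=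
      (mu_mono (fun A _ hA => ⟨hA.1.mono (outside_subset g f ρ A), hA.2⟩)).trans (e3 n hs)
    have e4' := (sum_le_sum (e4 n hs))
    rw [sum_const, nsmul_eq_mul] at e4'
    have hc : ((Icc (n ^ 2 / y ^ 15) (n ^ 2 / y)).card : ℝ) ≤ (n : ℝ) ^ 2 + 1 := by
      have : (Icc (n ^ 2 / y ^ 15) (n ^ 2 / y)).card ≤ n ^ 2 + 1 := by
        rw [Nat.card_Icc]; exact (Nat.sub_le _ _).trans (Nat.add_le_add_right h1 1)
      exact_mod_cast this
    have hy' : (0 : ℝ) < y := by exact_mod_cast hy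
    have e4'' : ((Icc (n ^ 2 / y ^ 15) (n ^ 2 / y)).card : ℝ) * (1 / (y * ((n : ℝ) ^ 2 + 1))) ≤
        1 / y := by
      calc _ ≤ ((n : ℝ) ^ 2 + 1) * (1 / (y * ((n : ℝ) ^ 2 + 1))) := by gcongr
        _ = 1 / y := by field_simp
    have := e0 n hs
    have := e1 n hs
    have := e2 n hs
    have e5 : (5 : ℝ) / y = 1 / y + 1 / y + 1 / y + 1 / y + 1 / y := by ring
    linarith
  rw [Metric.tendsto_nhds]
  intro δ hδ
  obtain ⟨y₀, hy₀⟩ := eventually_atTop.1 key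
  obtain ⟨y₁, hy₁⟩ := exists_nat_gt (5 / δ)
  filter_upwards [exists_scale (max y₀ y₁)] with n ⟨y, hy, hs⟩
  have h0 : 0 ≤ badProb (K : Set Pt) r ε n := div_nonneg (Nat.cast_nonneg _) (Nat.cast_nonneg _)
  rw [Real.dist_eq, sub_zero, abs_of_nonneg h0]
  have h1 : (y₁ : ℝ) ≤ y := by exact_mod_cast le_trans (le_max_right _ _) hy
  have h2 : (0 : ℝ) < y := lt_of_lt_of_le (lt_trans (by positivity) hy₁) h1
  refine lt_of_le_of_lt (hy₀ y (le_trans (le_max_left _ _) hy) n hs) ?_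
  rw [div_lt_iff₀ h2]
  rw [div_lt_iff₀ hδ] at hy₁
  nlinarith

theorem main (K : Set (EuclideanSpace ℝ (Fin 2))) (hconv : Convex ℝ K)
    (hrot : ∀ k ∈ K, ∃ k' ∈ K, k' 0 = -k 1 ∧ k' 1 = k 0)
    (hmax : IsGreatest ((fun k => ‖k‖) '' K) 1) (s : ℝ) (hs : 1 ≤ s)
    (hcrit : (threshold (lattice K s) : ℝ) ≤ ((lattice K s).ncard : ℝ) / 2)
    (ε : ℝ) (hε : 0 < ε) :
    Tendsto (fun n : ℕ => badProb (lattice K s) (threshold (lattice K s)) ε n) atTop (nhds 0) := by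
  obtain ⟨Kf, hKf, hL⟩ := exists_latConv K hconv hrot hmax s hs hcrit
  obtain ⟨h, hN⟩ := nice_of_latConv hL
  rw [← hKf, threshold_eq hL]
  exact sparse_of_nice hN ε hε

end Pool.Agent.P.MP_9594ac_pr
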