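import Pool.Agent.P.MP_9594ac_pr.Basic

/-! Merging of rectangles: a sparse finite set has a closed neighbourhood made of small hulls. -/

namespace Pool.Agent.P.MP_9594ac_pr

open Finset Filter

namespace MergeAux

/-- the rectangular hull of `X`, enlarged by `D`. -/
def Hull (D : ℕ) (X : Finset Pt) (a : Pt) : Prop :=
  (∃ p ∈ X, p.1 - D ≤ a.1) ∧ (∃ p ∈ X, a.1 ≤ p.1 + D) ∧
    (∃ p ∈ X, p.2 - D ≤ a.2) ∧ (∃ p ∈ X, a.2 ≤ p.2 + D)

/-- partitions of `Z` into small clusters. -/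
structure Inv (Z : Finset Pt) (j W : ℕ) (FF : Finset (Finset Pt)) : Prop where
  sub : ∀ X ∈ FF, X ⊆ Z
  ne : ∀ X ∈ FF, X.Nonempty
  disj : ∀ X ∈ FF, ∀ Y ∈ FF, X ≠ Y → Disjoint X Y
  cover : ∀ p ∈ Z, ∃ X ∈ FF, p ∈ X
  small : ∀ X ∈ FF, X.card < j
  diam : ∀ X ∈ FF, ∀ p ∈ X, ∀ q ∈ X, Near p ((X.card - 1) * W) q

theorem inv_single (Z : Finset Pt) (j W k : ℕ) (hZ : ∀ y, ¬ DenseZ (Z : Set Pt) (k + 1) j y) :
    Inv Z j W (Z.image (fun p => ({p} : Finset Pt))) where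
  sub := fun X hX => by
    obtain ⟨p, hp, rfl⟩ := mem_image.1 hX
    simpa using hp
  ne := fun X hX => by
    obtain ⟨p, _, rfl⟩ := mem_image.1 hX
    simp
  disj := fun X hX Y hY hne => by
    obtain ⟨p, _, rfl⟩ := mem_image.1 hX
    obtain ⟨q, _, rfl⟩ := mem_image.1 hY
    rw [disjoint_singleton]
    rintro rfl
    exact hne rfl
  cover := fun p hp => ⟨{p}, mem_image.2 ⟨p, hp, rfl⟩, mem_singleton_self p⟩
  small := fun X hX => by
    obtain ⟨p, hp, rfl⟩ := mem_image.1 hX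
    by_contra hc
    refine hZ p ⟨{p}, not_lt.1 hc, fun z hz => ?_⟩
    rw [mem_singleton] at hz
    subst hz
    refine ⟨?_, hp⟩
    simp only [InBox]
    omega
  diam := fun X hX p hp q hq => by
    obtain ⟨w, _, rfl⟩ := mem_image.1 hX
    rw [mem_singleton] at hp hq
    subst hp hq
    simp only [Near]
    omega

theorem near_cross {D E dX dY : ℕ} {X Y : Finset Pt} {a b : Pt}
    (hX : ∀ p ∈ X, ∀ q ∈ X, Near p dX q) (hY : ∀ p ∈ Y, ∀ q ∈ Y, Near p dY q)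
    (ha : Hull D X a) (hb : Hull D Y b) (hab : Near a E b) {p q : Pt} (hp : p ∈ X) (hq : q ∈ Y) :
    Near p (dX + dY + (2 * D + E)) q := by
  obtain ⟨⟨p1, hp1, a1⟩, ⟨p2, hp2, a2⟩, ⟨p3, hp3, a3⟩, ⟨p4, hp4, a4⟩⟩ := ha
  obtain ⟨⟨q1, hq1, b1⟩, ⟨q2, hq2, b2⟩, ⟨q3, hq3, b3⟩, ⟨q4, hq4, b4⟩⟩ := hb
  have x1 := hX p hp p1 hp1
  have x2 := hX p hp p2 hp2
  have x3 := hX p hp p3 hp3
  have x4 := hX p hp p4 hp4
  have y1 := hY q hq q1 hq1
  have y2 := hY q hq q2 hq2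
  have y3 := hY q hq q3 hq3
  have y4 := hY q hq q4 hq4
  simp only [Near] at *
  omega

theorem near_symm {p q : Pt} {R : ℕ} (h : Near p R q) : Near q R p := by
  simp only [Near] at *
  omega

theorem near_mono {p q : Pt} {R R' : ℕ} (h : Near p R q) (hR : R ≤ R') : Near p R' q := by
  simp only [Near] at *
  omega

theorem merge {Z : Finset Pt} {j D E : ℕ}
    (hZ : ∀ y, ¬ DenseZ (Z : Set Pt) (4 * j * (2 * D + E) + 1) j y) {FF : Finset (Finset Pt)}
    (hI : Inv Z j (2 * D + E) FF) {X Y : Finset Pt} (hX : X ∈ FF) (hY : Y ∈ FF) (hne : X ≠ Y)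
    {a b : Pt} (ha : Hull D X a) (hb : Hull D Y b) (hab : Near a E b) :
    ∃ FF' : Finset (Finset Pt), Inv Z j (2 * D + E) FF' ∧ FF'.card < FF.card := by
  classical
  set W := 2 * D + E with hW
  have hcard : (X ∪ Y).card = X.card + Y.card := card_union_of_disjoint (hI.disj X hX Y hY hne)
  obtain ⟨cX, hcX⟩ : ∃ c, X.card = c + 1 := ⟨X.card - 1, by have := (hI.ne X hX).card_pos; omega⟩
  obtain ⟨cY, hcY⟩ : ∃ c, Y.card = c + 1 := ⟨Y.card - 1, by have := (hI.ne Y hY).card_pos; omega⟩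
  have dX : ∀ p ∈ X, ∀ q ∈ X, Near p (cX * W) q := fun p hp q hq => by
    have := hI.diam X hX p hp q hq
    rwa [hcX, Nat.add_sub_cancel] at this
  have dY : ∀ p ∈ Y, ∀ q ∈ Y, Near p (cY * W) q := fun p hp q hq => by
    have := hI.diam Y hY p hp q hq
    rwa [hcY, Nat.add_sub_cancel] at this
  have hd : ∀ p ∈ X ∪ Y, ∀ q ∈ X ∪ Y, Near p (cX * W + cY * W + W) q := by
    intro p hp q hq
    rcases mem_union.1 hp with hp | hp <;> rcases mem_union.1 hq with hq | hq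
    · exact near_mono (dX p hp q hq) (by omega)
    · exact near_cross dX dY ha hb hab hp hq
    · exact near_symm (near_cross dX dY ha hb hab hq hp)
    · exact near_mono (dY p hp q hq) (by omega)
  have hsub : X ∪ Y ⊆ Z := union_subset (hI.sub X hX) (hI.sub Y hY)
  have hsmall : (X ∪ Y).card < j := by
    by_contra hc
    obtain ⟨p, hp⟩ := hI.ne X hX
    have h1 := hI.small X hX
    have h2 := hI.small Y hY
    have h3 : cX * W + cY * W + W ≤ 2 * (j * W) := by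
      have : (cX + cY + 1) * W ≤ (2 * j) * W := Nat.mul_le_mul_right W (by omega)
      nlinarith
    refine hZ (p.1 - (2 * (j * W) : ℕ), p.2 - (2 * (j * W) : ℕ)) ⟨X ∪ Y, not_lt.1 hc, fun z hz => ?_⟩
    refine ⟨?_, hsub hz⟩
    have h4 := near_mono (hd p (mem_union_left _ hp) z hz) h3
    have h5 : 4 * j * W = 4 * (j * W) := by ring
    rw [h5]
    generalize j * W = m at *
    simp only [Near, InBox] at *
    omega
  have hmem : ∀ V, V ∈ (FF.erase X).erase Y → V ∈ FF ∧ V ≠ X ∧ V ≠ Y := fun V hV => by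
    simp only [mem_erase] at hV
    exact ⟨hV.2.2, hV.2.1, hV.1⟩
  refine ⟨insert (X ∪ Y) ((FF.erase X).erase Y), ⟨?_, ?_, ?_, ?_, ?_, ?_⟩, ?_⟩
  · intro V hV
    rcases mem_insert.1 hV with rfl | hV
    · exact hsub
    · exact hI.sub V (hmem V hV).1
  · intro V hV
    rcases mem_insert.1 hV with rfl | hV
    · exact (hI.ne X hX).mono subset_union_left
    · exact hI.ne V (hmem V hV).1
  · intro V hV V' hV' hVV
    rcases mem_insert.1 hV with rfl | hV <;> rcases mem_insert.1 hV' with rfl | hV'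
    · exact absurd rfl hVV
    · obtain ⟨h1, h2, h3⟩ := hmem V' hV'
      exact disjoint_union_left.2 ⟨hI.disj X hX V' h1 h2.symm, hI.disj Y hY V' h1 h3.symm⟩
    · obtain ⟨h1, h2, h3⟩ := hmem V hV
      exact disjoint_union_right.2 ⟨hI.disj V h1 X hX h2, hI.disj V h1 Y hY h3⟩
    · exact hI.disj V (hmem V hV).1 V' (hmem V' hV').1 hVV
  · intro p hp
    obtain ⟨V, hV, hpV⟩ := hI.cover p hp
    by_cases h1 : V = X
    · exact ⟨X ∪ Y, mem_insert_self _ _, mem_union_left _ (h1 ▸ hpV)⟩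
    by_cases h2 : V = Y
    · exact ⟨X ∪ Y, mem_insert_self _ _, mem_union_right _ (h2 ▸ hpV)⟩
    exact ⟨V, mem_insert_of_mem (mem_erase.2 ⟨h2, mem_erase.2 ⟨h1, hV⟩⟩), hpV⟩
  · intro V hV
    rcases mem_insert.1 hV with rfl | hV
    · exact hsmall
    · exact hI.small V (hmem V hV).1
  · intro V hV
    rcases mem_insert.1 hV with rfl | hV
    · intro p hp q hq
      have e : ((X ∪ Y).card - 1) * W = cX * W + cY * W + W := by
        have : (X ∪ Y).card - 1 = cX + cY + 1 := by omega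
        rw [this]; ring
      rw [e]
      exact hd p hp q hq
    · exact hI.diam V (hmem V hV).1
  · have h1 := card_insert_le (X ∪ Y) ((FF.erase X).erase Y)
    have h2 := card_erase_add_one (mem_erase.2 ⟨hne.symm, hY⟩ : Y ∈ FF.erase X)
    have h3 := card_erase_add_one hX
    omega

theorem exists_sep {Z : Finset Pt} {j D E : ℕ}
    (hZ : ∀ y, ¬ DenseZ (Z : Set Pt) (4 * j * (2 * D + E) + 1) j y) :
    ∃ FF : Finset (Finset Pt), Inv Z j (2 * D + E) FF ∧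
      ∀ X ∈ FF, ∀ Y ∈ FF, ∀ a b : Pt, Hull D X a → Hull D Y b → Near a E b → X = Y := by
  classical
  have hex : ∃ n, ∃ FF : Finset (Finset Pt), Inv Z j (2 * D + E) FF ∧ FF.card = n :=
    ⟨_, _, inv_single Z j _ _ hZ, rfl⟩
  obtain ⟨FF, hI, hc⟩ := Nat.find_spec hex
  refine ⟨FF, hI, fun X hX Y hY a b ha hb hab => ?_⟩
  by_contra hne
  obtain ⟨FF', hI', hlt⟩ := merge hZ hI hX hY hne ha hb hab
  exact Nat.find_min hex (hc ▸ hlt) ⟨FF', hI', rfl⟩

end MergeAux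

open MergeAux

theorem gen {K : Finset Pt} {r h : ℕ} (hN : Nice K r h) (D E j : ℕ) (hE : 2 * h ≤ E)
    (Z : Finset Pt) (hZ : ∀ y, ¬ DenseZ (Z : Set Pt) (4 * j * (2 * D + E) + 1) j y) :
    ∃ G : Set Pt, ClosedZ K r G ∧ (∀ p ∈ Z, ∀ y, Near p D y → y ∈ G) ∧
      (∀ y ∈ G, ∃ p ∈ Z, Near p (j * (2 * D + E) + D) y) ∧
      ∀ (x t : Pt) (s : ℕ), Dir E t → (∀ i : ℕ, i ≤ s → x + (i : ℤ) • t ∈ G) →
        s ≤ j * (2 * D + E) + 2 * D := by
  obtain ⟨FF, hI, hsep⟩ := exists_sep hZ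
  have hdiam : ∀ X ∈ FF, ∀ p ∈ X, ∀ q ∈ X, Near p (j * (2 * D + E)) q := fun X hX p hp q hq =>
    near_mono (hI.diam X hX p hp q hq)
      (Nat.mul_le_mul_right _ (by have := hI.small X hX; omega))
  refine ⟨{a | ∃ X ∈ FF, Hull D X a}, ?_, ?_, ?_, ?_⟩
  · intro x F hF hr hz
    have hr1 : 0 < r := by
      have := hN.axis ∅ (empty_subset _) (Or.inl (by simp))
      simpa using this
    obtain ⟨z0, hz0⟩ : F.Nonempty := card_pos.1 (by omega)
    obtain ⟨X, hX, hX0⟩ := hz z0 hz0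
    have hall : ∀ z ∈ F, Hull D X (x + z) := fun z hzF => by
      obtain ⟨Y, hY, hY0⟩ := hz z hzF
      have e : X = Y := hsep X hX Y hY _ _ hX0 hY0 (by
        have h1 := hN.bdd z0 (hF hz0)
        have h2 := hN.bdd z (hF hzF)
        simp only [Near, Prod.fst_add, Prod.snd_add, Prod.fst_zero, Prod.snd_zero] at *
        omega)
      rw [e]; exact hY0
    refine ⟨X, hX, ?_⟩
    have hax := hN.axis F hF
    refine ⟨?_, ?_, ?_, ?_⟩ <;> by_contra hc <;> push Not at hc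
    · have : F.card < r := hax (Or.inr (Or.inl fun z hzF => by
        obtain ⟨p, hp, h1⟩ := (hall z hzF).1
        have h2 := hc p hp
        simp only [Prod.fst_add] at h1
        omega))
      omega
    · have : F.card < r := hax (Or.inl fun z hzF => by
        obtain ⟨p, hp, h1⟩ := (hall z hzF).2.1
        have h2 := hc p hp
        simp only [Prod.fst_add] at h1
        omega)
      omega
    · have : F.card < r := hax (Or.inr (Or.inr (Or.inr fun z hzF => by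
        obtain ⟨p, hp, h1⟩ := (hall z hzF).2.2.1
        have h2 := hc p hp
        simp only [Prod.snd_add] at h1
        omega)))
      omega
    · have : F.card < r := hax (Or.inr (Or.inr (Or.inl fun z hzF => by
        obtain ⟨p, hp, h1⟩ := (hall z hzF).2.2.2
        have h2 := hc p hp
        simp only [Prod.snd_add] at h1
        omega)))
      omega
  · intro p hp y hy
    obtain ⟨X, hX, hpX⟩ := hI.cover p hp
    exact ⟨X, hX, ⟨p, hpX, hy.1⟩, ⟨p, hpX, hy.2.1⟩, ⟨p, hpX, hy.2.2.1⟩, ⟨p, hpX, hy.2.2.2⟩⟩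
  · rintro y ⟨X, hX, ⟨p1, hp1, a1⟩, ⟨p2, hp2, a2⟩, ⟨p3, hp3, a3⟩, ⟨p4, hp4, a4⟩⟩
    refine ⟨p1, hI.sub X hX hp1, ?_⟩
    have x2 := hdiam X hX p1 hp1 p2 hp2
    have x3 := hdiam X hX p1 hp1 p3 hp3
    have x4 := hdiam X hX p1 hp1 p4 hp4
    generalize j * (2 * D + E) = m at *
    simp only [Near] at *
    omega
  · intro x t s ht hall
    obtain ⟨X, hX, hX0⟩ := hall 0 (Nat.zero_le s)
    have hin : ∀ i : ℕ, i ≤ s → Hull D X (x + (i : ℤ) • t) := by
      intro i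
      induction i with
      | zero => intro _; exact hX0
      | succ i ih =>
        intro hi
        obtain ⟨Y, hY, hY0⟩ := hall (i + 1) hi
        have e : X = Y := hsep X hX Y hY _ _ (ih (by omega)) hY0 (by
          have h1 := ht.2
          simp only [Near, Prod.fst_add, Prod.snd_add, Prod.fst_zero, Prod.snd_zero,
            Prod.smul_fst, Prod.smul_snd, smul_eq_mul, Nat.cast_succ, add_mul, one_mul] at *
          omega)
        rw [e]; exact hY0
    obtain ⟨⟨p1, hp1, a1⟩, ⟨p2, hp2, a2⟩, ⟨p3, hp3, a3⟩, ⟨p4, hp4, a4⟩⟩ := hX0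
    obtain ⟨⟨q1, hq1, b1⟩, ⟨q2, hq2, b2⟩, ⟨q3, hq3, b3⟩, ⟨q4, hq4, b4⟩⟩ := hin s le_rfl
    have x1 := hdiam X hX p1 hp1 q2 hq2
    have x2 := hdiam X hX p2 hp2 q1 hq1
    have x3 := hdiam X hX p3 hp3 q4 hq4
    have x4 := hdiam X hX p4 hp4 q3 hq3
    generalize j * (2 * D + E) = m at *
    simp only [Near, Prod.fst_add, Prod.snd_add, Prod.smul_fst, Prod.smul_snd, smul_eq_mul,
      Nat.cast_zero, zero_mul, add_zero] at *
    have hs0 : (0 : ℤ) ≤ s := Nat.cast_nonneg s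
    have key : ∀ c : ℤ, c ≠ 0 → (s : ℤ) ≤ s * c ∨ (s : ℤ) ≤ -(s * c) := fun c hc => by
      rcases lt_or_gt_of_ne hc with h1 | h1
      · right; nlinarith
      · left; nlinarith
    have ht0 : t.1 ≠ 0 ∨ t.2 ≠ 0 := by
      by_contra hc
      push Not at hc
      exact ht.1 (Prod.ext hc.1 hc.2)
    rcases ht0 with h1 | h1
    · rcases key _ h1 with h2 | h2 <;> omega
    · rcases key _ h1 with h2 | h2 <;> omega

theorem small_closure {K : Finset Pt} {r h : ℕ} (hN : Nice K r h) (j : ℕ) (A : Set Pt)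
    (hA : ∀ y, ¬ DenseZ A (8 * j * h + 1) j y) :
    ∀ y ∈ clZ K r A, ∃ p ∈ A, Near p (2 * j * h) y := by
  classical
  have hcl : ClosedZ K r {y | ∃ Z : Finset Pt, (Z : Set Pt) ⊆ A ∧ y ∈ clZ K r (Z : Set Pt)} := by
    intro x F hF hr hz
    have hz' : ∀ z, ∃ Z : Finset Pt, z ∈ F → ((Z : Set Pt) ⊆ A ∧ x + z ∈ clZ K r (Z : Set Pt)) := by
      intro z
      by_cases hzF : z ∈ F
      · obtain ⟨Z, hZ⟩ := hz z hzF
        exact ⟨Z, fun _ => hZ⟩
      · exact ⟨∅, fun hh => absurd hh hzF⟩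
    choose Zf hZf using hz'
    refine ⟨F.biUnion Zf, ?_, ?_⟩
    · intro p hp
      obtain ⟨z, hzF, hpz⟩ := mem_biUnion.1 (mem_coe.1 hp)
      exact (hZf z hzF).1 hpz
    · refine clZ_closed K r _ x F hF hr (fun z hzF => clZ_mono ?_ (hZf z hzF).2)
      exact coe_subset.2 (subset_biUnion_of_mem Zf hzF)
  intro y hy
  obtain ⟨Z, hZA, hyZ⟩ := clZ_min hcl (fun p hp => ⟨{p}, by simpa using hp,
    subset_clZ K r _ (by simp)⟩) hy
  obtain ⟨G, hG, h1, h2, -⟩ := gen hN 0 (2 * h) j le_rfl Z (fun w hw => by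
    obtain ⟨F, hF, hz⟩ := hw
    have e : 4 * j * (2 * 0 + 2 * h) + 1 = 8 * j * h + 1 := by ring
    rw [e] at hz
    exact hA w ⟨F, hF, fun z hzF => ⟨(hz z hzF).1, hZA (hz z hzF).2⟩⟩)
  have hyG : y ∈ G := clZ_min hG (fun p hp => h1 p hp p (by simp [Near])) hyZ
  obtain ⟨p, hp, hn⟩ := h2 y hyG
  have e : j * (2 * 0 + 2 * h) + 0 = 2 * j * h := by ring
  rw [e] at hn
  exact ⟨p, hZA hp, hn⟩

end Pool.Agent.P.MP_9594ac_pr
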