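import Pool.Agent.P.MP_9594ac_pr.Basic

/-! Lattice polygons whose normals are the rays of a unimodular fan. -/

namespace Pool.Agent.P.MP_9594ac_pr

open Finset

theorem dot_add (x y u : Pt) : dot (x + y) u = dot x u + dot y u := by
  simp only [dot, Prod.fst_add, Prod.snd_add]; ring

theorem dot_sub (x y u : Pt) : dot (x - y) u = dot x u - dot y u := by
  simp only [dot, Prod.fst_sub, Prod.snd_sub]; ring

theorem dot_smul (s : ℤ) (x u : Pt) : dot (s • x) u = s * dot x u := by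
  simp only [dot, Prod.smul_fst, Prod.smul_snd, smul_eq_mul]; ring

theorem dot_neg (x u : Pt) : dot (-x) u = -dot x u := by
  simp only [dot, Prod.fst_neg, Prod.snd_neg]; ring

theorem dot_zero (u : Pt) : dot 0 u = 0 := by simp [dot]

theorem dot_rot (u v : Pt) : dot (rot u) v = cross u v := by
  simp only [dot, rot, cross]; ring

theorem cross_comm (u v : Pt) : cross u v = -cross v u := by
  simp only [cross]; ring

theorem cross_self (u : Pt) : cross u u = 0 := by
  simp only [cross]; ring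

theorem mul_le_of_bounds {a b : ℤ} {A B : ℕ} (ha : -(A : ℤ) ≤ a) (ha' : a ≤ A) (hb : -(B : ℤ) ≤ b)
    (hb' : b ≤ B) : -((A : ℤ) * B) ≤ a * b ∧ a * b ≤ A * B := by
  constructor <;> nlinarith

theorem dot_bounds {R U : ℕ} {z u : Pt} (hz : Near 0 R z) (hu : Near 0 U u) :
    -(2 * (R : ℤ) * U) ≤ dot z u ∧ dot z u ≤ 2 * R * U := by
  simp only [Near, Prod.fst_zero, Prod.snd_zero, zero_sub, zero_add] at hz hu
  have h1 := mul_le_of_bounds hz.1 hz.2.1 hu.1 hu.2.1
  have h2 := mul_le_of_bounds hz.2.2.1 hz.2.2.2 hu.2.2.1 hu.2.2.2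
  simp only [dot]
  constructor <;> linarith [h1.1, h1.2, h2.1, h2.2]

theorem Near.rot {R : ℕ} {z : Pt} (hz : Near 0 R z) : Near 0 R (rot z) := by
  simp only [Near, MP_9594ac_pr.rot, Prod.fst_zero, Prod.snd_zero] at hz ⊢; omega

theorem Near.neg {R : ℕ} {z : Pt} (hz : Near 0 R z) : Near 0 R (-z) := by
  simp only [Near, Prod.fst_zero, Prod.snd_zero, Prod.fst_neg, Prod.snd_neg] at hz ⊢; omega

theorem Near.mono {x y : Pt} {R R' : ℕ} (h : Near x R y) (hR : R ≤ R') : Near x R' y := by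
  simp only [Near] at h ⊢; omega

theorem Near.trans {x y z : Pt} {R R' : ℕ} (h : Near x R y) (h' : Near y R' z) :
    Near x (R + R') z := by
  simp only [Near] at h h' ⊢; omega

theorem Near.symm {x y : Pt} {R : ℕ} (h : Near x R y) : Near y R x := by
  simp only [Near] at h ⊢; omega

theorem Near.refl (x : Pt) (R : ℕ) : Near x R x := by
  simp only [Near]; omega

theorem near_add {x z : Pt} {R : ℕ} (h : Near 0 R z) : Near x R (x + z) := by
  simp only [Near, Prod.fst_zero, Prod.snd_zero, Prod.fst_add, Prod.snd_add] at h ⊢; omega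

theorem near_sub {x y : Pt} {R : ℕ} (h : Near x R y) : Near 0 R (y - x) := by
  simp only [Near, Prod.fst_zero, Prod.snd_zero, Prod.fst_sub, Prod.snd_sub] at h ⊢; omega

theorem near_smul {z : Pt} {s : ℤ} {R U : ℕ} (hs : -(R : ℤ) ≤ s) (hs' : s ≤ R) (h : Near 0 U z) :
    Near 0 (R * U) (s • z) := by
  simp only [Near, Prod.fst_zero, Prod.snd_zero, zero_sub, zero_add, Prod.smul_fst,
    Prod.smul_snd, smul_eq_mul] at h ⊢
  have h1 := mul_le_of_bounds hs hs' h.1 h.2.1
  have h2 := mul_le_of_bounds hs hs' h.2.2.1 h.2.2.2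
  push_cast
  exact ⟨h1.1, h1.2, h2.1, h2.2⟩

namespace Fan

variable {h : ℕ} (F : Fan h)

/-- tangent vector of side `i`. -/
def t (i : ℤ) : Pt := rot (F.u i)

/-- the coefficient in `u (i-1) + u (i+1) = b i • u i`. -/
def b (i : ℤ) : ℤ := cross (F.u (i - 1)) (F.u (i + 1))

/-- periodic level vectors. -/
def Per (c : ℤ → ℤ) : Prop := ∀ i, c (i + 4 * F.q) = c i

/-- lattice length of side `i`. -/
def len (c : ℤ → ℤ) (i : ℤ) : ℤ := c (i - 1) + c (i + 1) - F.b i * c i

/-- the polygon with levels `c`. -/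
def poly (c : ℤ → ℤ) : Set Pt := {z | ∀ i, dot z (F.u i) ≤ c i}

/-- the vertex between sides `i` and `i+1`. -/
def vtx (c : ℤ → ℤ) (i : ℤ) : Pt := c (i + 1) • F.t i - c i • F.t (i + 1)

/-- bound for heights of short vectors. -/
def H : ℕ := 2 * h * F.U

/-- bound for `b`. -/
def B : ℕ := 2 * F.U * F.U

/-- least side length. -/
def L0 : ℕ := 4 * F.H

/-- side length from which a side is pushed. -/
def L1 : ℕ := F.L0 + F.B

theorem det' (i : ℤ) : cross (F.u (i - 1)) (F.u i) = 1 := by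
  have := F.det (i - 1); rwa [sub_add_cancel] at this

theorem rel (i : ℤ) : F.u (i - 1) + F.u (i + 1) = F.b i • F.u i := by
  have h1 := F.det i
  have h2 := F.det' i
  simp only [cross] at h1 h2
  apply Prod.ext
  · simp only [b, cross, Prod.fst_add, Prod.smul_fst, smul_eq_mul]
    linear_combination (-(F.u (i - 1)).1) * h1 - (F.u (i + 1)).1 * h2
  · simp only [b, cross, Prod.snd_add, Prod.smul_snd, smul_eq_mul]
    linear_combination (-(F.u (i - 1)).2) * h1 - (F.u (i + 1)).2 * h2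

theorem u_neg (i : ℤ) : F.u (i + 2 * F.q) = -F.u i := by
  rw [show i + 2 * (F.q : ℤ) = i + F.q + F.q by ring, F.u_rot, F.u_rot]
  simp [rot, Prod.ext_iff]

theorem u_per (i : ℤ) : F.u (i + 4 * F.q) = F.u i := by
  rw [show i + 4 * (F.q : ℤ) = i + 2 * F.q + 2 * F.q by ring, F.u_neg, F.u_neg, neg_neg]

theorem per_mul {γ : Type} {c : ℤ → γ} {m : ℤ} (hc : ∀ i, c (i + m) = c i) (i k : ℤ) :
    c (i + m * k) = c i := by
  induction k using Int.induction_on with
  | zero => simp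
  | succ k ih => rw [show i + m * ((k : ℤ) + 1) = i + m * k + m by ring, hc, ih]
  | pred k ih =>
    rw [← hc, show i + m * (-(k : ℤ) - 1) + m = i + m * -(k : ℤ) by ring, ih]

theorem u_ne (i : ℤ) : F.u i ≠ 0 := by
  intro h0
  have := F.det i
  rw [h0] at this
  simp [cross] at this

theorem U_pos : 1 ≤ F.U := by
  have := F.bdd 0
  rw [F.u_zero] at this
  simp only [Near, Prod.fst_zero] at this
  omega

theorem t_bdd (i : ℤ) : Near 0 F.U (F.t i) := (F.bdd i).rot

theorem t_dir (i : ℤ) : Dir F.U (F.t i) := by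
  refine ⟨fun h0 => F.u_ne i ?_, F.t_bdd i⟩
  simp only [t, rot, Prod.ext_iff, Prod.fst_zero, Prod.snd_zero] at h0 ⊢
  omega

theorem cross_nonneg {i j : ℤ} (h1 : i ≤ j) (h2 : j ≤ i + 2 * F.q) :
    0 ≤ cross (F.u i) (F.u j) := by
  rcases eq_or_lt_of_le h1 with e | e
  · rw [e, cross_self]
  · rcases eq_or_lt_of_le h2 with e' | e'
    · rw [e', F.u_neg]; simp only [cross, Prod.fst_neg, Prod.snd_neg]; linarith
    · exact (F.pos i j e e').le

theorem b_nonneg (i : ℤ) : 0 ≤ F.b i := by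
  have := F.qpos
  exact F.cross_nonneg (by omega) (by omega)

theorem b_le (i : ℤ) : F.b i ≤ F.B := by
  have := (dot_bounds (F.t_bdd (i - 1)) (F.bdd (i + 1))).2
  rw [t, dot_rot] at this
  simp only [B]; push_cast; exact this

theorem dot_le_H {z : Pt} (hz : Near 0 h z) (i : ℤ) :
    -(F.H : ℤ) ≤ dot z (F.u i) ∧ dot z (F.u i) ≤ F.H := by
  have := dot_bounds hz (F.bdd i)
  simp only [H]; push_cast; exact this

theorem dot_t (k j : ℤ) : dot (F.t k) (F.u j) = cross (F.u k) (F.u j) := dot_rot _ _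

theorem dot_t_self (i : ℤ) : dot (F.t i) (F.u i) = 0 := by rw [dot_t, cross_self]

theorem dot_t_succ (i : ℤ) : dot (F.t i) (F.u (i + 1)) = 1 := by rw [dot_t, F.det]

theorem dot_t_pred (i : ℤ) : dot (F.t i) (F.u (i - 1)) = -1 := by
  rw [dot_t, cross_comm, F.det']

theorem dot_vtx_self (c : ℤ → ℤ) (i : ℤ) : dot (F.vtx c i) (F.u i) = c i := by
  have := F.dot_t_pred (i + 1)
  rw [add_sub_cancel_right] at this
  rw [vtx, dot_sub, dot_smul, dot_smul, dot_t_self, this]; ring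

theorem dot_vtx_succ (c : ℤ → ℤ) (i : ℤ) : dot (F.vtx c i) (F.u (i + 1)) = c (i + 1) := by
  rw [vtx, dot_sub, dot_smul, dot_smul, dot_t_self, dot_t_succ]; ring

theorem dot_vtx_pred (c : ℤ → ℤ) (i : ℤ) : dot (F.vtx c (i - 1)) (F.u i) = c i := by
  have := F.dot_vtx_succ c (i - 1); rwa [sub_add_cancel] at this

theorem vtx_step (c : ℤ → ℤ) (i : ℤ) : F.vtx c i = F.vtx c (i - 1) + F.len c i • F.t i := by
  have h1 := F.rel i
  simp only [Prod.ext_iff, Prod.fst_add, Prod.snd_add, Prod.smul_fst, Prod.smul_snd,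
    smul_eq_mul] at h1
  simp only [vtx, sub_add_cancel, len, t, rot, Prod.ext_iff, Prod.fst_add, Prod.snd_add,
    Prod.fst_sub, Prod.snd_sub, Prod.smul_fst, Prod.smul_snd, smul_eq_mul]
  constructor
  · linear_combination (c i) * h1.2
  · linear_combination (-c i) * h1.1

/-- coordinates of a point relative to a vertex. -/
theorem coords (c : ℤ → ℤ) (y : Pt) (j : ℤ) :
    y = F.vtx c j - (c (j + 1) - dot y (F.u (j + 1))) • F.t j +
      (c j - dot y (F.u j)) • F.t (j + 1) := by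
  have h1 := F.det j
  simp only [cross] at h1
  simp only [vtx, t, rot, dot, Prod.ext_iff, Prod.fst_add, Prod.snd_add,
    Prod.fst_sub, Prod.snd_sub, Prod.smul_fst, Prod.smul_snd, smul_eq_mul]
  constructor
  · linear_combination (-y.1) * h1
  · linear_combination (-y.2) * h1

theorem coords' (c : ℤ → ℤ) (y : Pt) (j : ℤ) :
    y = F.vtx c (j - 1) - (c j - dot y (F.u j)) • F.t (j - 1) +
      (c (j - 1) - dot y (F.u (j - 1))) • F.t j := by
  have := F.coords c y (j - 1); rwa [sub_add_cancel] at this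

theorem gap_rel (c : ℤ → ℤ) (y : Pt) (i : ℤ) :
    (c (i - 1) - dot y (F.u (i - 1))) + (c (i + 1) - dot y (F.u (i + 1))) -
      F.b i * (c i - dot y (F.u i)) = F.len c i := by
  have h1 := F.rel i
  simp only [Prod.ext_iff, Prod.fst_add, Prod.snd_add, Prod.smul_fst, Prod.smul_snd,
    smul_eq_mul] at h1
  simp only [len, dot]
  linear_combination (-y.1) * h1.1 - y.2 * h1.2

theorem cvx_up {c : ℤ → ℤ} {L : ℤ} (hL : 0 ≤ L) (hc : ∀ k, L ≤ F.len c k) (j : ℤ) (n : ℕ)
    (hn : (n : ℤ) + 1 ≤ 2 * F.q) : dot (F.vtx c (j - 2 - n)) (F.u j) ≤ c j - L := by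
  induction n with
  | zero =>
    have h1 := congrArg (fun z => dot z (F.u j)) (F.vtx_step c (j - 1))
    simp only [dot_add, dot_smul, dot_t, F.det', F.dot_vtx_pred] at h1
    have h2 := hc (j - 1)
    rw [show j - 2 - ((0 : ℕ) : ℤ) = j - 1 - 1 by simp; ring]
    linarith
  | succ n ih =>
    have h1 := congrArg (fun z => dot z (F.u j)) (F.vtx_step c (j - 2 - n))
    simp only [dot_add, dot_smul, dot_t] at h1
    have h2 := hc (j - 2 - n)
    push_cast at hn
    have h3 := F.cross_nonneg (i := j - 2 - n) (j := j) (by omega) (by omega)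
    have h4 := ih (by omega)
    rw [show j - 2 - ((n + 1 : ℕ) : ℤ) = j - 2 - n - 1 by push_cast; ring]
    nlinarith [mul_nonneg (hL.trans h2) h3]

theorem cvx_down {c : ℤ → ℤ} {L : ℤ} (hL : 0 ≤ L) (hc : ∀ k, L ≤ F.len c k) (j : ℤ) (n : ℕ)
    (hn : (n : ℤ) + 1 ≤ 2 * F.q) : dot (F.vtx c (j + 1 + n)) (F.u j) ≤ c j - L := by
  induction n with
  | zero =>
    have h1 := congrArg (fun z => dot z (F.u j)) (F.vtx_step c (j + 1))
    have h0 := F.dot_t_pred (j + 1)
    simp only [add_sub_cancel_right] at h0 h1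
    simp only [dot_add, dot_smul, h0, F.dot_vtx_self] at h1
    have h2 := hc (j + 1)
    rw [show j + 1 + ((0 : ℕ) : ℤ) = j + 1 by simp]
    linarith
  | succ n ih =>
    have h1 := congrArg (fun z => dot z (F.u j)) (F.vtx_step c (j + 1 + n + 1))
    simp only [dot_add, dot_smul, dot_t, add_sub_cancel_right] at h1
    have h2 := hc (j + 1 + n + 1)
    push_cast at hn
    have h3 := F.cross_nonneg (i := j) (j := j + 1 + n + 1) (by omega) (by omega)
    rw [cross_comm] at h3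
    have h4 := ih (by omega)
    rw [show j + 1 + ((n + 1 : ℕ) : ℤ) = j + 1 + n + 1 by push_cast; ring]
    nlinarith [mul_nonneg (hL.trans h2) h3]

/-- a point of side `i` is deep inside the non-adjacent constraints. -/
theorem side_deep {c : ℤ → ℤ} {L : ℤ} (hL : 0 ≤ L) (hc : ∀ k, L ≤ F.len c k) {i j : ℤ} {x : Pt}
    (h0 : dot x (F.u i) = c i) (h1 : dot x (F.u (i - 1)) ≤ c (i - 1))
    (h2 : dot x (F.u (i + 1)) ≤ c (i + 1)) (hj : i - 2 * F.q ≤ j) (hj' : j ≤ i + 2 * F.q)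
    (hne : j ≤ i - 2 ∨ i + 2 ≤ j) : dot x (F.u j) ≤ c j - L := by
  rcases hne with hne | hne
  · have e := congrArg (fun z => dot z (F.u j)) (F.coords' c x i)
    simp only [dot_add, dot_sub, dot_smul, dot_t, h0, sub_self, zero_mul, sub_zero] at e
    obtain ⟨n, hn⟩ := Int.eq_ofNat_of_zero_le (a := i - 2 - j) (by omega)
    have h3 := F.cvx_down hL hc j n (by omega)
    rw [show j + 1 + (n : ℤ) = i - 1 by omega] at h3
    have h4 := F.cross_nonneg (i := j) (j := i) (by omega) (by omega)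
    rw [cross_comm] at h4
    nlinarith [mul_nonneg (sub_nonneg.2 h1) h4]
  · have e := congrArg (fun z => dot z (F.u j)) (F.coords c x i)
    simp only [dot_add, dot_sub, dot_smul, dot_t, h0, sub_self, zero_mul, add_zero] at e
    obtain ⟨n, hn⟩ := Int.eq_ofNat_of_zero_le (a := j - 2 - i) (by omega)
    have h3 := F.cvx_up hL hc j n (by omega)
    rw [show j - 2 - (n : ℤ) = i by omega] at h3
    have h4 := F.cross_nonneg (i := i) (j := j) (by omega) (by omega)
    nlinarith [mul_nonneg (sub_nonneg.2 h2) h4]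

theorem reduce (i j : ℤ) : ∃ j' k, j = j' + 4 * F.q * k ∧ i ≤ j' ∧ j' < i + 4 * F.q := by
  have hq : (0 : ℤ) < 4 * F.q := by have := F.qpos; omega
  refine ⟨i + (j - i) % (4 * F.q), (j - i) / (4 * F.q), ?_, ?_, ?_⟩
  · have := Int.emod_add_mul_ediv (j - i) (4 * F.q); linarith
  · have := Int.emod_nonneg (j - i) hq.ne'; linarith
  · have := Int.emod_lt_of_pos (j - i) hq; linarith

theorem mem_poly_of_window {c : ℤ → ℤ} (hc : F.Per c) (i : ℤ) {z : Pt}
    (hz : ∀ j, i ≤ j → j < i + 4 * F.q → dot z (F.u j) ≤ c j) : z ∈ F.poly c := by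
  intro j
  obtain ⟨j', k, rfl, h1, h2⟩ := F.reduce i j
  rw [per_mul F.u_per, per_mul hc]
  exact hz j' h1 h2

theorem side_mem {c : ℤ → ℤ} (hp : F.Per c) (hc : ∀ k, 0 ≤ F.len c k) {i : ℤ} {x : Pt}
    (h0 : dot x (F.u i) = c i) (h1 : dot x (F.u (i - 1)) ≤ c (i - 1))
    (h2 : dot x (F.u (i + 1)) ≤ c (i + 1)) : x ∈ F.poly c := by
  refine F.mem_poly_of_window hp (i - 2 * F.q) (fun j hj hj' => ?_)
  by_cases hne : j ≤ i - 2 ∨ i + 2 ≤ j
  · simpa using F.side_deep le_rfl hc h0 h1 h2 hj (by omega) hne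
  · have : j = i - 1 ∨ j = i ∨ j = i + 1 := by omega
    rcases this with e | e | e <;> rw [e]
    · exact h1
    · exact h0.le
    · exact h2

/-- the lattice points of side `i` belong to the polygon. -/
theorem seg_mem {c : ℤ → ℤ} (hp : F.Per c) (hc : ∀ k, 0 ≤ F.len c k) (i s : ℤ) (hs : 0 ≤ s)
    (hs' : s ≤ F.len c i) : F.vtx c (i - 1) + s • F.t i ∈ F.poly c := by
  have e := congrArg (fun z => dot z (F.u (i + 1))) (F.vtx_step c i)
  simp only [dot_add, dot_smul, dot_t_succ, dot_vtx_succ] at e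
  apply F.side_mem hp hc (i := i)
  · rw [dot_add, dot_smul, dot_t_self, dot_vtx_pred]; ring
  · rw [dot_add, dot_smul, dot_t_pred, dot_vtx_self]; linarith
  · rw [dot_add, dot_smul, dot_t_succ]; linarith

theorem vtx_mem {c : ℤ → ℤ} (hp : F.Per c) (hc : ∀ k, 0 ≤ F.len c k) (i : ℤ) :
    F.vtx c i ∈ F.poly c := by
  have := F.seg_mem hp hc (i + 1) 0 le_rfl (hc _)
  simpa using this

theorem b_per (i : ℤ) : F.b (i + 4 * F.q) = F.b i := by
  simp only [b]
  rw [show i + 4 * (F.q : ℤ) - 1 = i - 1 + 4 * F.q by ring,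
    show i + 4 * (F.q : ℤ) + 1 = i + 1 + 4 * F.q by ring, F.u_per, F.u_per]

theorem len_per {c : ℤ → ℤ} (hp : F.Per c) (i : ℤ) : F.len c (i + 4 * F.q) = F.len c i := by
  simp only [len]
  rw [show i + 4 * (F.q : ℤ) - 1 = i - 1 + 4 * F.q by ring,
    show i + 4 * (F.q : ℤ) + 1 = i + 1 + 4 * F.q by ring, hp, hp, hp, F.b_per]

theorem vtx_per {c : ℤ → ℤ} (hp : F.Per c) (i : ℤ) : F.vtx c (i + 4 * F.q) = F.vtx c i := by
  simp only [vtx, t]
  rw [show i + 4 * (F.q : ℤ) + 1 = i + 1 + 4 * F.q by ring, hp, hp, F.u_per, F.u_per]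

/-- vertices joined by short sides are close. -/
theorem vtx_near {c : ℤ → ℤ} {Λ : ℕ} (hc : ∀ k, 0 ≤ F.len c k) (i : ℤ) (n : ℕ)
    (hΛ : ∀ k, i < k → k ≤ i + n → F.len c k ≤ Λ) :
    Near (F.vtx c i) (n * (Λ * F.U)) (F.vtx c (i + n)) := by
  induction n with
  | zero => simpa using Near.refl _ _
  | succ n ih =>
    have h1 := ih (fun k hk hk' => hΛ k hk (by push_cast; omega))
    have h2 := F.vtx_step c (i + n + 1)
    rw [add_sub_cancel_right] at h2
    have h3 : Near 0 (Λ * F.U) (F.len c (i + n + 1) • F.t (i + n + 1)) :=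
      near_smul (by have := hc (i + n + 1); omega) (hΛ _ (by omega) (by push_cast; omega))
        (F.t_bdd _)
    rw [show i + ((n + 1 : ℕ) : ℤ) = i + n + 1 by push_cast; ring, h2, Nat.succ_mul]
    exact h1.trans (near_add h3)

theorem u_q : F.u F.q = (0, 1) := by
  have := F.u_rot 0; rw [zero_add, F.u_zero] at this; simpa [rot] using this

theorem u_2q : F.u (2 * F.q) = (-1, 0) := by
  have := F.u_neg 0; rw [zero_add, F.u_zero] at this; simpa using this

theorem u_3q : F.u (F.q + 2 * F.q) = (0, -1) := by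
  have := F.u_neg F.q; rw [F.u_q] at this; simpa using this

/-- the widths in the axis directions are bounded by the side lengths. -/
theorem width_le {c : ℤ → ℤ} {Λ : ℕ} (hc : ∀ k, 0 ≤ F.len c k) (hΛ : ∀ k, F.len c k ≤ Λ) :
    c 0 + c (2 * F.q) ≤ (2 * F.q * (Λ * F.U) : ℕ) ∧
      c F.q + c (F.q + 2 * F.q) ≤ (2 * F.q * (Λ * F.U) : ℕ) := by
  have h1 := F.vtx_near hc 0 (2 * F.q) (fun k _ _ => hΛ k)
  have h2 := F.vtx_near hc F.q (2 * F.q) (fun k _ _ => hΛ k)
  have e0 := F.dot_vtx_self c 0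
  have e1 := F.dot_vtx_self c F.q
  have e2 := F.dot_vtx_self c (2 * F.q)
  have e3 := F.dot_vtx_self c (F.q + 2 * F.q)
  rw [F.u_zero] at e0
  rw [F.u_q] at e1
  rw [F.u_2q] at e2
  rw [F.u_3q] at e3
  simp only [dot] at e0 e1 e2 e3
  rw [show (0 : ℤ) + ((2 * F.q : ℕ) : ℤ) = 2 * F.q by push_cast; ring] at h1
  rw [show (F.q : ℤ) + ((2 * F.q : ℕ) : ℤ) = F.q + 2 * F.q by push_cast; ring] at h2
  simp only [Near] at h1 h2
  omega

theorem axis_of_mem {c : ℤ → ℤ} {y : Pt} (hy : y ∈ F.poly c) :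
    y.1 ≤ c 0 ∧ y.2 ≤ c F.q ∧ -y.1 ≤ c (2 * F.q) ∧ -y.2 ≤ c (F.q + 2 * F.q) := by
  have e0 := hy 0
  have e1 := hy F.q
  have e2 := hy (2 * F.q)
  have e3 := hy (F.q + 2 * F.q)
  rw [F.u_zero] at e0
  rw [F.u_q] at e1
  rw [F.u_2q] at e2
  rw [F.u_3q] at e3
  simp only [dot] at e0 e1 e2 e3
  omega

/-- a polygon with short sides has a small diameter. -/
theorem poly_near {c : ℤ → ℤ} {Λ : ℕ} (hc : ∀ k, 0 ≤ F.len c k) (hΛ : ∀ k, F.len c k ≤ Λ)
    {x y : Pt} (hx : x ∈ F.poly c) (hy : y ∈ F.poly c) : Near x (2 * F.q * (Λ * F.U)) y := by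
  have h1 := F.width_le hc hΛ
  have h2 := F.axis_of_mem hx
  have h3 := F.axis_of_mem hy
  simp only [Near]
  omega

end Fan

end Pool.Agent.P.MP_9594ac_pr
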