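import Mathlib

/-! Definitions used in the statement of problem MP_9594ac_pr (bootstrap percolation on the torus). -/

namespace Pool.Agent.P.MP_9594ac_pr

/-- The discrete torus `(Z/nZ)^2`. -/
abbrev Torus (n : ℕ) : Type := ZMod n × ZMod n

/-- Reduction of a lattice vector modulo `n`. -/
def toTorus (n : ℕ) (z : ℤ × ℤ) : Torus n := ((z.1 : ZMod n), (z.2 : ZMod n))

/-- One step of the dynamics: `A ↦ A ∪ {x : |(x + K) ∩ A| ≥ r}`, with `K` read modulo `n`. -/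
def step (n : ℕ) (K : Set (ℤ × ℤ)) (r : ℕ) (A : Set (Torus n)) : Set (Torus n) :=
  A ∪ {x | r ≤ (((fun z => x + toTorus n z) '' K) ∩ A).ncard}

/-- The closure `[A]`, the union of all `A_t`. -/
def bootClosure (n : ℕ) (K : Set (ℤ × ℤ)) (r : ℕ) (A : Set (Torus n)) : Set (Torus n) :=
  ⋃ t : ℕ, (step n K r)^[t] A

/-- The neighbourhood `K_s = (sK) ∩ Z^2`. -/
def lattice (K : Set (EuclideanSpace ℝ (Fin 2))) (s : ℝ) : Set (ℤ × ℤ) :=
  {z | ∃ k ∈ K, (z.1 : ℝ) = s * k 0 ∧ (z.2 : ℝ) = s * k 1}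

/-- The threshold `1 + min_{u ≠ 0} |{x ∈ K : ⟨x, u⟩ < 0}|`. -/
noncomputable def threshold (K : Set (ℤ × ℤ)) : ℕ :=
  1 + sInf {m : ℕ | ∃ u : ℝ × ℝ, u ≠ 0 ∧
    m = {z : ℤ × ℤ | z ∈ K ∧ (z.1 : ℝ) * u.1 + (z.2 : ℝ) * u.2 < 0}.ncard}

/-- Bijections from the torus onto `{1, ..., n^2}`. -/
abbrev Order (n : ℕ) : Type := Torus n ≃ Set.Icc 1 (n ^ 2)

/-- The set `A(t) = {x : σ(x) ≤ t}`. -/
def infected {n : ℕ} (σ : Order n) (t : ℕ) : Set (Torus n) := {x | (σ x : ℕ) ≤ t}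

/-- The percolation time `τ = min {t : [A(t)] = T}`. -/
noncomputable def percTime {n : ℕ} (K : Set (ℤ × ℤ)) (r : ℕ) (σ : Order n) : ℕ :=
  sInf {t : ℕ | bootClosure n K r (infected σ t) = Set.univ}

/-- The probability, for a uniformly random bijection `σ`, that `|[A(τ - 1)]| > ε n^2`. -/
noncomputable def badProb (K : Set (ℤ × ℤ)) (r : ℕ) (ε : ℝ) (n : ℕ) : ℝ :=
  (Nat.card {σ : Order n //
      ε * (n : ℝ) ^ 2 < ((bootClosure n K r (infected σ (percTime K r σ - 1))).ncard : ℝ)} : ℝ) /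
    (Nat.card (Order n) : ℝ)

end Pool.Agent.P.MP_9594ac_pr
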